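import Pool.Agent.J4H71.CF.Primes

/-!
# Many pairs `(s, t)` with a prime (or two primes) dividing `t ^ m - s ^ m` exactly once
-/

set_option autoImplicit false

namespace Pool.Agent.J4H71.CF

open Finset Filter Topology

/-- a pair `(s, t)` in the given residue classes and the given range -/
structure Pt (M s₁ t₁ : ℤ) (x y T : ℝ) (s t : ℤ) : Prop where
  hs : M ∣ s - s₁
  ht : M ∣ t - t₁
  pos : 0 < s
  cop : IsCoprime s t
  lo : x * s < t
  hi : (t : ℝ) < y * s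
  le : (t : ℝ) ≤ T

/-- the prime `q` divides `t ^ m - s ^ m` exactly once, and does not divide `s` -/
structure Ex (m : ℕ) (s t : ℤ) (q : ℕ) : Prop where
  prime : q.Prime
  dvd : (q : ℤ) ∣ t ^ m - s ^ m
  ndvd : ¬ (q : ℤ) ^ 2 ∣ t ^ m - s ^ m
  hs : ¬ (q : ℤ) ∣ s

/-- families of pairs `(s, t)` -/
def Fam (m : ℕ) (M s₁ t₁ : ℤ) (x y : ℝ) (e : ℕ) : Prop :=
  ∃ c : ℝ, 0 < c ∧ ∃ C : ℝ, 0 < C ∧ ∃ α : ℝ, 0 < α ∧ ∃ U₀ : ℝ, ∀ U : ℝ, U₀ ≤ U →
    ∃ (P : Finset (ℕ × ℕ)) (f : ℕ × ℕ → ℤ × ℤ), c * (U / Real.log U) ^ e ≤ (P.card : ℝ) ∧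
      ∀ p ∈ P, Pt M s₁ t₁ x y (C * U) (f p).1 (f p).2 ∧
        Ex m (f p).1 (f p).2 p.1 ∧ Ex m (f p).1 (f p).2 p.2 ∧ α * U < p.1 ∧ α * U < p.2

theorem exact_once {m : ℕ} {u : ℕ} (hu : u.Prime) (g s t : ℤ) (h : t - s = g * u)
    (hg : ¬ (u : ℤ) ∣ g) (hm : ¬ u ∣ m) (hs : ¬ (u : ℤ) ∣ s) :
    (u : ℤ) ∣ t ^ m - s ^ m ∧ ¬ (u : ℤ) ^ 2 ∣ t ^ m - s ^ m := by
  have hp : Prime (u : ℤ) := Nat.prime_iff_prime_int.1 hu
  have hu0 : (u : ℤ) ≠ 0 := hp.ne_zero
  have h1 := geom_sum₂_mul t s m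
  have hts : (u : ℤ) ∣ t - s := h ▸ Dvd.intro_left _ rfl
  have ht : ¬ (u : ℤ) ∣ t := fun h' => hs (by
    have := h'.sub hts
    simpa using this)
  have h2 : ¬ (u : ℤ) ∣ ∑ i ∈ range m, t ^ i * s ^ (m - 1 - i) :=
    not_dvd_geom_sum₂ hp hts ht (by exact_mod_cast hm)
  rw [← h1, h]
  refine ⟨(Dvd.intro_left g rfl).mul_left _, fun h3 => ?_⟩
  have h4 : (u : ℤ) * u ∣ ((∑ i ∈ range m, t ^ i * s ^ (m - 1 - i)) * g) * u := by
    rw [mul_assoc, ← sq]
    exact h3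
  have h5 := Int.dvd_of_mul_dvd_mul_right hu0 h4
  rcases hp.dvd_or_dvd h5 with h6 | h6
  · exact h2 h6
  · exact hg h6

/-- the residue class of the prime -/
theorem res (M : ℤ) (hM : 0 < M) (z : ℤ) :
    ∃ g q : ℕ, 0 < g ∧ 0 < q ∧ (g : ℤ) ∣ M ∧ (g : ℤ) ∣ z ∧ ∃ a : ZMod q, IsUnit a ∧
      ∀ u : ℕ, (u : ZMod q) = a → M ∣ g * u - z := by
  have hg : 0 < Int.gcd z M := Int.gcd_pos_of_ne_zero_right z hM.ne'
  obtain ⟨z', hz⟩ := Int.gcd_dvd_left z M
  obtain ⟨M', hM'⟩ := Int.gcd_dvd_right z M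
  have hg0 : (0 : ℤ) < Int.gcd z M := by exact_mod_cast hg
  have hM'0 : 0 < M' := by
    rw [hM'] at hM
    exact (mul_pos_iff_of_pos_left hg0).1 hM
  obtain ⟨q, rfl⟩ := Int.eq_ofNat_of_zero_le hM'0.le
  have hcop : IsCoprime (q : ℤ) z' := by
    obtain ⟨α, β, h⟩ := Int.gcd_eq_gcd_ab z M ▸ (⟨Int.gcdA z M, Int.gcdB z M, rfl⟩ :
      ∃ α β : ℤ, z * Int.gcdA z M + M * Int.gcdB z M = z * α + M * β)
    refine ⟨Int.gcdB z M, Int.gcdA z M, ?_⟩
    have h1 := Int.gcd_eq_gcd_ab z M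
    have h2 : ((Int.gcd z M : ℕ) : ℤ) * 1 =
        (Int.gcd z M : ℕ) * (Int.gcdB z M * q + Int.gcdA z M * z') := by
      linear_combination h1 + Int.gcdA z M * hz + Int.gcdB z M * hM'
    exact (mul_left_cancel₀ hg0.ne' h2).symm
  refine ⟨Int.gcd z M, q, hg, by exact_mod_cast hM'0, Int.gcd_dvd_right .., Int.gcd_dvd_left ..,
    (z' : ZMod q), (ZMod.coe_int_isUnit_iff_isCoprime z' q).2 hcop, fun u hu => ?_⟩
  have h1 : ((z' : ℤ) : ZMod q) = ((u : ℤ) : ZMod q) := by rw [← hu]; simp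
  rw [ZMod.intCast_eq_intCast_iff_dvd_sub] at h1
  have h2 := mul_dvd_mul_left (Int.gcd z M : ℤ) h1
  rw [← hM'] at h2
  have h3 : (Int.gcd z M : ℤ) * u - z = (Int.gcd z M : ℤ) * (u - z') := by
    linear_combination -hz
  rw [h3]
  exact h2

theorem cop_of (s t : ℤ) (h : ∀ p : ℕ, p.Prime → (p : ℤ) ∣ s → (p : ℤ) ∣ t → False) :
    IsCoprime s t := by
  rw [Int.isCoprime_iff_gcd_eq_one]
  by_contra hc
  obtain ⟨p, hp, hpd⟩ := Nat.exists_prime_and_dvd hc
  have h1 : (p : ℤ) ∣ (Int.gcd s t : ℤ) := Int.natCast_dvd_natCast.2 hpd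
  exact h p hp (h1.trans (Int.gcd_dvd_left ..)) (h1.trans (Int.gcd_dvd_right ..))

/-- the condition for the residue classes -/
def Cls (M s₁ t₁ : ℤ) : Prop := ∀ p : ℕ, p.Prime → (p : ℤ) ∣ M → (p : ℤ) ∣ s₁ → ¬ (p : ℤ) ∣ t₁

theorem not_dvd_of_lt' {u : ℕ} {g : ℤ} (hg : 0 < g) (h : g < u) : ¬ (u : ℤ) ∣ g := fun h' => by
  have := Int.le_of_dvd hg h'
  omega

/-- one prime: the choice of `s` and `t` for a given prime -/
theorem one_prime (m : ℕ) (hm : 1 ≤ m) (M s₁ t₁ : ℤ) (hM : 0 < M) (hcl : Cls M s₁ t₁) (x y : ℝ)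
    (hx : 1 < x) (hxy : x < y) (g u : ℕ) (hg : 0 < g) (hgM : (g : ℤ) ∣ M) (hu : u.Prime)
    (huM : M < u) (hum : m < u) (hcong : M ∣ g * u - (t₁ - s₁))
    (hlarge : 2 * M * (x - 1) * (y - 1) < (y - x) * u) :
    ∃ s t : ℤ, Pt M s₁ t₁ x y (g * x / (x - 1) * u) s t ∧ Ex m s t u := by
  have hp : Prime (u : ℤ) := Nat.prime_iff_prime_int.1 hu
  have hx1 : 0 < x - 1 := by linarith
  have hy1 : 0 < y - 1 := by linarith
  have hgR : (1 : ℝ) ≤ g := by exact_mod_cast hg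
  have huR : (0 : ℝ) < u := by exact_mod_cast hu.pos
  have hMR : (0 : ℝ) < M := by exact_mod_cast hM
  set G : ℝ := (g : ℝ) * u with hG
  have hG0 : 0 < G := by positivity
  set B : ℤ := ⌊G / (y - 1)⌋ with hB
  have hB1 : (B : ℝ) ≤ G / (y - 1) := Int.floor_le _
  have hB2 : G / (y - 1) < B + 1 := Int.lt_floor_add_one _
  have hB0 : 0 ≤ B := Int.floor_nonneg.2 (by positivity)
  have huM' : ¬ (u : ℤ) ∣ M := not_dvd_of_lt' hM huM
  -- the choice of `s`
  obtain ⟨s, hs1, hs2, hs3, hs4⟩ : ∃ s : ℤ, M ∣ s - s₁ ∧ B + 1 ≤ s ∧ s ≤ B + 2 * M ∧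
      ¬ (u : ℤ) ∣ s := by
    set r : ℤ := (s₁ - B - 1) % M with hr
    have hr0 : 0 ≤ r := Int.emod_nonneg _ hM.ne'
    have hr1 : r < M := Int.emod_lt_of_pos _ hM
    have hr2 : M ∣ (B + 1 + r) - s₁ := by
      have := Int.emod_add_mul_ediv (s₁ - B - 1) M
      exact ⟨-((s₁ - B - 1) / M), by rw [hr]; linear_combination this⟩
    by_cases h : (u : ℤ) ∣ B + 1 + r
    · refine ⟨B + 1 + r + M, ?_, by omega, by omega, fun h' => huM' ?_⟩
      · have := hr2.add (dvd_refl M)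
        rwa [show B + 1 + r + M - s₁ = B + 1 + r - s₁ + M by ring]
      · have := h'.sub h
        simpa using this
    · exact ⟨B + 1 + r, hr2, by omega, by omega, h⟩
  have hs2R : (B : ℝ) + 1 ≤ s := by exact_mod_cast hs2
  have hs3R : (s : ℝ) ≤ B + 2 * M := by exact_mod_cast hs3
  have hsl : G / (y - 1) < s := by linarith
  have hsu : (s : ℝ) < G / (x - 1) := by
    have h1 : (s : ℝ) ≤ G / (y - 1) + 2 * M := by linarith
    have h2 : 2 * M < G / (x - 1) - G / (y - 1) := by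
      rw [div_sub_div _ _ hx1.ne' hy1.ne', lt_div_iff₀ (mul_pos hx1 hy1)]
      have h3 : (y - x) * (u : ℝ) ≤ (y - x) * G := by
        apply mul_le_mul_of_nonneg_left _ (by linarith)
        rw [hG]
        nlinarith
      nlinarith
    linarith
  rw [div_lt_iff₀ hy1] at hsl
  have hsu' := hsu
  rw [lt_div_iff₀ hx1] at hsu
  have hs0 : 0 < s := by omega
  refine ⟨s, s + g * u, ⟨hs1, ?_, hs0, ?_, ?_, ?_, ?_⟩, ⟨hu, ?_, ?_, hs4⟩⟩
  · have := hs1.add hcong
    rwa [show s + g * u - t₁ = s - s₁ + (g * u - (t₁ - s₁)) by ring]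
  · refine cop_of _ _ fun p hpr h1 h2 => ?_
    have hpp : Prime (p : ℤ) := Nat.prime_iff_prime_int.1 hpr
    have h3 : (p : ℤ) ∣ g * u := by
      have := h2.sub h1
      simpa using this
    rcases hpp.dvd_or_dvd h3 with h4 | h4
    · have h5 : (p : ℤ) ∣ M := h4.trans hgM
      have h6 : (p : ℤ) ∣ s₁ := by
        have := h1.sub (h5.trans hs1)
        simpa using this
      refine hcl p hpr h5 h6 ?_
      have h7 := h5.trans hcong
      have h8 := (h3.sub h7).add h6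
      simpa using h8
    · have h5 : p ∣ u := by exact_mod_cast h4
      rw [(Nat.prime_dvd_prime_iff_eq hpr hu).1 h5] at h1
      exact hs4 h1
  · push_cast
    rw [← hG]
    linarith
  · push_cast
    rw [← hG]
    linarith
  · push_cast
    rw [← hG]
    have h1 : (g : ℝ) * x / (x - 1) * u = G / (x - 1) + G := by
      rw [hG]
      field_simp
      ring
    rw [h1]
    linarith
  all_goals
    have hex := exact_once hu (m := m) g s (s + g * u) (by ring)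
      (fun h => huM' (h.trans hgM)) (fun h => by
        have := Nat.le_of_dvd (by omega) h
        omega) hs4
  · exact hex.1
  · exact hex.2

/-- two primes: the choice of `s` and `t` for given primes -/
theorem two_primes (m : ℕ) (hm : 1 ≤ m) (hev : Even m) (M s₁ t₁ : ℤ) (hM : 0 < M) (h2M : 2 ∣ M)
    (hcl : Cls M s₁ t₁) (x y : ℝ) (hx : 1 < x) (hxy : x < y) (g u h w : ℕ) (hg : 0 < g)
    (hh : 0 < h) (hgM : (g : ℤ) ∣ 2 * M) (hhM : (h : ℤ) ∣ 2 * M) (hu : u.Prime) (hw : w.Prime)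
    (huM : 2 * M < u) (hwM : 2 * M < w) (hum : m < u) (hwm : m < w) (huw : u ≠ w)
    (hcong : 2 * M ∣ g * u - (t₁ - s₁)) (hcong' : 2 * M ∣ h * w - (t₁ + s₁))
    (hlo : (y + 1) / (y - 1) * (g * u) < h * w) (hhi : (h : ℝ) * w < (x + 1) / (x - 1) * (g * u)) :
    ∃ s t : ℤ, Pt M s₁ t₁ x y (g * u + h * w) s t ∧ Ex m s t u ∧ Ex m s t w := by
  have hpu : Prime (u : ℤ) := Nat.prime_iff_prime_int.1 hu
  have hpw : Prime (w : ℤ) := Nat.prime_iff_prime_int.1 hw
  have hx1 : 0 < x - 1 := by linarith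
  have hy1 : 0 < y - 1 := by linarith
  have hg0 : (0 : ℤ) < g := by exact_mod_cast hg
  have hh0 : (0 : ℤ) < h := by exact_mod_cast hh
  have hu0 : (0 : ℤ) < u := by exact_mod_cast hu.pos
  have hw0 : (0 : ℤ) < w := by exact_mod_cast hw.pos
  have hGpos : (0 : ℝ) < (g : ℝ) * u := by exact_mod_cast mul_pos hg0 hu0
  obtain ⟨k, hk⟩ := hcong.add hcong'
  set t : ℤ := t₁ + M * k with ht
  have h2t : 2 * t = h * w + g * u := by
    rw [ht]
    linear_combination -hk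
  set s : ℤ := t - g * u with hs
  have h2s : 2 * s = h * w - g * u := by
    rw [hs]
    linear_combination h2t
  have hMt : M ∣ t - t₁ := ⟨k, by rw [ht]; ring⟩
  have hMs : M ∣ s - s₁ := by
    have h1 := hMt.sub ((Dvd.intro_left (2 : ℤ) rfl : M ∣ 2 * M).trans hcong)
    have h3 : s - s₁ = t - t₁ - (g * u - (t₁ - s₁)) := by rw [hs]; ring
    rw [h3]
    exact h1
  have h2sR : 2 * (s : ℝ) = h * w - g * u := by exact_mod_cast h2s
  have h2tR : 2 * (t : ℝ) = h * w + g * u := by exact_mod_cast h2t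
  rw [div_mul_eq_mul_div, div_lt_iff₀ hy1] at hlo
  rw [div_mul_eq_mul_div, lt_div_iff₀ hx1] at hhi
  have hgt : (g : ℝ) * u < h * w := by
    have h1 : (g : ℝ) * u * (y - 1) < h * w * (y - 1) := by nlinarith
    exact lt_of_mul_lt_mul_right h1 hy1.le
  have hs0R : (0 : ℝ) < s := by linarith
  have hs0 : 0 < s := by exact_mod_cast hs0R
  have hug : ¬ (u : ℤ) ∣ g := not_dvd_of_lt' hg0 (by
    have := Int.le_of_dvd (by omega) hgM
    omega)
  have huh : ¬ (u : ℤ) ∣ h := not_dvd_of_lt' hh0 (by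
    have := Int.le_of_dvd (by omega) hhM
    omega)
  have hwg : ¬ (w : ℤ) ∣ g := not_dvd_of_lt' hg0 (by
    have := Int.le_of_dvd (by omega) hgM
    omega)
  have hwh : ¬ (w : ℤ) ∣ h := not_dvd_of_lt' hh0 (by
    have := Int.le_of_dvd (by omega) hhM
    omega)
  have huw' : ¬ (u : ℤ) ∣ w := fun h' => huw ((Nat.prime_dvd_prime_iff_eq hu hw).1
    (by exact_mod_cast h'))
  have hwu' : ¬ (w : ℤ) ∣ u := fun h' => huw ((Nat.prime_dvd_prime_iff_eq hw hu).1
    (by exact_mod_cast h')).symm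
  have hus : ¬ (u : ℤ) ∣ s := fun h' => by
    have h1 : (u : ℤ) ∣ h * w := by
      have h2 := (h'.mul_left 2).add (Dvd.intro_left (g : ℤ) rfl)
      rw [h2s] at h2
      simpa using h2
    rcases hpu.dvd_or_dvd h1 with h3 | h3
    · exact huh h3
    · exact huw' h3
  have hws : ¬ (w : ℤ) ∣ s := fun h' => by
    have h1 : (w : ℤ) ∣ g * u := by
      have h2 := (Dvd.intro_left (h : ℤ) rfl : (w : ℤ) ∣ h * w).sub (h'.mul_left 2)
      rw [h2s] at h2
      simpa using h2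
    rcases hpw.dvd_or_dvd h1 with h3 | h3
    · exact hwg h3
    · exact hwu' h3
  have hcop : IsCoprime s t := by
    refine cop_of _ _ fun p hpr h1 h2 => ?_
    have hpp : Prime (p : ℤ) := Nat.prime_iff_prime_int.1 hpr
    have h3 : (p : ℤ) ∣ g * u := by
      have := h2.sub h1
      rw [hs] at this
      simpa using this
    have hpM : (p : ℤ) ∣ M → False := by
      intro h5
      have h6 : (p : ℤ) ∣ s₁ := by
        have := h1.sub (h5.trans hMs)
        simpa using this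
      refine hcl p hpr h5 h6 ?_
      have := h2.sub (h5.trans hMt)
      simpa using this
    rcases hpp.dvd_or_dvd h3 with h4 | h4
    · rcases hpp.dvd_or_dvd (h4.trans hgM) with h5 | h5
      · exact hpM (h5.trans h2M)
      · exact hpM h5
    · have h5 : p ∣ u := by exact_mod_cast h4
      rw [(Nat.prime_dvd_prime_iff_eq hpr hu).1 h5] at h1
      exact hus h1
  refine ⟨s, t, ⟨hMs, hMt, hs0, hcop, ?_, ?_, ?_⟩, ⟨hu, ?_, ?_, hus⟩, ⟨hw, ?_, ?_, hws⟩⟩
  · have h1 : 2 * (x * s) < 2 * t := by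
      have h3 : 2 * (x * s) = x * (2 * s) := by ring
      rw [h3, h2sR, h2tR]
      nlinarith
    linarith
  · have h1 : 2 * t < 2 * (y * s) := by
      have h3 : 2 * (y * s) = y * (2 * s) := by ring
      rw [h3, h2sR, h2tR]
      nlinarith
    linarith
  · linarith
  · exact (exact_once hu (m := m) g s t (by rw [hs]; ring) hug
      (fun h' => by have := Nat.le_of_dvd (by omega) h'; omega) hus).1
  · exact (exact_once hu (m := m) g s t (by rw [hs]; ring) hug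
      (fun h' => by have := Nat.le_of_dvd (by omega) h'; omega) hus).2
  all_goals
    have hex := exact_once hw (m := m) h (-s) t (by
        have h3 : 2 * (t - -s) = 2 * (h * w) := by linear_combination h2t + h2s
        exact mul_left_cancel₀ two_ne_zero h3) hwh
      (fun h' => by have := Nat.le_of_dvd (by omega) h'; omega) (fun h' => hws (by
        have := h'.neg_right
        simpa using this))
    rw [hev.neg_pow] at hex
  · exact hex.1
  · exact hex.2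

end Pool.Agent.J4H71.CF
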