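import Pool.Agent.W289.CG.Stm
import Pool.Agent.N53.CL.Fields
import Pool.Agent.N855.SG.Exc

/-!
# The fields which are counted
-/

set_option autoImplicit false

namespace Pool.Agent.J4H71.CF

open NumberField Pool.Agent.W289.CG

/-- The number fields of degree `n` and signature `(r₁, r₂)` whose class group contains
`(ℤ/m)^(r₂ + κ)` and `(ℤ/n)^R`, in which every prime of `S` splits completely and every prime of `T`
is totally ramified. -/
structure Good (n r₁ r₂ κ m R : ℕ) (S T : Finset ℕ) (K : Type) [Field K] [NumberField K] :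
    Prop where
  deg : Module.finrank ℚ K = n
  real : InfinitePlace.nrRealPlaces K = r₁
  cplx : InfinitePlace.nrComplexPlaces K = r₂
  clm : ∃ f : Multiplicative (Fin (r₂ + κ) → ZMod m) →* ClassGroup (𝓞 K), Function.Injective f
  cln : ∃ f : Multiplicative (Fin R → ZMod n) →* ClassGroup (𝓞 K), Function.Injective f
  spl : ∀ p ∈ S, ∃ P : Fin n → Ideal (𝓞 K), Function.Injective P ∧ (∀ i, (P i).IsPrime) ∧
    ∏ i, P i = Ideal.span {(p : 𝓞 K)}
  ram : ∀ q ∈ T, ∃ P : Ideal (𝓞 K), P.IsPrime ∧ P ^ n = Ideal.span {(q : 𝓞 K)}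

/-- `d` is the discriminant of such a field -/
def IsDisc (n r₁ r₂ κ m R : ℕ) (S T : Finset ℕ) (d : ℤ) : Prop :=
  ∃ (K : Type) (_ : Field K) (_ : NumberField K), Good n r₁ r₂ κ m R S T K ∧ discr K = d

/-- the data exist, with at least `κ` values -/
def HD (n r₁ κ : ℕ) : Prop :=
  ∃ (k : ℕ) (_ : κ ≤ k) (_ : 1 ≤ k) (D : Dat n k) (v₁ v₂ : ℝ), 0 < v₁ ∧ v₁ < v₂ ∧
    ∀ v, v₁ < v → v < v₂ → {X : ℝ | ∏ i, (X - (D.a i : ℝ)) = - v}.ncard = r₁

/-- The excess `κ` of the `m`-rank over `r₂`: `1` for `n = 2`, and for `n ≥ 3` the maximum of `2`, of the number `excess n r₁` of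
the starting result `SignaturesToThirty` if `4 ≤ n ≤ 30`, and of the number `kap n` of the starting result
`PrescribedLocalBehaviour` if `r₁ ≤ 1` or `r₂ = 0` (both numbers are at least `2`). -/
def exc (n r₁ r₂ : ℕ) : ℕ :=
  if n = 2 then 1 else
    max (if 4 ≤ n ∧ n ≤ 30 then N855.SG.excess n r₁ else 2)
      (if r₁ ≤ 1 ∨ r₂ = 0 then N53.CL.kap n else 2)

end Pool.Agent.J4H71.CF
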