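import Pool.Agent.J4H71.CF.Pre
import Pool.Agent.J4H71.CF.Stm

/-!
# The discriminants for all pairs `(s, t)` in a residue class and a sector
-/

set_option autoImplicit false

namespace Pool.Agent.J4H71.CF

open NumberField Pool.Agent.W289.CG Pool.Agent.N53.CL nonZeroDivisors

/-- the values of the discriminant at the pairs `(s, t)` -/
def Vals (Q : ℤ → Prop) (m N : ℕ) (M s₁ t₁ : ℤ) (x y C₁ : ℝ) (Z : ℕ) : Prop :=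
  ∀ s t : ℤ, M ∣ s - s₁ → M ∣ t - t₁ → 0 < s → IsCoprime s t → x * s < t →
      (t : ℝ) < y * s → ∃ d : ℤ, Q d ∧ d ≠ 0 ∧ |(d : ℝ)| ≤ C₁ * (t : ℝ) ^ N ∧
        ∀ q : ℕ, Z < q → Ex m s t q → (q : ℤ) ∣ d

theorem vals_of_data {n κ r₁ r₂ : ℕ} (hn : 2 ≤ n) (hr : r₁ + 2 * r₂ = n)
    (h : HD n r₁ κ) : ∃ Z₀ : ℕ, 0 < Z₀ ∧ ∀ m R : ℕ, 2 ≤ m → ∀ S T : Finset ℕ,
      (∀ p ∈ S, p.Prime ∧ ¬ p ∣ Z₀) → (∀ q ∈ T, q.Prime ∧ ¬ q ∣ Z₀ ∧ ¬ q ∣ m) → Disjoint S T →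
    ∃ (M s₁ t₁ : ℤ) (x y C₁ : ℝ) (Z : ℕ), 0 < M ∧ Cls M s₁ t₁ ∧ 1 < x ∧ x < y ∧ 0 < C₁ ∧
      Vals (IsDisc n r₁ r₂ κ m R S T) m (2 * m * (n - 1)) M s₁ t₁ x y C₁ Z := by
  obtain ⟨k, hκ, hk, D, v₁, v₂, h₁, h₁₂, hcount⟩ := h
  have hZ0 : D.c * |D.bad| ≠ 0 := (mul_pos D.hc (abs_pos.2 (bad_ne D))).ne'
  refine ⟨(D.c * |D.bad|).natAbs, Int.natAbs_pos.2 hZ0, fun m R hm S T hS₀ hT₀ hST => ?_⟩
  have hS : ∀ p ∈ S, p.Prime ∧ ¬ (p : ℤ) ∣ D.c * |D.bad| :=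
    fun p hp => ⟨(hS₀ p hp).1, fun h => (hS₀ p hp).2 (Int.natCast_dvd.1 h)⟩
  have hT : ∀ q ∈ T, q.Prime ∧ ¬ (q : ℤ) ∣ D.c * |D.bad| :=
    fun q hq => ⟨(hT₀ q hq).1, fun h => (hT₀ q hq).2.1 (Int.natCast_dvd.1 h)⟩
  obtain ⟨S', T', hSS, hTT, hS', hT', hST', hTm', hpost⟩ :=
    both_pre hn D m R hm S T hS hT hST (fun q hq => (hT₀ q hq).2.2)
  obtain ⟨M, s₁, t₁, hM, hcl, hcore⟩ := core_all hn hk D m hm S' T' hS' hT' hST' hTm'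
  have hcR : (0 : ℝ) < D.c := by exact_mod_cast D.hc
  have h₂ : 0 < v₂ := h₁.trans h₁₂
  have hm0 : m ≠ 0 := by omega
  have hmR : (0 : ℝ) < (m : ℝ)⁻¹ := by positivity
  set x : ℝ := (1 + D.c / v₂) ^ ((m : ℝ)⁻¹) with hx
  set y : ℝ := (1 + D.c / v₁) ^ ((m : ℝ)⁻¹) with hy
  have hx0 : 0 ≤ 1 + D.c / v₂ := by positivity
  have hy0 : 0 ≤ 1 + D.c / v₁ := by positivity
  have hxm : x ^ m = 1 + D.c / v₂ := Real.rpow_inv_natCast_pow hx0 hm0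
  have hym : y ^ m = 1 + D.c / v₁ := Real.rpow_inv_natCast_pow hy0 hm0
  have hx1 : 1 < x := Real.one_lt_rpow (by
    have : 0 < D.c / v₂ := div_pos hcR h₂
    linarith) hmR
  have hxy : x < y := Real.rpow_lt_rpow hx0 (by
    have : D.c / v₂ < D.c / v₁ := div_lt_div_of_pos_left hcR h₁ h₁₂
    linarith) hmR
  refine ⟨M, s₁, t₁, x, y, cst D.a v₂, D.c.natAbs, hM, hcl, hx1, hxy, cst_pos _ _ h₂.le,
    fun s t hs ht hs0 hst hxs hys => ?_⟩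
  have hsR : (0 : ℝ) < s := by exact_mod_cast hs0
  have htR : (s : ℝ) < t := by nlinarith
  obtain ⟨K, hK1, hK2, hfr, hreal, hspl, hram, hcl', hdisc, hex⟩ :=
    hcore s t hs ht hs0 (by exact_mod_cast htR) hst
  have hsm : (0 : ℝ) < (s : ℝ) ^ m := by positivity
  have h3 : (1 + D.c / v₂) * (s : ℝ) ^ m < (t : ℝ) ^ m := by
    rw [← hxm, ← mul_pow]
    exact pow_lt_pow_left₀ hxs (by positivity) hm0
  have h4 : (t : ℝ) ^ m < (1 + D.c / v₁) * (s : ℝ) ^ m := by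
    rw [← hym, ← mul_pow]
    exact pow_lt_pow_left₀ hys (by linarith) hm0
  have h5 : 0 < (t : ℝ) ^ m - (s : ℝ) ^ m := by
    have h6 : 0 < D.c / v₂ * (s : ℝ) ^ m := by positivity
    nlinarith
  have hlt₁ : v₁ * ((t : ℝ) ^ m - (s : ℝ) ^ m) < (s : ℝ) ^ m * D.c := by
    have h6 : (t : ℝ) ^ m - (s : ℝ) ^ m < D.c / v₁ * (s : ℝ) ^ m := by nlinarith
    have h7 : v₁ * ((t : ℝ) ^ m - (s : ℝ) ^ m) < v₁ * (D.c / v₁ * (s : ℝ) ^ m) :=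
      mul_lt_mul_of_pos_left h6 h₁
    have h8 : v₁ * (D.c / v₁ * (s : ℝ) ^ m) = (s : ℝ) ^ m * D.c := by
      field_simp
    linarith
  have hlt₂ : (s : ℝ) ^ m * D.c < v₂ * ((t : ℝ) ^ m - (s : ℝ) ^ m) := by
    have h6 : D.c / v₂ * (s : ℝ) ^ m < (t : ℝ) ^ m - (s : ℝ) ^ m := by nlinarith
    have h7 : v₂ * (D.c / v₂ * (s : ℝ) ^ m) < v₂ * ((t : ℝ) ^ m - (s : ℝ) ^ m) :=
      mul_lt_mul_of_pos_left h6 h₂
    have h8 : v₂ * (D.c / v₂ * (s : ℝ) ^ m) = (s : ℝ) ^ m * D.c := by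
      field_simp
    linarith
  have hreal' : InfinitePlace.nrRealPlaces K = r₁ := by
    rw [hreal]
    apply hcount
    · rw [lt_div_iff₀ h5]
      exact hlt₁
    · rw [div_lt_iff₀ h5]
      exact hlt₂
  have h8 := InfinitePlace.card_add_two_mul_card_eq_rank K
  have h7 := rank_eq K
  refine ⟨discr K, ⟨K, hK1, hK2, ⟨hfr, hreal', by omega, hcl' (r₂ + κ) (by omega),
    hpost K hfr hspl hram, fun p hp => (hspl p (hSS hp)).1, fun q hq => hram q (hTT hq)⟩, rfl⟩,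
    discr_ne_zero K, hdisc v₂ h₂.le hlt₂.le, hex⟩

end Pool.Agent.J4H71.CF
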