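import Pool.Agent.J4H71.CF.Many

/-!
# The number of the discriminants, without a loss
-/

set_option autoImplicit false

namespace Pool.Agent.J4H71.CF

open Finset Filter Topology

/-- larger moduli -/
theorem ext_cls (q : ℕ) : q ≠ 0 → ∀ M s₁ t₁ : ℤ, Cls M s₁ t₁ →
    ∃ s₂ : ℤ, M ∣ s₂ - s₁ ∧ Cls (M * q) s₂ t₁ := by
  induction q using Nat.recOnMul with
  | zero => intro h; exact absurd rfl h
  | one =>
    intro _ M s₁ t₁ hcl
    exact ⟨s₁, by simp, by simpa using hcl⟩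
  | prime q hq =>
    intro _ M s₁ t₁ hcl
    by_cases h2 : (q : ℤ) ∣ M
    · refine ⟨s₁, by simp, fun p hp h => ?_⟩
      have hpp : Prime (p : ℤ) := Nat.prime_iff_prime_int.1 hp
      rcases hpp.dvd_or_dvd h with h | h
      · exact hcl p hp h
      · exact hcl p hp (h.trans h2)
    · obtain ⟨s₂, h3, h4⟩ : ∃ s₂ : ℤ, M ∣ s₂ - s₁ ∧ ¬ (q : ℤ) ∣ s₂ := by
        by_cases h : (q : ℤ) ∣ s₁
        · refine ⟨s₁ + M, by simp, fun h' => h2 ?_⟩
          have := h'.sub h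
          simpa using this
        · exact ⟨s₁, by simp, h⟩
      refine ⟨s₂, h3, fun p hp h h5 => ?_⟩
      have hpp : Prime (p : ℤ) := Nat.prime_iff_prime_int.1 hp
      rcases hpp.dvd_or_dvd h with h | h
      · refine hcl p hp h ?_
        have := h5.sub (h.trans h3)
        simpa using this
      · have h6 : p ∣ q := by exact_mod_cast h
        have h7 := (Nat.prime_dvd_prime_iff_eq hp hq).1 h6
        rw [h7] at h5
        exact absurd h5 h4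
  | mul a b ha hb =>
    intro hab M s₁ t₁ hcl
    obtain ⟨s₂, h1, h2⟩ := ha (left_ne_zero_of_mul hab) M s₁ t₁ hcl
    obtain ⟨s₃, h3, h4⟩ := hb (right_ne_zero_of_mul hab) _ s₂ t₁ h2
    refine ⟨s₃, ?_, ?_⟩
    · have := ((Dvd.intro _ rfl : M ∣ M * a).trans h3).add h1
      simpa using this
    · push_cast
      rwa [← mul_assoc]

/-- **counting the discriminants, `m ≥ 3`** -/
theorem count_big (Q : ℤ → Prop) (m N : ℕ) (hm : 3 ≤ m) (hN : 1 ≤ N) (M s₁ t₁ : ℤ) (hM : 0 < M)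
    (hcl : Cls M s₁ t₁) (x y : ℝ) (hx : 1 < x) (hxy : x < y) (C₁ : ℝ) (hC₁ : 0 < C₁) (Z : ℕ)
    (hcore : ∀ s t : ℤ, M ∣ s - s₁ → M ∣ t - t₁ → 0 < s → IsCoprime s t → x * s < t →
      (t : ℝ) < y * s → ∃ d : ℤ, Q d ∧ d ≠ 0 ∧ |(d : ℝ)| ≤ C₁ * (t : ℝ) ^ N ∧
        ∀ q : ℕ, Z < q → Ex m s t q → (q : ℤ) ∣ d) :
    ∃ c : ℝ, 0 < c ∧ ∃ X₀ : ℝ, ∀ X : ℝ, X₀ ≤ X →
      c * X ^ ((2 : ℝ) / N) ≤ ({d : ℤ | |(d : ℝ)| ≤ X ∧ Q d}.ncard : ℝ) := by
  classical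
  set K := (32 * m ^ 2).factorial with hK
  obtain ⟨s₂, hs₂, hcl₂⟩ := ext_cls K (Nat.factorial_ne_zero _) M s₁ t₁ hcl
  set M' : ℤ := M * K with hM'
  have hM'0 : 0 < M' := mul_pos hM (by exact_mod_cast Nat.factorial_pos _)
  have hMM' : M ∣ M' := Dvd.intro _ rfl
  have hMy : ∀ p : ℕ, p.Prime → p ≤ 32 * m ^ 2 → (p : ℤ) ∣ M' := by
    intro p hp hle
    have h1 : p ∣ K := (Nat.Prime.dvd_factorial hp).2 hle
    have h2 : (p : ℤ) ∣ (K : ℤ) := by exact_mod_cast h1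
    exact h2.mul_left _
  -- the box
  set z : ℝ := (x + y) / 2 with hz
  have hxz : x < z := by rw [hz]; linarith
  have hzy : z < y := by rw [hz]; linarith
  have hx0 : 0 < x := by linarith
  have hz0 : 0 < z := by linarith
  obtain ⟨lam, hlam, hl1, hl2⟩ : ∃ lam : ℝ, 1 < lam ∧ lam * x < z ∧ lam * z < y := by
    have h1 : 1 < z / x := (one_lt_div hx0).2 hxz
    have h2 : 1 < y / z := (one_lt_div hz0).2 hzy
    obtain ⟨lam, h3, h4⟩ := exists_between (lt_min h1 h2)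
    rw [lt_min_iff, lt_div_iff₀ hx0, lt_div_iff₀ hz0] at h4
    exact ⟨lam, h3, h4.1, h4.2⟩
  have hlamz : lam < z := by nlinarith
  obtain ⟨c, hc, V₀, hV₀⟩ := many m hm M' s₂ t₁ hM'0 hcl₂ hMy lam z hlam hlamz
  set C₂ : ℝ := C₁ * (lam * z) ^ N with hC₂
  have hlz0 : 0 < lam * z := by positivity
  have hC₂0 : 0 < C₂ := by positivity
  have hN0 : (0 : ℝ) < N := by exact_mod_cast hN
  have hm0 : (0 : ℝ) < m := by
    have : 0 < m := by omega
    exact_mod_cast this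
  set W : ℝ := max (max V₀ 1) (max (Z + 1) (C₂ + 1)) with hW
  have hW0 : 0 < W := lt_of_lt_of_le one_pos ((le_max_right _ _).trans (le_max_left _ _))
  set κ : ℝ := (C₂⁻¹) ^ ((2 : ℝ) / N) with hκ
  have hκ0 : 0 < κ := Real.rpow_pos_of_pos (inv_pos.2 hC₂0) _
  refine ⟨c * κ / 2 ^ (m * (6 * m * N)), by positivity, C₂ * (W ^ (6 * m)) ^ N,
    fun X hX => ?_⟩
  have hX0 : 0 < X := lt_of_lt_of_le (by positivity) hX
  have hXC : 0 < X / C₂ := div_pos hX0 hC₂0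
  set U : ℝ := (X / C₂) ^ ((1 : ℝ) / N) with hU
  have hU0 : 0 < U := Real.rpow_pos_of_pos hXC _
  have hUN : U ^ N = X / C₂ := by
    rw [hU, one_div]
    exact Real.rpow_inv_natCast_pow hXC.le (by omega)
  set V : ℝ := U ^ ((1 : ℝ) / ((6 * m : ℕ) : ℝ)) with hV
  have hVU : V ^ (6 * m) = U := by
    rw [hV, one_div]
    exact Real.rpow_inv_natCast_pow hU0.le (by omega)
  have hWV : W ≤ V := by
    have h1 : (W ^ (6 * m)) ^ N ≤ U ^ N := by
      rw [hUN, le_div_iff₀ hC₂0]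
      linarith
    have h2 : W ^ (6 * m) ≤ V ^ (6 * m) := by
      rw [hVU]
      exact le_of_pow_le_pow_left₀ (by omega) hU0.le h1
    exact le_of_pow_le_pow_left₀ (by omega) (Real.rpow_nonneg hU0.le _) h2
  have hWV' := hWV
  rw [hW, max_le_iff, max_le_iff, max_le_iff] at hWV'
  obtain ⟨⟨hV1, hV2⟩, hV3, hV4⟩ := hWV'
  have hU1 : 1 ≤ U := by
    rw [← hVU]
    exact one_le_pow₀ hV2
  obtain ⟨G, hG1, hG2⟩ := hV₀ V hV1
  rw [hVU] at hG1
  have hd : ∀ w ∈ G, ∃ d : ℤ, Q d ∧ d ≠ 0 ∧ |(d : ℝ)| ≤ X ∧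
      ∀ p ∈ Pe V (V ^ (6 * m + 5)) m w, (p : ℤ) ∣ d := by
    intro w hw
    obtain ⟨h1, h2, -⟩ := hG2 w hw
    rw [hVU, mem_ST] at h1
    obtain ⟨⟨a1, a2, a3⟩, b1, b2, b3⟩ := h1
    have hw0 : (0 : ℝ) < w.1 := by linarith
    have e1 : x * (w.1 : ℝ) < w.2 := by
      calc x * (w.1 : ℝ) ≤ x * (lam * U) := mul_le_mul_of_nonneg_left a2 hx0.le
        _ = lam * x * U := by ring
        _ < z * U := mul_lt_mul_of_pos_right hl1 hU0
        _ < w.2 := b1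
    have e2 : (w.2 : ℝ) < y * w.1 := by
      calc (w.2 : ℝ) ≤ lam * z * U := b2
        _ < y * U := mul_lt_mul_of_pos_right hl2 hU0
        _ < y * w.1 := mul_lt_mul_of_pos_left a1 (by linarith)
    have e3 : M ∣ w.1 - s₁ := by
      have := (hMM'.trans a3.symm.dvd).add hs₂
      simpa using this
    have e4 : M ∣ w.2 - t₁ := hMM'.trans b3.symm.dvd
    obtain ⟨d, f1, f2, f3, f4⟩ := hcore w.1 w.2 e3 e4 (by exact_mod_cast hw0) h2 e1 e2
    refine ⟨d, f1, f2, f3.trans ?_, fun p hp => f4 p ?_ ?_⟩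
    · have ht0 : (0 : ℝ) ≤ w.2 := by nlinarith
      calc C₁ * (w.2 : ℝ) ^ N ≤ C₁ * (lam * z * U) ^ N :=
            mul_le_mul_of_nonneg_left (pow_le_pow_left₀ ht0 b2 N) hC₁.le
        _ = C₂ * U ^ N := by rw [hC₂]; ring
        _ = X := by rw [hUN]; field_simp
    · have hp' := mem_Pf.1 (mem_Pe.1 hp).1
      have h3 := (Nat.floor_lt (by linarith)).1 (mem_Ioc.1 hp'.1).1
      have h4 : (Z : ℝ) < p := by linarith
      exact_mod_cast h4
    · have hp' := mem_Pf.1 (mem_Pe.1 hp).1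
      exact ⟨hp'.2.1, hp'.2.2.2, (mem_Pe.1 hp).2, hp'.2.2.1⟩
  choose! d hd using hd
  have hmult := mult_le V (V ^ (6 * m + 5)) U lam z hV2 hU1 hlam hlamz M' s₂ t₁ m (by omega) G
    (fun w hw => by
      have := hG2 w hw
      rw [hVU] at this
      exact this) d X (6 * m * N) (fun w hw => (hd w hw).2.1) (fun w hw => (hd w hw).2.2.1)
    (fun w hw => (hd w hw).2.2.2) (by
      have h1 : X = C₂ * (V ^ (6 * m)) ^ N := by
        rw [hVU, hUN]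
        field_simp
      rw [h1, pow_succ, ← pow_mul, mul_comm]
      exact mul_lt_mul_of_pos_left (by linarith) (by positivity))
  have hfin : {d : ℤ | |(d : ℝ)| ≤ X ∧ Q d}.Finite := by
    refine (Set.finite_Icc (-⌊X⌋) ⌊X⌋).subset fun d hd => ?_
    obtain ⟨h1, -⟩ := hd
    rw [abs_le] at h1
    have h2 : d ≤ ⌊X⌋ := Int.le_floor.2 h1.2
    have h3 : -d ≤ ⌊X⌋ := Int.le_floor.2 (by push_cast; linarith)
    exact ⟨by omega, h2⟩
  have hsub : ((G.image d : Finset ℤ) : Set ℤ) ⊆ {d : ℤ | |(d : ℝ)| ≤ X ∧ Q d} := by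
    intro b hb
    obtain ⟨w, hw, rfl⟩ := mem_image.1 (mem_coe.1 hb)
    exact ⟨(hd w hw).2.2.1, (hd w hw).1⟩
  have h1 : (G.image d).card ≤ {d : ℤ | |(d : ℝ)| ≤ X ∧ Q d}.ncard := by
    rw [← Set.ncard_coe_finset]
    exact Set.ncard_le_ncard hsub hfin
  have h2 : (G.card : ℝ) ≤ 2 ^ (m * (6 * m * N)) * ((G.image d).card : ℝ) := by
    exact_mod_cast hmult
  have h3 : ((G.image d).card : ℝ) ≤ ({d : ℤ | |(d : ℝ)| ≤ X ∧ Q d}.ncard : ℝ) := by
    exact_mod_cast h1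
  refine le_trans ?_ h3
  rw [div_mul_eq_mul_div, div_le_iff₀ (by positivity)]
  have h4 : U ^ 2 = κ * X ^ ((2 : ℝ) / N) := by
    rw [hU, hκ, ← Real.rpow_natCast, ← Real.rpow_mul hXC.le, ← Real.mul_rpow
      (inv_pos.2 hC₂0).le hX0.le, mul_comm C₂⁻¹ X, ← div_eq_mul_inv]
    congr 1
    push_cast
    ring
  calc c * κ * X ^ ((2 : ℝ) / N) = c * U ^ 2 := by rw [h4]; ring
    _ ≤ G.card := hG1
    _ ≤ _ := by linarith

end Pool.Agent.J4H71.CF
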