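import Mathlib

/-!
# Counting in residue classes
-/

set_option autoImplicit false

namespace Pool.Agent.J4H71.CF

open Finset

/-- the integers of the class `v` modulo `r` in `(α, β]` -/
noncomputable def cl (α β : ℝ) (r v : ℤ) : Finset ℤ :=
  (Ioc ⌊α⌋ ⌊β⌋).filter (fun x => x ≡ v [ZMOD r])

theorem mem_cl {α β : ℝ} {r v x : ℤ} : x ∈ cl α β r v ↔ α < x ∧ (x : ℝ) ≤ β ∧ x ≡ v [ZMOD r] := by
  classical
  rw [cl, mem_filter, mem_Ioc, Int.floor_lt, Int.le_floor]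
  tauto

theorem card_cl_aux (α β : ℝ) (r v : ℤ) (hr : 0 < r) :
    ((cl α β r v).card : ℤ) = max (⌊((⌊β⌋ : ℚ) - v) / (r : ℚ)⌋ - ⌊((⌊α⌋ : ℚ) - v) / (r : ℚ)⌋) 0 := by
  classical
  rw [cl, ← Int.Ioc_filter_modEq_card _ _ hr v]

theorem cl_lower (α β : ℝ) (r v : ℤ) (hr : 0 < r) :
    (β - α) / r - 2 ≤ ((cl α β r v).card : ℝ) := by
  have h := card_cl_aux α β r v hr
  have hrR : (0 : ℝ) < r := by exact_mod_cast hr
  have hr1 : (1 : ℝ) ≤ r := by exact_mod_cast hr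
  have h1 : ⌊((⌊β⌋ : ℚ) - v) / (r : ℚ)⌋ - ⌊((⌊α⌋ : ℚ) - v) / (r : ℚ)⌋ ≤ ((cl α β r v).card : ℤ) := by
    rw [h]
    exact le_max_left _ _
  have h2 : ((⌊β⌋ : ℚ) - v) / (r : ℚ) < ⌊((⌊β⌋ : ℚ) - v) / (r : ℚ)⌋ + 1 := Int.lt_floor_add_one _
  have h3 : (⌊((⌊α⌋ : ℚ) - v) / (r : ℚ)⌋ : ℚ) ≤ ((⌊α⌋ : ℚ) - v) / (r : ℚ) := Int.floor_le _
  have h4 : ((⌊β⌋ : ℚ) - v) / (r : ℚ) - 1 - ((⌊α⌋ : ℚ) - v) / (r : ℚ) < ((cl α β r v).card : ℚ) := by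
    have : ((⌊((⌊β⌋ : ℚ) - v) / (r : ℚ)⌋ - ⌊((⌊α⌋ : ℚ) - v) / (r : ℚ)⌋ : ℤ) : ℚ) ≤
        ((cl α β r v).card : ℚ) := by exact_mod_cast h1
    push_cast at this
    linarith
  have h5 : ((⌊β⌋ : ℝ) - v) / r - 1 - ((⌊α⌋ : ℝ) - v) / r < ((cl α β r v).card : ℝ) := by
    exact_mod_cast h4
  have h6 : β - 1 < ⌊β⌋ := Int.sub_one_lt_floor β
  have h7 : (⌊α⌋ : ℝ) ≤ α := Int.floor_le α
  have h8 : (β - α) / r - 1 ≤ ((⌊β⌋ : ℝ) - v) / r - ((⌊α⌋ : ℝ) - v) / r := by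
    rw [← sub_div]
    have : (β - α) / r - 1 / r ≤ ((⌊β⌋ : ℝ) - v - (⌊α⌋ - v)) / r := by
      rw [← sub_div]
      exact div_le_div_of_nonneg_right (by linarith) hrR.le
    have h9 : 1 / (r : ℝ) ≤ 1 := by rw [div_le_one hrR]; exact hr1
    linarith
  linarith

theorem cl_upper (α β : ℝ) (hαβ : α ≤ β) (r v : ℤ) (hr : 0 < r) :
    ((cl α β r v).card : ℝ) ≤ (β - α) / r + 2 := by
  have h := card_cl_aux α β r v hr
  have hrR : (0 : ℝ) < r := by exact_mod_cast hr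
  have hr1 : (1 : ℝ) ≤ r := by exact_mod_cast hr
  have h2 : (⌊((⌊β⌋ : ℚ) - v) / (r : ℚ)⌋ : ℚ) ≤ ((⌊β⌋ : ℚ) - v) / (r : ℚ) := Int.floor_le _
  have h3 : ((⌊α⌋ : ℚ) - v) / (r : ℚ) < ⌊((⌊α⌋ : ℚ) - v) / (r : ℚ)⌋ + 1 := Int.lt_floor_add_one _
  have h0 : 0 ≤ (β - α) / r := div_nonneg (by linarith) hrR.le
  rcases max_choice (⌊((⌊β⌋ : ℚ) - v) / (r : ℚ)⌋ - ⌊((⌊α⌋ : ℚ) - v) / (r : ℚ)⌋) 0 with h1 | h1
  · rw [h1] at h
    have h4 : ((cl α β r v).card : ℚ) < ((⌊β⌋ : ℚ) - v) / (r : ℚ) + 1 - ((⌊α⌋ : ℚ) - v) / (r : ℚ) := by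
      have : ((cl α β r v).card : ℚ) =
          ((⌊((⌊β⌋ : ℚ) - v) / (r : ℚ)⌋ - ⌊((⌊α⌋ : ℚ) - v) / (r : ℚ)⌋ : ℤ) : ℚ) := by
        exact_mod_cast h
      rw [this]
      push_cast
      linarith
    have h5 : ((cl α β r v).card : ℝ) < ((⌊β⌋ : ℝ) - v) / r + 1 - ((⌊α⌋ : ℝ) - v) / r := by
      exact_mod_cast h4
    have h6 : (⌊β⌋ : ℝ) ≤ β := Int.floor_le β
    have h7 : α - 1 < ⌊α⌋ := Int.sub_one_lt_floor α
    have h8 : ((⌊β⌋ : ℝ) - v) / r - ((⌊α⌋ : ℝ) - v) / r ≤ (β - α) / r + 1 := by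
      rw [← sub_div]
      have : ((⌊β⌋ : ℝ) - v - (⌊α⌋ - v)) / r ≤ (β - α) / r + 1 / r := by
        rw [← add_div]
        exact div_le_div_of_nonneg_right (by linarith) hrR.le
      have h9 : 1 / (r : ℝ) ≤ 1 := by rw [div_le_one hrR]; exact hr1
      linarith
    linarith
  · rw [h1] at h
    have h4 : ((cl α β r v).card : ℝ) = 0 := by exact_mod_cast h
    rw [h4]
    linarith

/-- two coprime congruences are one congruence -/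
theorem exists_crt {M p : ℤ} (h : IsCoprime M p) (v w : ℤ) :
    ∃ u : ℤ, ∀ x : ℤ, x ≡ u [ZMOD (M * p)] → x ≡ v [ZMOD M] ∧ x ≡ w [ZMOD p] := by
  obtain ⟨a, b, hab⟩ := h
  refine ⟨v * (b * p) + w * (a * M), fun x hx => ⟨?_, ?_⟩⟩
  · have h1 : x ≡ v * (b * p) + w * (a * M) [ZMOD M] := hx.of_mul_right p
    refine h1.trans ((Int.modEq_iff_dvd).2 ⟨v * a - w * a, by linear_combination (-v) * hab⟩)
  · have h1 : x ≡ v * (b * p) + w * (a * M) [ZMOD p] := hx.of_mul_left M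
    refine h1.trans ((Int.modEq_iff_dvd).2 ⟨w * b - v * b, by linear_combination (-w) * hab⟩)

/-- the elements of a class in a second class -/
theorem cl_crt_lower (α β : ℝ) (M p v w : ℤ) (hM : 0 < M) (hp : 0 < p) (h : IsCoprime M p) :
    (β - α) / (M * p) - 2 ≤ (((cl α β M v).filter (fun x => x ≡ w [ZMOD p])).card : ℝ) := by
  classical
  obtain ⟨u, hu⟩ := exists_crt h v w
  have h1 := cl_lower α β (M * p) u (mul_pos hM hp)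
  push_cast at h1
  refine h1.trans ?_
  have h2 : cl α β (M * p) u ⊆ (cl α β M v).filter (fun x => x ≡ w [ZMOD p]) := by
    intro x hx
    rw [mem_cl] at hx
    rw [mem_filter, mem_cl]
    exact ⟨⟨hx.1, hx.2.1, (hu x hx.2.2).1⟩, (hu x hx.2.2).2⟩
  exact_mod_cast card_le_card h2

theorem cl_filter_upper (α β : ℝ) (hαβ : α ≤ β) (M p v w : ℤ) (hp : 0 < p) :
    (((cl α β M v).filter (fun x => x ≡ w [ZMOD p])).card : ℝ) ≤ (β - α) / p + 2 := by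
  classical
  refine le_trans ?_ (cl_upper α β hαβ p w hp)
  have h2 : (cl α β M v).filter (fun x => x ≡ w [ZMOD p]) ⊆ cl α β p w := by
    intro x hx
    rw [mem_filter, mem_cl] at hx
    rw [mem_cl]
    exact ⟨hx.1.1, hx.1.2.1, hx.2⟩
  exact_mod_cast card_le_card h2

end Pool.Agent.J4H71.CF
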