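import Pool.Agent.J4H71.CF.Disc
import Pool.Agent.J4H71.CF.Arith
import Pool.Agent.N53.CL.Both

/-!
# The fields for all pairs `(s, t)` in a residue class
-/

set_option autoImplicit false

namespace Pool.Agent.J4H71.CF

open Pool.Agent.W289.CG Pool.Agent.N53.CL Polynomial NumberField nonZeroDivisors

theorem exists_cls (M W s₀ t₀ : ℤ) (hcop : IsCoprime s₀ M) (hMW : IsCoprime M W) :
    ∃ s₁ t₁ : ℤ, Cls (M * W) s₁ t₁ ∧ ∀ s t : ℤ, M * W ∣ s - s₁ → M * W ∣ t - t₁ →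
      M ∣ s - s₀ ∧ M ∣ t - t₀ ∧ W ∣ s ∧ W ∣ t - 1 := by
  obtain ⟨u, v, huv⟩ := hMW
  have h1 : M ∣ s₀ * v * W - s₀ := ⟨-(s₀ * u), by linear_combination s₀ * huv⟩
  have h2 : M ∣ t₀ * v * W + u * M - t₀ :=
    ⟨-(t₀ * u) + u, by linear_combination t₀ * huv⟩
  have h3 : W ∣ s₀ * v * W := Dvd.intro_left _ rfl
  have h4 : W ∣ t₀ * v * W + u * M - 1 := ⟨t₀ * v - v, by linear_combination huv⟩
  refine ⟨s₀ * v * W, t₀ * v * W + u * M, fun p hp hpM hps hpt => ?_, fun s t hs ht => ?_⟩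
  · have hpp : Prime (p : ℤ) := Nat.prime_iff_prime_int.1 hp
    rcases hpp.dvd_or_dvd hpM with h | h
    · have h5 : (p : ℤ) ∣ s₀ := by
        have := hps.sub (h.trans h1)
        simpa using this
      exact hpp.not_isUnit (hcop.isUnit_of_dvd' h5 h)
    · have h5 : (p : ℤ) ∣ 1 := by
        have := hpt.sub (h.trans h4)
        simpa using this
      exact hpp.not_isUnit (isUnit_of_dvd_one h5)
  · refine ⟨?_, ?_, ?_, ?_⟩
    · have := ((Dvd.intro _ rfl : M ∣ M * W).trans hs).add h1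
      simpa using this
    · have := ((Dvd.intro _ rfl : M ∣ M * W).trans ht).add h2
      simpa using this
    · have := ((Dvd.intro_left _ rfl : W ∣ M * W).trans hs).add h3
      simpa using this
    · have := ((Dvd.intro_left _ rfl : W ∣ M * W).trans ht).add h4
      simpa using this

/-- the constant in the bound for the discriminant -/
noncomputable def cst {n : ℕ} (a : Fin n → ℤ) (V : ℝ) : ℝ :=
  ((n.factorial : ℝ) * ((∑ i, |(a i : ℝ)| + V + 1) ^ n) ^ n) ^ 2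

theorem cst_pos {n : ℕ} (a : Fin n → ℤ) (V : ℝ) (hV : 0 ≤ V) : 0 < cst a V := by
  have h1 : (0 : ℝ) < n.factorial := by exact_mod_cast n.factorial_pos
  have h2 : 0 ≤ ∑ i, |(a i : ℝ)| := Finset.sum_nonneg fun _ _ => abs_nonneg _
  have h3 : 0 < ∑ i, |(a i : ℝ)| + V + 1 := by linarith
  rw [cst]
  positivity

theorem core_all {n k : ℕ} (hn : 2 ≤ n) (hk : 1 ≤ k) (D : Dat n k) (m : ℕ) (hm : 2 ≤ m)
    (S T : Finset ℕ) (hS : ∀ p ∈ S, p.Prime ∧ ¬ (p : ℤ) ∣ D.c * |D.bad|)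
    (hT : ∀ q ∈ T, q.Prime ∧ ¬ (q : ℤ) ∣ D.c * |D.bad|) (hST : Disjoint S T)
    (hTm : ∀ q ∈ T, ¬ q ∣ m) :
    ∃ M s₁ t₁ : ℤ, 0 < M ∧ Cls M s₁ t₁ ∧ ∀ s t : ℤ, M ∣ s - s₁ → M ∣ t - t₁ → 0 < s → s < t →
      IsCoprime s t → ∃ (K : Type) (_ : Field K) (_ : NumberField K), Module.finrank ℚ K = n ∧
      InfinitePlace.nrRealPlaces K =
        {X : ℝ | ∏ i, (X - (D.a i : ℝ)) = - ((s : ℝ) ^ m * D.c / ((t : ℝ) ^ m - (s : ℝ) ^ m))}.ncard ∧
      (∀ p ∈ S, (∃ P : Fin n → Ideal (𝓞 K), Function.Injective P ∧ (∀ i, (P i).IsPrime) ∧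
        ∏ i, P i = Ideal.span {(p : 𝓞 K)}) ∧ ∃ _ : Fact p.Prime, Nonempty (K →+* ℚ_[p])) ∧
      (∀ q ∈ T, ∃ P : Ideal (𝓞 K), P.IsPrime ∧ P ^ n = Ideal.span {(q : 𝓞 K)}) ∧
      (∀ R, R + Units.rank K ≤ n + k - 1 →
        ∃ f : Multiplicative (Fin R → ZMod m) →* ClassGroup (𝓞 K), Function.Injective f) ∧
      (∀ V : ℝ, 0 ≤ V → (s : ℝ) ^ m * D.c ≤ V * ((t : ℝ) ^ m - (s : ℝ) ^ m) →
        |((discr K : ℤ) : ℝ)| ≤ cst D.a V * (t : ℝ) ^ (2 * m * (n - 1))) ∧
      ∀ q : ℕ, D.c.natAbs < q → Ex m s t q → (q : ℤ) ∣ discr K := by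
  have hCls := Pool.Agent.W930.CG.cls Pool.Agent.W240.CG.grp Pool.Agent.W125.CG.uni
  have hVal := Pool.Agent.W64.CG.val
  have hLoc := Pool.Agent.W405.CG.loc
  have hEmb := Pool.Agent.W290.CG.emb
  have hMu := Pool.Agent.W349.CG.mu
  have hRed := Pool.Agent.W349.CG.red
  have hIrr := Pool.Agent.W505.CG.irr
  have hDisc := Pool.Agent.W505.CG.disc
  have hPl := Pool.Agent.W240.CG.pl
  obtain ⟨q₀, q₁, M, s₀, t₀, hM, hcop, hMW, hgood⟩ :=
    exists_good' Pool.Agent.W349.CG.WeilT.main Pool.Agent.W505.CG.root D m 0 (by omega) hk hm S T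
      hS hT hST
  have hWpos : (0 : ℤ) < ∏ p ∈ S, (p : ℤ) :=
    Finset.prod_pos fun p hp => by exact_mod_cast (hS p hp).1.pos
  obtain ⟨s₁, t₁, hcl, hst₁⟩ := exists_cls M _ s₀ t₀ hcop hMW
  refine ⟨M * ∏ p ∈ S, (p : ℤ), s₁, t₁, mul_pos hM hWpos, hcl,
    fun s t hs' ht' hs0 hslt hst => ?_⟩
  obtain ⟨hs, ht, hWs, hWt⟩ := hst₁ s t hs' ht'
  obtain ⟨hG, hGT⟩ := hgood s t hs ht
  have hsR : (0 : ℝ) < s := by exact_mod_cast hs0
  obtain ⟨L, hL0, hLc, hcopL, hqL, hqL2, hqs, hsb, htb⟩ := good_arith hG hm hs0 hslt hst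
  have hirr := hIrr n D.a L (s ^ m) q₀ (by omega) hG.hq₀ hqL hqL2 hqs hcopL
  obtain ⟨K, hK1, hK2, θ, hfr, hθ, hgen⟩ := exists_field _ hirr
  rw [natDegree_F (by omega) D.a L _ hL0.ne'] at hfr
  have hθ' := hθ
  rw [eval_F] at hθ'
  have hF : Fld D m s t L K θ := ⟨hLc, by push_cast at hθ'; exact hθ', hgen⟩
  have htn : t ≠ 0 := (hs0.trans hslt).ne'
  have hpt := ne_pt hF hs0.ne' htn
  have hLcR : (L : ℝ) * D.c = (t : ℝ) ^ m - (s : ℝ) ^ m := by
    have : ((L * D.c : ℤ) : ℝ) = ((t ^ m - s ^ m : ℤ) : ℝ) := by rw [hLc]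
    push_cast at this
    exact this
  refine ⟨K, hK1, hK2, hfr, ?_, ?_, ?_, ?_, ?_, ?_⟩
  · rw [hPl K _ θ hirr hθ hgen]
    congr 1
    ext X
    simp only [Set.mem_ofPred_eq]
    rw [eval_F]
    have hL0' : (L : ℝ) ≠ 0 := by exact_mod_cast hL0.ne'
    have hc0 : (D.c : ℝ) ≠ 0 := by exact_mod_cast D.hc.ne'
    rw [← hLcR]
    push_cast
    constructor
    · intro h
      field_simp
      linear_combination h
    · intro h
      rw [h]
      field_simp
      ring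
  · intro p hp
    obtain ⟨hpr, hpZ⟩ := hS p hp
    have hpp : Prime (p : ℤ) := Nat.prime_iff_prime_int.1 hpr
    have hpW : (p : ℤ) ∣ ∏ p ∈ S, (p : ℤ) := Finset.dvd_prod_of_mem _ hp
    refine spl hEmb D m s t L K θ p hpr hfr (by omega) (by omega) hL0.ne' hF
      (fun h => hpZ (h.mul_right _)) (fun h => hpZ (Dvd.dvd.mul_left ((dvd_abs _ _).2 h) _))
      (hpW.trans hWs) ?_
    intro h
    have h1 : (p : ℤ) ∣ 1 := by
      have := h.sub (hpW.trans hWt)
      simpa using this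
    exact hpp.not_isUnit (isUnit_of_dvd_one h1)
  · intro q hq
    obtain ⟨hqr, hqZ⟩ := hT q hq
    obtain ⟨g1, g2⟩ := hGT q hq
    have hqp : Prime (q : ℤ) := Nat.prime_iff_prime_int.1 hqr
    obtain ⟨h1, h2⟩ := exact_power hqr (hTm q hq) g1 g2
    refine ram K n D.a L (s ^ m) q θ (by omega) hfr hqr ?_ ?_ ?_ hθ'
    · rw [← hLc] at h1
      exact (hqp.dvd_or_dvd h1).resolve_right (fun h => hqZ (h.mul_right _))
    · intro h
      exact h2 (by rw [← hLc]; exact h.mul_right _)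
    · intro h
      have h3 := hqp.dvd_of_dvd_pow h
      have h4 : (q : ℤ) ∣ 1 := by
        have := h3.sub g1
        simpa using this
      exact hqp.not_isUnit (isUnit_of_dvd_one h4)
  · intro R hR
    obtain ⟨N', hN'⟩ : ∃ N', n + k = N' + 1 := ⟨n + k - 1, by omega⟩
    let σ : Fin (N' + 1) ≃ Fin n ⊕ Fin k := (finCongr hN'.symm).trans finSumFinEquiv.symm
    refine hCls K N' m R hm (by omega) (elt D σ θ hpt) ?_ ?_ ?_
    · intro i
      refine hVal K m _ (by omega) fun v => ?_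
      exact hLoc n k D m s t L K θ (by omega) (by omega) hL0.ne' hs0.ne' htn hF hst hsb htb _ _ v
    · intro ℓ hℓ hℓm
      exact indep_of_tests hEmb hRed hfr (by omega) hL0.ne' hF hpt σ ℓ hℓ (hG.tests ℓ hℓ hℓm)
    · intro ℓ hℓ hℓm
      have hx1 : Tst D m q₁ s t (D.b ⟨0, hk⟩) := by
        have hp : Prime (q₁ : ℤ) := Nat.prime_iff_prime_int.1 hG.hq₁
        refine ⟨hG.hq₁, hG.hc₁, ?_, ?_, ?_⟩
        · rw [D.hab, sub_self, mul_zero, sub_zero]
          exact Dvd.dvd.mul_right (dvd_pow hG.ht₁ (by omega)) _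
        · intro h
          have h1 : (q₁ : ℤ) ∣ s ^ m := by
            have := (dvd_pow hG.ht₁ (show m ≠ 0 by omega)).sub h
            simpa using this
          have h2 := hp.dvd_of_dvd_pow h1
          have h3 : (q₁ : ℤ) ∣ 1 := by
            have := h2.sub hG.hs₁
            simpa using this
          exact hp.not_isUnit (isUnit_of_dvd_one h3)
        · intro h
          exact hG.hbad (h.trans (dvd_bad D (Sum.inr ⟨0, hk⟩)))
      have hle : ℓ ≤ m := Nat.le_of_dvd (by omega) hℓm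
      have hq1 : q₁ - 1 + 2 = q₁ + 1 := by have := hG.hq4; omega
      refine ⟨fun hℓ2 => ?_, fun hℓ2 => ?_⟩
      · refine no_zeta hEmb hMu hfr (by omega) hL0.ne' hF hG.hq₁ hx1 ?_ ?_
        · intro h
          have := Nat.le_of_dvd hℓ.pos h
          have := hG.hqm'
          omega
        · intro h
          have h1 : ℓ ∣ q₁ + 1 := (hℓm.trans (Dvd.intro_left _ rfl)).trans hG.hqm
          rw [← hq1] at h1
          have h2 : ℓ ∣ 2 := (Nat.dvd_add_right h).1 h1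
          exact hℓ2 ((Nat.prime_dvd_prime_iff_eq hℓ Nat.prime_two).1 h2)
      · refine no_zeta hEmb hMu hfr (by omega) hL0.ne' hF hG.hq₁ hx1 ?_ ?_
        · intro h
          have := Nat.le_of_dvd (by norm_num) h
          have := hG.hq4
          omega
        · intro h
          have h1 : 4 ∣ q₁ + 1 := (Dvd.intro _ rfl).trans hG.hqm
          rw [← hq1] at h1
          have h2 : 4 ∣ 2 := (Nat.dvd_add_right h).1 h1
          norm_num at h2
  · intro V hV hVst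
    have hcR : (1 : ℝ) ≤ D.c := by exact_mod_cast D.hc
    have hLR : (0 : ℝ) < L := by exact_mod_cast hL0
    have hsm : (0 : ℝ) < (s : ℝ) ^ m := by positivity
    have h1 := discr_le (by omega : 1 ≤ n) hfr D.a L (s ^ m) θ hL0 hθ' hgen
      (∑ i, |(D.a i : ℝ)|) V hV
      (fun i => Finset.single_le_sum (f := fun i => |(D.a i : ℝ)|) (fun _ _ => abs_nonneg _)
        (Finset.mem_univ i)) (by
          rw [← hLcR] at hVst
          push_cast
          rw [abs_of_pos hsm]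
          have h2 : (s : ℝ) ^ m * D.c ≤ (V * L) * D.c := by linarith
          exact le_of_mul_le_mul_right h2 (by linarith))
    refine h1.trans ?_
    rw [cst]
    refine mul_le_mul_of_nonneg_left ?_ (by positivity)
    have h3 : (L : ℝ) ≤ (t : ℝ) ^ m := by nlinarith
    calc (L : ℝ) ^ (2 * (n - 1)) ≤ ((t : ℝ) ^ m) ^ (2 * (n - 1)) :=
          pow_le_pow_left₀ hLR.le h3 _
      _ = (t : ℝ) ^ (2 * m * (n - 1)) := by
          rw [← pow_mul]
          congr 1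
          ring
  · intro q hq hex
    have hqp : Prime (q : ℤ) := Nat.prime_iff_prime_int.1 hex.prime
    have hqc : ¬ (q : ℤ) ∣ D.c := not_dvd_of_lt D.hc.ne' hq
    refine hDisc K n D.a L (s ^ m) q θ hn hfr hex.prime ?_ ?_ ?_ hθ' hgen
    · have h1 := hex.dvd
      rw [← hLc] at h1
      exact (hqp.dvd_or_dvd h1).resolve_right hqc
    · intro h
      exact hex.ndvd (by rw [← hLc]; exact h.mul_right _)
    · intro h
      exact hex.hs (hqp.dvd_of_dvd_pow h)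

end Pool.Agent.J4H71.CF
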