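import Pool.Agent.J4H71.CF.Fam

/-!
# Counting the discriminants
-/

set_option autoImplicit false

namespace Pool.Agent.J4H71.CF

open Finset Filter Topology

theorem card_primes_le (b : ℕ) (hb : b ≠ 0) (A B : ℝ) (N : ℕ) (hA : 1 ≤ A) (hbB : (b : ℝ) ≤ B)
    (hAB : B < A ^ (N + 1)) : (b.primeFactors.filter (fun p : ℕ => A < p)).card ≤ N := by
  set T := b.primeFactors.filter (fun p : ℕ => A < p) with hT
  by_contra hc
  push Not at hc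
  have h1 : ∏ p ∈ T, p ∣ b :=
    (prod_dvd_prod_of_subset _ _ _ (filter_subset _ _)).trans (Nat.prod_primeFactors_dvd b)
  have h2 : ∏ p ∈ T, p ≤ b := Nat.le_of_dvd (Nat.pos_of_ne_zero hb) h1
  have h3 : A ^ T.card ≤ ∏ p ∈ T, (p : ℝ) := by
    rw [← prod_const]
    refine prod_le_prod (fun _ _ => by linarith) fun p hp => ?_
    rw [hT, mem_filter] at hp
    exact hp.2.le
  have h4 : ∏ p ∈ T, (p : ℝ) ≤ b := by
    rw [← Nat.cast_prod]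
    exact Nat.cast_le.2 h2
  have h5 : A ^ (N + 1) ≤ A ^ T.card := pow_le_pow_right₀ hA (by omega)
  linarith

theorem count_image (P : Finset (ℕ × ℕ)) (d : ℕ × ℕ → ℤ) (A B : ℝ) (N : ℕ) (hA : 1 ≤ A)
    (hd0 : ∀ p ∈ P, d p ≠ 0) (hdB : ∀ p ∈ P, |(d p : ℝ)| ≤ B)
    (h1 : ∀ p ∈ P, p.1.Prime ∧ (p.1 : ℤ) ∣ d p ∧ A < p.1)
    (h2 : ∀ p ∈ P, p.2.Prime ∧ (p.2 : ℤ) ∣ d p ∧ A < p.2)
    (hAB : B < A ^ (N + 1)) : P.card ≤ N ^ 2 * (P.image d).card := by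
  classical
  refine card_le_mul_card_image P (N ^ 2) fun b hb => ?_
  obtain ⟨p₀, hp₀, rfl⟩ := mem_image.1 hb
  have hb0 : (d p₀).natAbs ≠ 0 := Int.natAbs_ne_zero.2 (hd0 p₀ hp₀)
  have hbB : (((d p₀).natAbs : ℕ) : ℝ) ≤ B := by
    have := hdB p₀ hp₀
    rwa [← Int.cast_abs, Int.abs_eq_natAbs] at this
  have hT := card_primes_le (d p₀).natAbs hb0 A B N hA hbB hAB
  set T := (d p₀).natAbs.primeFactors.filter (fun p : ℕ => A < p) with hTdef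
  have hsub : (P.filter (fun a => d a = d p₀)) ⊆ T ×ˢ T := by
    intro p hp
    rw [mem_filter] at hp
    obtain ⟨e1, e2, e3⟩ := h1 p hp.1
    obtain ⟨f1, f2, f3⟩ := h2 p hp.1
    rw [hp.2] at e2 f2
    rw [mem_product, hTdef, mem_filter, mem_filter]
    exact ⟨⟨Nat.mem_primeFactors.2 ⟨e1, Int.natCast_dvd.1 e2, hb0⟩, e3⟩,
      ⟨Nat.mem_primeFactors.2 ⟨f1, Int.natCast_dvd.1 f2, hb0⟩, f3⟩⟩
  calc (P.filter (fun a => d a = d p₀)).card ≤ (T ×ˢ T).card := card_le_card hsub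
    _ = T.card * T.card := card_product _ _
    _ ≤ N * N := Nat.mul_le_mul hT hT
    _ = N ^ 2 := (sq N).symm

theorem count_main (Q : ℤ → Prop) (m N e : ℕ) (hN : 1 ≤ N) (M s₁ t₁ : ℤ) (x y : ℝ) (hx : 0 < x)
    (hfam : Fam m M s₁ t₁ x y e) (C₁ : ℝ) (hC₁ : 0 < C₁) (Z : ℕ)
    (hcore : ∀ s t : ℤ, M ∣ s - s₁ → M ∣ t - t₁ → 0 < s → IsCoprime s t → x * s < t →
      (t : ℝ) < y * s → ∃ d : ℤ, Q d ∧ d ≠ 0 ∧ |(d : ℝ)| ≤ C₁ * (t : ℝ) ^ N ∧
        ∀ q : ℕ, Z < q → Ex m s t q → (q : ℤ) ∣ d) :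
    ∃ c : ℝ, 0 < c ∧ ∃ X₀ : ℝ, ∀ X : ℝ, X₀ ≤ X →
      c * (X ^ ((1 : ℝ) / N) / Real.log X) ^ e ≤ ({d : ℤ | |(d : ℝ)| ≤ X ∧ Q d}.ncard : ℝ) := by
  classical
  obtain ⟨c, hc, C, hC, α, hα, U₀, hU₀⟩ := hfam
  have hN0 : (0 : ℝ) < N := by exact_mod_cast hN
  have hN1 : (1 : ℝ) ≤ N := by exact_mod_cast hN
  set C₂ : ℝ := C₁ * C ^ N with hC₂
  have hC₂0 : 0 < C₂ := by positivity
  set κ : ℝ := (C₂⁻¹) ^ ((1 : ℝ) / N) with hκ
  have hκ0 : 0 < κ := Real.rpow_pos_of_pos (inv_pos.2 hC₂0) _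
  set K : ℝ := max (max U₀ 2) (max ((Z + 1) / α) (C₂ / α ^ (N + 1) + 1)) with hK
  have hK0 : 0 < K := lt_of_lt_of_le (by norm_num) ((le_max_right _ _).trans (le_max_left _ _))
  refine ⟨c * (κ / 2) ^ e / (N : ℝ) ^ 2, by positivity,
    max (max (C₂ * K ^ N) 2) (Real.exp |Real.log C₂|), fun X hX => ?_⟩
  rw [max_le_iff, max_le_iff] at hX
  obtain ⟨⟨hX1, hX2⟩, hX3⟩ := hX
  have hX0 : 0 < X := by linarith
  have hlogX : |Real.log C₂| ≤ Real.log X := (Real.le_log_iff_exp_le hX0).2 hX3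
  have hlogX0 : 0 < Real.log X := Real.log_pos (by linarith)
  set U : ℝ := (X / C₂) ^ ((1 : ℝ) / N) with hU
  have hXC : 0 < X / C₂ := div_pos hX0 hC₂0
  have hUN : U ^ N = X / C₂ := by
    rw [hU, one_div]
    exact Real.rpow_inv_natCast_pow hXC.le (by omega)
  have hKU : K ≤ U := by
    have h1 : K ^ N ≤ U ^ N := by
      rw [hUN, le_div_iff₀ hC₂0]
      linarith
    exact le_of_pow_le_pow_left₀ (by omega) (Real.rpow_nonneg hXC.le _) h1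
  have hK' := hKU
  rw [hK, max_le_iff, max_le_iff, max_le_iff] at hK'
  obtain ⟨⟨hU1, hU2⟩, hU3, hU4⟩ := hK'
  have hUpos : 0 < U := by linarith
  rw [div_le_iff₀ hα] at hU3
  have hlogU0 : 0 < Real.log U := Real.log_pos (by linarith)
  have hUeq : U = κ * X ^ ((1 : ℝ) / N) := by
    rw [hU, hκ, div_eq_mul_inv, mul_comm, Real.mul_rpow (inv_pos.2 hC₂0).le hX0.le]
  have hlogU : Real.log U ≤ 2 * Real.log X := by
    rw [hU, Real.log_rpow hXC, Real.log_div hX0.ne' hC₂0.ne']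
    have h1 : Real.log X - Real.log C₂ ≤ 2 * Real.log X := by
      have := neg_abs_le (Real.log C₂)
      linarith
    have h2 : (1 : ℝ) / N ≤ 1 := by
      rw [div_le_one hN0]
      exact hN1
    have h3 : (0 : ℝ) < 1 / N := by positivity
    calc 1 / (N : ℝ) * (Real.log X - Real.log C₂) ≤ 1 / N * (2 * Real.log X) :=
          mul_le_mul_of_nonneg_left h1 h3.le
      _ ≤ 1 * (2 * Real.log X) := mul_le_mul_of_nonneg_right h2 (by linarith)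
      _ = 2 * Real.log X := one_mul _
  have hV : κ / 2 * (X ^ ((1 : ℝ) / N) / Real.log X) ≤ U / Real.log U := by
    rw [hUeq, ← hUeq]
    have h1 : κ / 2 * (X ^ ((1 : ℝ) / N) / Real.log X) = U / (2 * Real.log X) := by
      rw [hUeq]
      field_simp
    rw [h1]
    exact div_le_div_of_nonneg_left hUpos.le hlogU0 hlogU
  obtain ⟨P, f, hP1, hP2⟩ := hU₀ U hU1
  have hd : ∀ p ∈ P, ∃ d : ℤ, Q d ∧ d ≠ 0 ∧ |(d : ℝ)| ≤ X ∧ (p.1 : ℤ) ∣ d ∧ (p.2 : ℤ) ∣ d := by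
    intro p hp
    obtain ⟨h1, h2, h3, h4, h5⟩ := hP2 p hp
    obtain ⟨d, e1, e2, e3, e4⟩ := hcore _ _ h1.hs h1.ht h1.pos h1.cop h1.lo h1.hi
    refine ⟨d, e1, e2, e3.trans ?_, e4 _ ?_ h2, e4 _ ?_ h3⟩
    · have hs0 : (0 : ℝ) < (f p).1 := by exact_mod_cast h1.pos
      have ht0 : (0 : ℝ) ≤ (f p).2 := by
        have := h1.lo
        nlinarith
      calc C₁ * ((f p).2 : ℝ) ^ N ≤ C₁ * (C * U) ^ N :=
            mul_le_mul_of_nonneg_left (pow_le_pow_left₀ ht0 h1.le N) hC₁.le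
        _ = C₂ * U ^ N := by rw [hC₂]; ring
        _ = X := by rw [hUN]; field_simp
    · have h6 : (Z : ℝ) < p.1 := by linarith
      exact_mod_cast h6
    · have h6 : (Z : ℝ) < p.2 := by linarith
      exact_mod_cast h6
  choose! d hd using hd
  have hcard := count_image P d (α * U) X N (by
      have : (0 : ℝ) ≤ Z := Nat.cast_nonneg _
      linarith) (fun p hp => (hd p hp).2.1) (fun p hp => (hd p hp).2.2.1)
    (fun p hp => ⟨(hP2 p hp).2.1.prime, (hd p hp).2.2.2.1, (hP2 p hp).2.2.2.1⟩)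
    (fun p hp => ⟨(hP2 p hp).2.2.1.prime, (hd p hp).2.2.2.2, (hP2 p hp).2.2.2.2⟩) (by
      have h1 : C₂ / α ^ (N + 1) < U := by linarith
      rw [div_lt_iff₀ (by positivity)] at h1
      have h2 : X = C₂ * U ^ N := by rw [hUN]; field_simp
      calc X = C₂ * U ^ N := h2
        _ < U * α ^ (N + 1) * U ^ N := mul_lt_mul_of_pos_right h1 (by positivity)
        _ = (α * U) ^ (N + 1) := by ring)
  have hfin : {d : ℤ | |(d : ℝ)| ≤ X ∧ Q d}.Finite := by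
    refine (Set.finite_Icc (-⌊X⌋) ⌊X⌋).subset fun d hd => ?_
    obtain ⟨h1, -⟩ := hd
    rw [abs_le] at h1
    have h2 : d ≤ ⌊X⌋ := Int.le_floor.2 h1.2
    have h3 : -d ≤ ⌊X⌋ := Int.le_floor.2 (by push_cast; linarith)
    exact ⟨by omega, h2⟩
  have hsub : ((P.image d : Finset ℤ) : Set ℤ) ⊆ {d : ℤ | |(d : ℝ)| ≤ X ∧ Q d} := by
    intro z hz
    obtain ⟨p, hp, rfl⟩ := mem_image.1 (mem_coe.1 hz)
    exact ⟨(hd p hp).2.2.1, (hd p hp).1⟩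
  have h1 : (P.image d).card ≤ {d : ℤ | |(d : ℝ)| ≤ X ∧ Q d}.ncard := by
    rw [← Set.ncard_coe_finset]
    exact Set.ncard_le_ncard hsub hfin
  have h2 : (P.card : ℝ) ≤ (N : ℝ) ^ 2 * ((P.image d).card : ℝ) := by exact_mod_cast hcard
  have h3 : ((P.image d).card : ℝ) ≤ ({d : ℤ | |(d : ℝ)| ≤ X ∧ Q d}.ncard : ℝ) := by
    exact_mod_cast h1
  refine le_trans ?_ h3
  rw [div_mul_eq_mul_div, div_le_iff₀ (by positivity)]
  have h4 : 0 ≤ κ / 2 * (X ^ ((1 : ℝ) / N) / Real.log X) := by positivity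
  calc c * (κ / 2) ^ e * (X ^ ((1 : ℝ) / N) / Real.log X) ^ e
      = c * (κ / 2 * (X ^ ((1 : ℝ) / N) / Real.log X)) ^ e := by rw [mul_pow]; ring
    _ ≤ c * (U / Real.log U) ^ e :=
        mul_le_mul_of_nonneg_left (pow_le_pow_left₀ h4 hV e) hc.le
    _ ≤ P.card := hP1
    _ ≤ _ := by linarith

end Pool.Agent.J4H71.CF
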