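import Pool.Agent.W289.CG.Stm

/-!
# An upper bound for the discriminant of the fields `ℚ(θ)`, `L ∏ (θ - a i) + S = 0`
-/

set_option autoImplicit false

namespace Pool.Agent.J4H71.CF

open NumberField Polynomial Pool.Agent.W289.CG Matrix

/-- the discriminant of a family of integers bounds the discriminant of the field -/
theorem discr_le_of_integral {K : Type} [Field K] [NumberField K] {n : ℕ}
    (hfr : Module.finrank ℚ K = n) (b : Fin n → K) (hb : ∀ i, IsIntegral ℤ (b i))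
    (hd : Algebra.discr ℚ b ≠ 0) :
    |((discr K : ℤ) : ℚ)| ≤ |Algebra.discr ℚ b| := by
  classical
  have hcard : Fintype.card (Module.Free.ChooseBasisIndex ℤ (𝓞 K)) = n := by
    rw [← Module.finrank_eq_card_chooseBasisIndex, RingOfIntegers.rank, hfr]
  let β : Module.Basis (Fin n) ℤ (𝓞 K) :=
    (RingOfIntegers.basis K).reindex (Fintype.equivFinOfCardEq hcard)
  let b' : Fin n → 𝓞 K := fun i => ⟨b i, hb i⟩
  have h1 : b' = β ᵥ* (β.toMatrix b').map (algebraMap ℤ (𝓞 K)) := by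
    ext1 j
    conv_lhs => rw [← β.sum_toMatrix_smul_self b' j]
    simp only [Matrix.vecMul, dotProduct, Matrix.map_apply]
    refine Finset.sum_congr rfl fun i _ => ?_
    rw [Algebra.smul_def, mul_comm]
  have h2 : Algebra.discr ℤ b' = (β.toMatrix b').det ^ 2 * discr K := by
    conv_lhs => rw [h1]
    rw [Algebra.discr_of_matrix_vecMul, NumberField.discr_eq_discr]
  have h3 : ((Algebra.discr ℤ b' : ℤ) : ℚ) = Algebra.discr ℚ b := by
    rw [Algebra.discr_def, Algebra.discr_def]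
    have : ((Algebra.traceMatrix ℤ b').det : ℚ) =
        ((Algebra.traceMatrix ℤ b').map (Int.castRingHom ℚ)).det := by
      rw [← RingHom.mapMatrix_apply, ← RingHom.map_det]
      rfl
    rw [this]
    congr 1
    ext i j
    simp only [Matrix.map_apply, Algebra.traceMatrix_apply, Algebra.traceForm_apply]
    exact Algebra.coe_trace_int (K := K) (b' i * b' j)
  rw [← h3, h2] at hd ⊢
  rw [Int.cast_mul, abs_mul, Int.cast_pow]
  have h4 : (β.toMatrix b').det ≠ 0 := by
    intro h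
    rw [h] at hd
    simp at hd
  have h5 : (1 : ℚ) ≤ |((β.toMatrix b').det : ℚ) ^ 2| := by
    have : (1 : ℤ) ≤ |(β.toMatrix b').det ^ 2| := by
      rw [abs_pow]
      exact one_le_pow₀ (Int.one_le_abs h4)
    exact_mod_cast this
  nlinarith [abs_nonneg ((discr K : ℤ) : ℚ)]

/-- the discriminant of `1, L θ, ..., L θ ^ (n-1)` -/
theorem discr_scaled_le {K : Type} [Field K] [NumberField K] {n : ℕ} (hn : 1 ≤ n)
    (hfr : Module.finrank ℚ K = n) (θ : K) (L : ℤ) (B : ℝ) (hB : 1 ≤ B)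
    (hroot : ∀ φ : K →+* ℂ, ‖φ θ‖ ≤ B) :
    ((|Algebra.discr ℚ (fun j : Fin n => (if (j : ℕ) = 0 then 1 else (L : K)) * θ ^ (j : ℕ))| : ℚ)
      : ℝ) ≤ ((n.factorial : ℝ) * (B ^ n) ^ n) ^ 2 * |(L : ℝ)| ^ (2 * (n - 1)) := by
  classical
  set b : Fin n → K := fun j : Fin n => (if (j : ℕ) = 0 then 1 else (L : K)) * θ ^ (j : ℕ) with hb
  have hcard : Fintype.card (K →ₐ[ℚ] ℂ) = n := by
    rw [AlgHom.card, hfr]
  let e : Fin n ≃ (K →ₐ[ℚ] ℂ) := (Fintype.equivFinOfCardEq hcard).symm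
  have h1 := Algebra.discr_eq_det_embeddingsMatrixReindex_pow_two ℚ ℂ b e
  set V : Matrix (Fin n) (Fin n) ℂ := Matrix.of fun i j => (e j θ) ^ (i : ℕ) with hV
  set w : Fin n → ℂ := fun j => if (j : ℕ) = 0 then 1 else (L : ℂ) with hw
  have h2 : Algebra.embeddingsMatrixReindex ℚ ℂ b e = Matrix.of fun i j => w i * V i j := by
    ext i j
    simp only [Algebra.embeddingsMatrixReindex, Algebra.embeddingsMatrix, Matrix.reindex_apply,
      Matrix.submatrix_apply, Matrix.of_apply, hV, hw, hb]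
    simp only [Equiv.refl_symm, Equiv.coe_refl, id_eq, Equiv.symm_symm, map_mul, map_pow]
    split_ifs <;> simp
  have h3 : (Matrix.of fun i j => w i * V i j).det = (∏ i, w i) * V.det :=
    Matrix.det_mul_column w V
  have h4 : ∏ i, w i = (L : ℂ) ^ (n - 1) := by
    obtain ⟨n', rfl⟩ : ∃ n', n = n' + 1 := ⟨n - 1, by omega⟩
    rw [Fin.prod_univ_succ]
    simp [hw]
  have h5 : ‖V.det‖ ≤ (n.factorial : ℝ) * (B ^ n) ^ n := by
    have := Matrix.det_le (A := V) (abv := NormedField.toAbsoluteValue ℂ) (x := B ^ n) (by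
      intro i j
      show ‖V i j‖ ≤ B ^ n
      rw [hV, Matrix.of_apply, norm_pow]
      calc ‖e j θ‖ ^ (i : ℕ) ≤ B ^ (i : ℕ) :=
            pow_le_pow_left₀ (norm_nonneg _) (hroot (e j : K →+* ℂ)) _
        _ ≤ B ^ n := pow_le_pow_right₀ hB i.2.le)
    rw [Fintype.card_fin, nsmul_eq_mul] at this
    exact this
  have h6 : ‖((Algebra.discr ℚ b : ℚ) : ℂ)‖ = ‖(L : ℂ)‖ ^ (2 * (n - 1)) * ‖V.det‖ ^ 2 := by
    have h7 : ((Algebra.discr ℚ b : ℚ) : ℂ) = algebraMap ℚ ℂ (Algebra.discr ℚ b) := rfl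
    rw [h7, h1, h2, h3, h4, norm_pow, norm_mul, norm_pow]
    ring
  have h8 : ((|Algebra.discr ℚ b| : ℚ) : ℝ) = ‖((Algebra.discr ℚ b : ℚ) : ℂ)‖ := by
    rw [Complex.norm_ratCast, Rat.cast_abs]
  rw [h8, h6, Complex.norm_intCast, mul_comm]
  gcongr

/-- the family is a basis -/
theorem discr_scaled_ne {K : Type} [Field K] [NumberField K] {n : ℕ} 
    (hfr : Module.finrank ℚ K = n) (θ : K) (L : ℤ) (hL : L ≠ 0)
    (hgen : IntermediateField.adjoin ℚ {θ} = ⊤) (hn : 1 ≤ n) :
    Algebra.discr ℚ (fun j : Fin n => (if (j : ℕ) = 0 then 1 else (L : K)) * θ ^ (j : ℕ)) ≠ 0 := by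
  classical
  have hdeg : (minpoly ℚ θ).natDegree = n := by
    rw [← hfr]
    exact (Field.primitive_element_iff_minpoly_natDegree_eq ℚ θ).1 hgen
  have hli : LinearIndependent ℚ fun i : Fin n => θ ^ (i : ℕ) := by
    have := linearIndependent_pow (K := ℚ) θ
    rw [hdeg] at this
    exact this
  have hL' : (L : ℚ) ≠ 0 := by exact_mod_cast hL
  have hli2 := hli.units_smul (fun i : Fin n => if (i : ℕ) = 0 then 1 else Units.mk0 (L : ℚ) hL')
  have heq : ((fun i : Fin n => if (i : ℕ) = 0 then (1 : ℚˣ) else Units.mk0 (L : ℚ) hL') • fun i : Fin n => θ ^ (i : ℕ)) =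
      (fun j : Fin n => (if (j : ℕ) = 0 then 1 else (L : K)) * θ ^ (j : ℕ)) := by
    ext i
    simp only [Pi.smul_apply']
    split_ifs with h
    · simp
    · rw [Units.smul_mk0, Algebra.smul_def]
      simp
  rw [heq] at hli2
  have : Nonempty (Fin n) := ⟨⟨0, hn⟩⟩
  let b := basisOfLinearIndependentOfCardEqFinrank hli2 (by rw [hfr, Fintype.card_fin])
  have h := Algebra.discr_not_zero_of_basis ℚ b
  rwa [coe_basisOfLinearIndependentOfCardEqFinrank] at h

/-- integrality -/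
theorem isIntegral_scaled {K : Type} [Field K] [NumberField K] {n : ℕ} (hn : 1 ≤ n)
    (a : Fin n → ℤ) (L S : ℤ) (θ : K) (hθ : (L : K) * ∏ i, (θ - (a i : K)) + (S : K) = 0)
    (j : ℕ) (hj : j ≤ n) : IsIntegral ℤ ((L : K) * θ ^ j) := by
  have h := IsDedekindDomain.HeightOneSpectrum.mem_integers_of_valuation_le_one (R := 𝓞 K) K
    ((L : K) * θ ^ j) (fun v => ?_)
  · obtain ⟨z, hz⟩ := h
    rw [← hz]
    exact z.2
  · have hint : ∀ z : ℤ, v.valuation K (z : K) ≤ 1 := by
      intro z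
      have := v.valuation_le_one (K := K) (z : 𝓞 K)
      simpa using this
    rcases le_or_gt (v.valuation K θ) 1 with h | h
    · rw [map_mul, map_pow]
      exact mul_le_one' (hint L) (pow_le_one' h j)
    · have h1 : v.valuation K (L : K) * v.valuation K θ ^ n = v.valuation K (S : K) := by
        have h2 : (L : K) * ∏ i, (θ - (a i : K)) = - (S : K) := by linear_combination hθ
        have h3 := congrArg (v.valuation K) h2
        rw [map_mul, map_prod, Valuation.map_neg] at h3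
        rw [← h3]
        congr 1
        have h4 : ∀ i, v.valuation K (θ - (a i : K)) = v.valuation K θ := by
          intro i
          apply Valuation.map_sub_eq_of_lt_left
          exact (hint (a i)).trans_lt h
        simp [h4]
      rw [map_mul, map_pow]
      calc v.valuation K (L : K) * v.valuation K θ ^ j
          ≤ v.valuation K (L : K) * v.valuation K θ ^ n := by
            gcongr
            exact h.le
        _ ≤ 1 := by rw [h1]; exact hint S

/-- the size of the roots -/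
theorem root_le {n : ℕ} (hn : 1 ≤ n) (a : Fin n → ℤ) (A V : ℝ) (hV : 0 ≤ V)
    (hA : ∀ i, |(a i : ℝ)| ≤ A) (z : ℂ) (hz : ‖∏ i, (z - (a i : ℂ))‖ ≤ V) : ‖z‖ ≤ A + V + 1 := by
  by_contra hc
  push Not at hc
  have h1 : ∀ i, V + 1 ≤ ‖z - (a i : ℂ)‖ := by
    intro i
    have h2 : ‖z‖ ≤ ‖z - (a i : ℂ)‖ + ‖(a i : ℂ)‖ := by
      have := norm_add_le (z - (a i : ℂ)) (a i : ℂ)
      simpa using this
    rw [Complex.norm_intCast] at h2
    have := hA i
    linarith
  have h3 : (V + 1) ^ n ≤ ‖∏ i, (z - (a i : ℂ))‖ := by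
    rw [norm_prod]
    calc (V + 1) ^ n = ∏ _i : Fin n, (V + 1) := by simp
      _ ≤ _ := Finset.prod_le_prod (fun i _ => by linarith) (fun i _ => h1 i)
  have h4 : V + 1 ≤ (V + 1) ^ n := le_self_pow₀ (by linarith) (by omega)
  linarith

/-- **the bound for the discriminant** -/
theorem discr_le {K : Type} [Field K] [NumberField K] {n : ℕ} (hn : 1 ≤ n)
    (hfr : Module.finrank ℚ K = n) (a : Fin n → ℤ) (L S : ℤ) (θ : K) (hL : 0 < L)
    (hθ : (L : K) * ∏ i, (θ - (a i : K)) + (S : K) = 0)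
    (hgen : IntermediateField.adjoin ℚ {θ} = ⊤) (A V : ℝ) (hV : 0 ≤ V)
    (hA : ∀ i, |(a i : ℝ)| ≤ A) (hSV : |(S : ℝ)| ≤ V * L) :
    |((discr K : ℤ) : ℝ)| ≤
      ((n.factorial : ℝ) * ((A + V + 1) ^ n) ^ n) ^ 2 * (L : ℝ) ^ (2 * (n - 1)) := by
  have hLR : (0 : ℝ) < L := by exact_mod_cast hL
  have hA0 : 0 ≤ A := (abs_nonneg _).trans (hA ⟨0, hn⟩)
  have hroot : ∀ φ : K →+* ℂ, ‖φ θ‖ ≤ A + V + 1 := by
    intro φ
    refine root_le hn a A V hV hA (φ θ) ?_
    have h1 := congrArg φ hθ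
    simp only [map_add, map_mul, map_prod, map_sub, map_intCast, map_zero] at h1
    have h2 : (L : ℂ) * ∏ i, (φ θ - (a i : ℂ)) = - (S : ℂ) := by linear_combination h1
    have h3 := congrArg norm h2
    rw [norm_mul, norm_neg, Complex.norm_intCast, Complex.norm_intCast, abs_of_pos hLR] at h3
    have h4 : (L : ℝ) * ‖∏ i, (φ θ - (a i : ℂ))‖ ≤ L * V := by
      rw [h3]
      linarith
    exact le_of_mul_le_mul_left h4 hLR
  have h1 := discr_le_of_integral hfr
    (fun j : Fin n => (if (j : ℕ) = 0 then 1 else (L : K)) * θ ^ (j : ℕ)) (by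
      intro j
      split_ifs with h
      · rw [h, pow_zero, mul_one]
        exact isIntegral_one
      · exact isIntegral_scaled hn a L S θ hθ j j.2.le)
    (discr_scaled_ne hfr θ L hL.ne' hgen hn)
  have h2 := discr_scaled_le hn hfr θ L (A + V + 1) (by linarith) hroot
  have h3 : (((|((discr K : ℤ) : ℚ)| : ℚ)) : ℝ) ≤ _ := (Rat.cast_le (K := ℝ).2 h1).trans h2
  rw [abs_of_pos hLR] at h3
  refine le_trans (le_of_eq ?_) h3
  rw [Rat.cast_abs]
  simp

end Pool.Agent.J4H71.CF
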