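import Pool.Agent.J4H71.CF.Arith

/-!
# The families of pairs `(s, t)`
-/

set_option autoImplicit false

namespace Pool.Agent.J4H71.CF

open Finset Filter Topology

theorem Pt.mono {M s₁ t₁ : ℤ} {x y T T' : ℝ} {s t : ℤ} (h : Pt M s₁ t₁ x y T s t) (hT : T ≤ T') :
    Pt M s₁ t₁ x y T' s t :=
  ⟨h.hs, h.ht, h.pos, h.cop, h.lo, h.hi, h.le.trans hT⟩

theorem Pt.trans {M M' s₁ t₁ s₂ t₂ : ℤ} {x y T : ℝ} {s t : ℤ} (h : Pt M s₁ t₁ x y T s t)
    (hM : M' ∣ M) (hs : M' ∣ s₁ - s₂) (ht : M' ∣ t₁ - t₂) : Pt M' s₂ t₂ x y T s t := by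
  refine ⟨?_, ?_, h.pos, h.cop, h.lo, h.hi, h.le⟩
  · have := (hM.trans h.hs).add hs
    simpa using this
  · have := (hM.trans h.ht).add ht
    simpa using this

theorem fam1 (m : ℕ) (hm : 1 ≤ m) (M s₁ t₁ : ℤ) (hM : 0 < M) (hcl : Cls M s₁ t₁) (x y : ℝ)
    (hx : 1 < x) (hxy : x < y) : Fam m M s₁ t₁ x y 1 := by
  classical
  obtain ⟨g, q, hg, hq, hgM, -, a, ha, hcong⟩ := res M hM (t₁ - s₁)
  obtain ⟨δ, hδ, U₁, hU₁⟩ := primes_interval q hq a ha 1 2 one_pos one_lt_two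
  have hx1 : 0 < x - 1 := by linarith
  have hy1 : 0 < y - 1 := by linarith
  have hyx : 0 < y - x := by linarith
  have hgR : (0 : ℝ) < g := by exact_mod_cast hg
  have hC : 0 < (g : ℝ) * x / (x - 1) := by positivity
  refine ⟨δ, hδ, g * x / (x - 1) * 2, by positivity, 1, one_pos,
    max (max U₁ 1) (max (M + m) (2 * M * (x - 1) * (y - 1) / (y - x))), fun U hU => ?_⟩
  rw [max_le_iff, max_le_iff, max_le_iff] at hU
  obtain ⟨⟨hU1, hU0⟩, hU2, hU3⟩ := hU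
  set P₀ : Finset ℕ := (Ioc ⌊1 * U⌋₊ ⌊2 * U⌋₊).filter (fun p : ℕ => p.Prime ∧ (p : ZMod q) = a)
    with hP₀
  have hmem : ∀ u ∈ P₀, u.Prime ∧ (u : ZMod q) = a ∧ U < u ∧ (u : ℝ) ≤ 2 * U := by
    intro u hu
    rw [hP₀, mem_filter, mem_Ioc] at hu
    refine ⟨hu.2.1, hu.2.2, ?_, ?_⟩
    · have := (Nat.floor_lt (by linarith)).1 hu.1.1
      linarith
    · exact (Nat.le_floor_iff (by linarith)).1 hu.1.2
  have hall : ∀ u ∈ P₀, ∃ st : ℤ × ℤ, Pt M s₁ t₁ x y (g * x / (x - 1) * 2 * U) st.1 st.2 ∧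
      Ex m st.1 st.2 u := by
    intro u hu
    obtain ⟨h1, h2, h3, h4⟩ := hmem u hu
    have h5 : (M : ℝ) + m < u := by linarith
    have h6 : (M : ℤ) + m < u := by exact_mod_cast h5
    obtain ⟨s, t, h7, h8⟩ := one_prime m hm M s₁ t₁ hM hcl x y hx hxy g u hg hgM h1 (by omega)
      (by omega) (hcong u h2) (by
        rw [div_le_iff₀ hyx] at hU3
        nlinarith)
    refine ⟨(s, t), h7.mono ?_, h8⟩
    rw [mul_assoc]
    exact mul_le_mul_of_nonneg_left h4 hC.le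
  choose! f hf using hall
  refine ⟨P₀.image (fun u => (u, u)), fun p => f p.1, ?_, ?_⟩
  · rw [card_image_of_injective _ (fun u v h => (Prod.ext_iff.1 h).1), pow_one]
    exact hU₁ U hU1
  · intro p hp
    obtain ⟨u, hu, rfl⟩ := mem_image.1 hp
    obtain ⟨h1, h2⟩ := hf u hu
    obtain ⟨-, -, h3, -⟩ := hmem u hu
    exact ⟨h1, h2, h2, by linarith, by linarith⟩

theorem even_cls (M s₁ t₁ : ℤ) (hcl : Cls M s₁ t₁) :
    ∃ s₂ : ℤ, M ∣ s₂ - s₁ ∧ Cls (2 * M) s₂ t₁ := by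
  by_cases h2 : (2 : ℤ) ∣ M
  · refine ⟨s₁, by simp, fun p hp h => ?_⟩
    have hpp : Prime (p : ℤ) := Nat.prime_iff_prime_int.1 hp
    rcases hpp.dvd_or_dvd h with h | h
    · exact hcl p hp (h.trans h2)
    · exact hcl p hp h
  · obtain ⟨s₂, h3, h4⟩ : ∃ s₂ : ℤ, M ∣ s₂ - s₁ ∧ ¬ (2 : ℤ) ∣ s₂ := by
      by_cases h : (2 : ℤ) ∣ s₁
      · refine ⟨s₁ + M, by simp, fun h' => h2 ?_⟩
        have := h'.sub h
        simpa using this
      · exact ⟨s₁, by simp, h⟩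
    refine ⟨s₂, h3, fun p hp h h5 => ?_⟩
    have hpp : Prime (p : ℤ) := Nat.prime_iff_prime_int.1 hp
    rcases hpp.dvd_or_dvd h with h | h
    · have h6 : p ∣ 2 := by exact_mod_cast h
      have h7 := (Nat.prime_dvd_prime_iff_eq hp Nat.prime_two).1 h6
      rw [h7] at h5
      exact absurd h5 h4
    · refine hcl p hp h ?_
      have := h5.sub (h.trans h3)
      simpa using this

theorem le_div_log {K U : ℝ} (hU : 1 < U) (hK : 0 ≤ K) (h : 4 * K ^ 2 ≤ U) :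
    K ≤ U / Real.log U := by
  have hU0 : 0 < U := by linarith
  have hlog : 0 < Real.log U := Real.log_pos hU
  have hs : 0 < Real.sqrt U := Real.sqrt_pos.2 hU0
  have h1 := Real.log_le_sub_one_of_pos hs
  rw [Real.log_sqrt hU0.le] at h1
  have h2 : 2 * K ≤ Real.sqrt U := Real.le_sqrt_of_sq_le (by nlinarith)
  have h3 : Real.sqrt U * Real.sqrt U = U := Real.mul_self_sqrt hU0.le
  rw [le_div_iff₀ hlog]
  nlinarith

theorem fam2_aux (m : ℕ) (hm : 1 ≤ m) (hev : Even m) (M s₁ t₁ : ℤ) (hM : 0 < M) (h2M : 2 ∣ M)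
    (hcl : Cls M s₁ t₁) (x y : ℝ) (hx : 1 < x) (hxy : x < y) : Fam m M s₁ t₁ x y 2 := by
  classical
  obtain ⟨g, q, hg, hq, hgM, -, a, ha, hcong⟩ := res (2 * M) (by omega) (t₁ - s₁)
  obtain ⟨h, q', hh, hq', hhM, -, a', ha', hcong'⟩ := res (2 * M) (by omega) (t₁ + s₁)
  have hx1 : 0 < x - 1 := by linarith
  have hy1 : 0 < y - 1 := by linarith
  have hyx : 0 < y - x := by linarith
  have hgR : (0 : ℝ) < g := by exact_mod_cast hg
  have hhR : (0 : ℝ) < h := by exact_mod_cast hh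
  have hMR : (0 : ℝ) < M := by exact_mod_cast hM
  set r₁ : ℝ := (y + 1) / (y - 1) with hr₁
  set r₂ : ℝ := (x + 1) / (x - 1) with hr₂
  have hr₁0 : 0 < r₁ := div_pos (by linarith) hy1
  have hr : r₁ < r₂ := by
    rw [hr₁, hr₂, div_lt_div_iff₀ hy1 hx1]
    nlinarith
  set lam : ℝ := (1 + r₂ / r₁) / 2 with hlam
  have hlam1 : 1 < lam := by
    have : 1 < r₂ / r₁ := (one_lt_div hr₁0).2 hr
    linarith
  have hlamr : lam * r₁ = (r₁ + r₂) / 2 := by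
    rw [hlam]
    field_simp
  have hlamr' : lam * r₁ < r₂ := by rw [hlamr]; linarith
  have hlamr0 : 0 < lam * r₁ := by positivity
  obtain ⟨δ, hδ, U₁, hU₁⟩ := primes_interval q hq a ha (1 / g) (lam / g) (by positivity)
    (div_lt_div_of_pos_right hlam1 hgR)
  obtain ⟨δ', hδ', U₂, hU₂⟩ := primes_interval q' hq' a' ha' (lam * r₁ / h) (r₂ / h)
    (by positivity) (div_lt_div_of_pos_right hlamr' hhR)
  set α : ℝ := min (1 / g) (lam * r₁ / h) with hα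
  have hα0 : 0 < α := lt_min (by positivity) (by positivity)
  have hα1 : α ≤ 1 / g := min_le_left _ _
  have hα2 : α ≤ lam * r₁ / h := min_le_right _ _
  refine ⟨δ * δ' / 2, by positivity, lam + r₂, by linarith, α, hα0,
    max (max U₁ U₂) (max ((2 * M + m) / α) (max 2 (4 * (2 / δ') ^ 2))), fun U hU => ?_⟩
  rw [max_le_iff, max_le_iff, max_le_iff, max_le_iff] at hU
  obtain ⟨⟨hU1, hU2⟩, hU3, hU4, hU5⟩ := hU
  have hU0 : 0 < U := by linarith
  rw [div_le_iff₀ hα0] at hU3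
  set Pu : Finset ℕ := (Ioc ⌊1 / g * U⌋₊ ⌊lam / g * U⌋₊).filter
    (fun p : ℕ => p.Prime ∧ (p : ZMod q) = a) with hPu
  set Pw : Finset ℕ := (Ioc ⌊lam * r₁ / h * U⌋₊ ⌊r₂ / h * U⌋₊).filter
    (fun p : ℕ => p.Prime ∧ (p : ZMod q') = a') with hPw
  have hmemu : ∀ u ∈ Pu, u.Prime ∧ (u : ZMod q) = a ∧ α * U < u ∧ U < g * u ∧
      (g : ℝ) * u ≤ lam * U := by
    intro u hu
    rw [hPu, mem_filter, mem_Ioc] at hu
    have h1 : 1 / g * U < u := (Nat.floor_lt (by positivity)).1 hu.1.1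
    have h2 : (u : ℝ) ≤ lam / g * U := (Nat.le_floor_iff (by positivity)).1 hu.1.2
    refine ⟨hu.2.1, hu.2.2, ?_, ?_, ?_⟩
    · exact lt_of_le_of_lt (mul_le_mul_of_nonneg_right hα1 hU0.le) h1
    · rw [one_div_mul_eq_div, div_lt_iff₀ hgR] at h1
      linarith
    · rw [div_mul_eq_mul_div, le_div_iff₀ hgR] at h2
      linarith
  have hmemw : ∀ w ∈ Pw, w.Prime ∧ (w : ZMod q') = a' ∧ α * U < w ∧ lam * r₁ * U < h * w ∧
      (h : ℝ) * w ≤ r₂ * U := by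
    intro u hu
    rw [hPw, mem_filter, mem_Ioc] at hu
    have hr₂0 : 0 < r₂ := hr₁0.trans hr
    have h1 : lam * r₁ / h * U < u := (Nat.floor_lt (by positivity)).1 hu.1.1
    have h2 : (u : ℝ) ≤ r₂ / h * U := (Nat.le_floor_iff (by positivity)).1 hu.1.2
    refine ⟨hu.2.1, hu.2.2, ?_, ?_, ?_⟩
    · exact lt_of_le_of_lt (mul_le_mul_of_nonneg_right hα2 hU0.le) h1
    · rw [div_mul_eq_mul_div, div_lt_iff₀ hhR] at h1
      linarith
    · rw [div_mul_eq_mul_div, le_div_iff₀ hhR] at h2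
      linarith
  have hall : ∀ p ∈ (Pu ×ˢ Pw).filter (fun p => p.1 ≠ p.2), ∃ st : ℤ × ℤ,
      Pt M s₁ t₁ x y ((lam + r₂) * U) st.1 st.2 ∧ Ex m st.1 st.2 p.1 ∧ Ex m st.1 st.2 p.2 := by
    intro p hp
    rw [mem_filter, mem_product] at hp
    obtain ⟨⟨hu, hw⟩, huw⟩ := hp
    obtain ⟨u1, u2, u3, u4, u5⟩ := hmemu _ hu
    obtain ⟨w1, w2, w3, w4, w5⟩ := hmemw _ hw
    have h5 : (2 : ℝ) * M + m < p.1 := by linarith
    have h6 : (2 : ℤ) * M + m < p.1 := by exact_mod_cast h5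
    have h7 : (2 : ℝ) * M + m < p.2 := by linarith
    have h8 : (2 : ℤ) * M + m < p.2 := by exact_mod_cast h7
    obtain ⟨s, t, e1, e2, e3⟩ := two_primes m hm hev M s₁ t₁ hM h2M hcl x y hx hxy g p.1 h p.2
      hg hh hgM hhM u1 w1 (by omega) (by omega) (by omega) (by omega) huw (hcong _ u2)
      (hcong' _ w2) (by
        rw [← hr₁]
        calc r₁ * (g * p.1) ≤ r₁ * (lam * U) := mul_le_mul_of_nonneg_left u5 hr₁0.le
          _ = lam * r₁ * U := by ring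
          _ < h * p.2 := w4) (by
        rw [← hr₂]
        calc (h : ℝ) * p.2 ≤ r₂ * U := w5
          _ < r₂ * (g * p.1) := mul_lt_mul_of_pos_left u4 (hr₁0.trans hr))
    refine ⟨(s, t), e1.mono ?_, e2, e3⟩
    linarith
  choose! f hf using hall
  refine ⟨(Pu ×ˢ Pw).filter (fun p => p.1 ≠ p.2), f, ?_, ?_⟩
  · have h1 := hU₁ U hU1
    have h2 := hU₂ U hU2
    rw [← hPu] at h1
    rw [← hPw] at h2
    set V : ℝ := U / Real.log U with hV
    have hV2 : 2 / δ' ≤ V := le_div_log (by linarith) (by positivity) hU5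
    have hV0 : 0 < V := lt_of_lt_of_le (by positivity) hV2
    have h3 : 2 ≤ δ' * V := by
      rw [div_le_iff₀ hδ'] at hV2
      linarith
    have h4 : Pu.card * Pw.card ≤ ((Pu ×ˢ Pw).filter (fun p => p.1 ≠ p.2)).card + Pu.card := by
      rw [← card_product]
      have h5 := card_filter_add_card_filter_not (s := Pu ×ˢ Pw) (fun p => p.1 ≠ p.2)
      have h6 : ((Pu ×ˢ Pw).filter (fun p => ¬ p.1 ≠ p.2)).card ≤ Pu.card := by
        refine card_le_card_of_injOn (fun p => p.1) ?_ ?_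
        · intro p hp
          rw [mem_coe, mem_filter, mem_product] at hp
          exact hp.1.1
        · intro p hp p' hp' he
          rw [mem_coe, mem_filter] at hp hp'
          have e1 : p.1 = p.2 := not_not.1 hp.2
          have e2 : p'.1 = p'.2 := not_not.1 hp'.2
          have e3 : p.1 = p'.1 := he
          exact Prod.ext e3 (by rw [← e1, ← e2, e3])
      omega
    have h5 : (Pu.card : ℝ) * Pw.card ≤
        (((Pu ×ˢ Pw).filter (fun p => p.1 ≠ p.2)).card : ℝ) + Pu.card := by exact_mod_cast h4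
    have h6 : (2 : ℝ) ≤ Pw.card := h3.trans h2
    have h7 : (Pu.card : ℝ) * 2 ≤ Pu.card * Pw.card :=
      mul_le_mul_of_nonneg_left h6 (Nat.cast_nonneg _)
    have h8 : δ * V * (δ' * V) ≤ Pu.card * Pw.card :=
      mul_le_mul h1 h2 (by positivity) (Nat.cast_nonneg _)
    have h9 : δ * δ' / 2 * V ^ 2 = δ * V * (δ' * V) / 2 := by ring
    rw [h9]
    linarith
  · intro p hp
    obtain ⟨h1, h2, h3⟩ := hf p hp
    rw [mem_filter, mem_product] at hp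
    exact ⟨h1, h2, h3, (hmemu _ hp.1.1).2.2.1, (hmemw _ hp.1.2).2.2.1⟩

theorem fam2 (m : ℕ) (hm : 1 ≤ m) (hev : Even m) (M s₁ t₁ : ℤ) (hM : 0 < M)
    (hcl : Cls M s₁ t₁) (x y : ℝ) (hx : 1 < x) (hxy : x < y) : Fam m M s₁ t₁ x y 2 := by
  obtain ⟨s₂, h1, h2⟩ := even_cls M s₁ t₁ hcl
  obtain ⟨c, hc, C, hC, α, hα, U₀, h⟩ :=
    fam2_aux m hm hev (2 * M) s₂ t₁ (by omega) (Dvd.intro _ rfl) h2 x y hx hxy
  refine ⟨c, hc, C, hC, α, hα, U₀, fun U hU => ?_⟩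
  obtain ⟨P, f, h3, h4⟩ := h U hU
  refine ⟨P, f, h3, fun p hp => ?_⟩
  obtain ⟨h5, h6⟩ := h4 p hp
  exact ⟨h5.trans (Dvd.intro_left _ rfl) h1 (by simp), h6⟩

end Pool.Agent.J4H71.CF
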