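import Mathlib

/-!
# Points of a two-dimensional lattice in a box
-/

set_option autoImplicit false

namespace Pool.Agent.J4H71.CF

open Finset

/-- the number of the points in a box for a lattice with a basis of vectors with small coordinates -/
theorem lat_count (p r e : ℤ) (hp : 0 < p) (a₁ b₁ a₂ b₂ R : ℤ) (h₁ : p ∣ b₁ - r * a₁)
    (h₂ : p ∣ b₂ - r * a₂) (hdet : a₁ * b₂ - a₂ * b₁ = p) (ha₁ : |a₁| ≤ R) (hb₁ : |b₁| ≤ R)
    (ha₂ : |a₂| ≤ R) (hb₂ : |b₂| ≤ R) (α₀ α₁ β₀ β₁ : ℤ) :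
    (((Ioc (α₀ + 2 * R) (α₁ - 2 * R)) ×ˢ (Ioc (β₀ + 2 * R) (β₁ - 2 * R))).card : ℤ) ≤
      p * (((Ioc α₀ α₁ ×ˢ Ioc β₀ β₁).filter (fun z => p ∣ z.2 - r * z.1 - e)).card : ℤ) := by
  classical
  obtain ⟨n, rfl⟩ := Int.eq_ofNat_of_zero_le hp.le
  set k₁ : ℤ × ℤ → ℤ := fun z => (z.1 * b₂ - a₂ * (z.2 - e)) / (n : ℤ) with hk₁
  set k₂ : ℤ × ℤ → ℤ := fun z => (a₁ * (z.2 - e) - z.1 * b₁) / (n : ℤ) with hk₂
  set φ : ℤ × ℤ → ℤ × ℤ := fun z => (k₁ z * a₁ + k₂ z * a₂, e + k₁ z * b₁ + k₂ z * b₂) with hφ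
  have hx₁ : ∀ z : ℤ × ℤ, 0 ≤ z.1 * b₂ - a₂ * (z.2 - e) - n * k₁ z ∧
      z.1 * b₂ - a₂ * (z.2 - e) - n * k₁ z < n := by
    intro z
    have e1 := Int.emod_add_mul_ediv (z.1 * b₂ - a₂ * (z.2 - e)) n
    have e2 := Int.emod_nonneg (z.1 * b₂ - a₂ * (z.2 - e)) hp.ne'
    have e3 := Int.emod_lt_of_pos (z.1 * b₂ - a₂ * (z.2 - e)) hp
    constructor <;> linarith
  have hx₂ : ∀ z : ℤ × ℤ, 0 ≤ a₁ * (z.2 - e) - z.1 * b₁ - n * k₂ z ∧
      a₁ * (z.2 - e) - z.1 * b₁ - n * k₂ z < n := by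
    intro z
    have e1 := Int.emod_add_mul_ediv (a₁ * (z.2 - e) - z.1 * b₁) n
    have e2 := Int.emod_nonneg (a₁ * (z.2 - e) - z.1 * b₁) hp.ne'
    have e3 := Int.emod_lt_of_pos (a₁ * (z.2 - e) - z.1 * b₁) hp
    constructor <;> linarith
  have hbd : ∀ x₁ x₂ c₁ c₂ : ℤ, 0 ≤ x₁ → x₁ < n → 0 ≤ x₂ → x₂ < n → |c₁| ≤ R → |c₂| ≤ R →
      |x₁ * c₁ + x₂ * c₂| ≤ n * (2 * R) := by
    intro x₁ x₂ c₁ c₂ g1 g2 g3 g4 g5 g6
    have hR : 0 ≤ R := (abs_nonneg _).trans g5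
    calc |x₁ * c₁ + x₂ * c₂| ≤ |x₁ * c₁| + |x₂ * c₂| := abs_add_le _ _
      _ = x₁ * |c₁| + x₂ * |c₂| := by rw [abs_mul, abs_mul, abs_of_nonneg g1, abs_of_nonneg g3]
      _ ≤ n * R + n * R := add_le_add (mul_le_mul g2.le g5 (abs_nonneg _) hp.le)
          (mul_le_mul g4.le g6 (abs_nonneg _) hp.le)
      _ = n * (2 * R) := by ring
  have hd1 : ∀ z : ℤ × ℤ, |z.1 - (φ z).1| ≤ 2 * R := by
    intro z
    have e1 : (n : ℤ) * (z.1 - (φ z).1) = (z.1 * b₂ - a₂ * (z.2 - e) - n * k₁ z) * a₁ +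
        (a₁ * (z.2 - e) - z.1 * b₁ - n * k₂ z) * a₂ := by
      simp only [hφ]
      linear_combination (-z.1) * hdet
    have e2 := hbd _ _ a₁ a₂ (hx₁ z).1 (hx₁ z).2 (hx₂ z).1 (hx₂ z).2 ha₁ ha₂
    rw [← e1, abs_mul, abs_of_pos hp] at e2
    exact le_of_mul_le_mul_left e2 hp
  have hd2 : ∀ z : ℤ × ℤ, |z.2 - (φ z).2| ≤ 2 * R := by
    intro z
    have e1 : (n : ℤ) * (z.2 - (φ z).2) = (z.1 * b₂ - a₂ * (z.2 - e) - n * k₁ z) * b₁ +
        (a₁ * (z.2 - e) - z.1 * b₁ - n * k₂ z) * b₂ := by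
      simp only [hφ]
      linear_combination (-(z.2 - e)) * hdet
    have e2 := hbd _ _ b₁ b₂ (hx₁ z).1 (hx₁ z).2 (hx₂ z).1 (hx₂ z).2 hb₁ hb₂
    rw [← e1, abs_mul, abs_of_pos hp] at e2
    exact le_of_mul_le_mul_left e2 hp
  have hmaps : ∀ z ∈ (Ioc (α₀ + 2 * R) (α₁ - 2 * R)) ×ˢ (Ioc (β₀ + 2 * R) (β₁ - 2 * R)),
      φ z ∈ (Ioc α₀ α₁ ×ˢ Ioc β₀ β₁).filter (fun z => (n : ℤ) ∣ z.2 - r * z.1 - e) := by
    intro z hz
    rw [mem_product, mem_Ioc, mem_Ioc] at hz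
    obtain ⟨⟨g1, g2⟩, g3, g4⟩ := hz
    have e1 := abs_le.1 (hd1 z)
    have e2 := abs_le.1 (hd2 z)
    rw [mem_filter, mem_product, mem_Ioc, mem_Ioc]
    refine ⟨⟨⟨by linarith, by linarith⟩, ⟨by linarith, by linarith⟩⟩, ?_⟩
    have e3 : (φ z).2 - r * (φ z).1 - e = k₁ z * (b₁ - r * a₁) + k₂ z * (b₂ - r * a₂) := by
      simp only [hφ]
      ring
    rw [e3]
    exact (h₁.mul_left _).add (h₂.mul_left _)
  have hfib : ∀ w ∈ (Ioc α₀ α₁ ×ˢ Ioc β₀ β₁).filter (fun z => (n : ℤ) ∣ z.2 - r * z.1 - e),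
      (((Ioc (α₀ + 2 * R) (α₁ - 2 * R)) ×ˢ (Ioc (β₀ + 2 * R) (β₁ - 2 * R))).filter
        (fun z => φ z = w)).card ≤ n := by
    intro w _
    have hI : (Ico (0 : ℤ) n).card = n := by simp
    rw [← hI]
    refine card_le_card_of_injOn (fun z => (z.2 - r * z.1) % n) ?_ ?_
    · intro z _
      rw [coe_Ico]
      exact ⟨Int.emod_nonneg _ hp.ne', Int.emod_lt_of_pos _ hp⟩
    · intro z hz z' hz' he
      rw [mem_coe, mem_filter] at hz hz'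
      have hzw : φ z = φ z' := hz.2.trans hz'.2.symm
      have hw1 : (φ z).1 = (φ z').1 := by rw [hzw]
      have hw2 : (φ z).2 = (φ z').2 := by rw [hzw]
      simp only [hφ] at hw1 hw2
      -- the coefficients agree
      have hk1 : k₁ z = k₁ z' := by
        have : (n : ℤ) * (k₁ z - k₁ z') = 0 := by
          rw [← hdet]
          linear_combination b₂ * hw1 - a₂ * hw2
        rcases mul_eq_zero.1 this with h | h
        · exact absurd h hp.ne'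
        · linarith
      have hk2 : k₂ z = k₂ z' := by
        have : (n : ℤ) * (k₂ z - k₂ z') = 0 := by
          rw [← hdet]
          linear_combination a₁ * hw2 - b₁ * hw1
        rcases mul_eq_zero.1 this with h | h
        · exact absurd h hp.ne'
        · linarith
      have hmod : (n : ℤ) ∣ (z.2 - r * z.1) - (z'.2 - r * z'.1) := by
        have he' : (z.2 - r * z.1) % n = (z'.2 - r * z'.1) % n := he
        have he'' : (z'.2 - r * z'.1) ≡ (z.2 - r * z.1) [ZMOD n] := he'.symm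
        exact he''.dvd
      have f1 : (n : ℤ) ∣ (z.1 - z'.1) * b₂ - a₂ * (z.2 - z'.2) := by
        have e1 : (z.1 - z'.1) * b₂ - a₂ * (z.2 - z'.2) = (z.1 - z'.1) * (b₂ - r * a₂) -
            a₂ * ((z.2 - r * z.1) - (z'.2 - r * z'.1)) := by ring
        rw [e1]
        exact (h₂.mul_left _).sub (hmod.mul_left _)
      have f2 : (n : ℤ) ∣ a₁ * (z.2 - z'.2) - (z.1 - z'.1) * b₁ := by
        have e1 : a₁ * (z.2 - z'.2) - (z.1 - z'.1) * b₁ = a₁ *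
            ((z.2 - r * z.1) - (z'.2 - r * z'.1)) - (z.1 - z'.1) * (b₁ - r * a₁) := by ring
        rw [e1]
        exact (hmod.mul_left _).sub (h₁.mul_left _)
      have f3 : (z.1 - z'.1) * b₂ - a₂ * (z.2 - z'.2) = 0 := by
        refine Int.eq_zero_of_abs_lt_dvd f1 ?_
        have e1 := hx₁ z
        have e2 := hx₁ z'
        rw [hk1] at e1
        rw [abs_lt]
        constructor <;> linarith
      have f4 : a₁ * (z.2 - z'.2) - (z.1 - z'.1) * b₁ = 0 := by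
        refine Int.eq_zero_of_abs_lt_dvd f2 ?_
        have e1 := hx₂ z
        have e2 := hx₂ z'
        rw [hk2] at e1
        rw [abs_lt]
        constructor <;> linarith
      have f5 : (n : ℤ) * (z.1 - z'.1) = 0 := by
        rw [← hdet]
        linear_combination a₁ * f3 + a₂ * f4
      have f6 : (n : ℤ) * (z.2 - z'.2) = 0 := by
        rw [← hdet]
        linear_combination b₁ * f3 + b₂ * f4
      rcases mul_eq_zero.1 f5 with h | h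
      · exact absurd h hp.ne'
      rcases mul_eq_zero.1 f6 with h' | h'
      · exact absurd h' hp.ne'
      exact Prod.ext (by linarith) (by linarith)
  have := card_le_mul_card_image_of_maps_to hmaps n hfib
  exact_mod_cast this

theorem bal (x : ℤ) {μ : ℤ} (hμ : μ ≠ 0) : ∃ k : ℤ, 2 * |x - k * μ| ≤ |μ| := by
  have hn : 0 < μ.natAbs := Int.natAbs_pos.2 hμ
  obtain ⟨k, hk⟩ : μ ∣ x - Int.bmod x μ.natAbs := by
    have h : ((μ.natAbs : ℕ) : ℤ) ∣ x - Int.bmod x μ.natAbs := Int.dvd_self_sub_bmod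
    exact (Int.natAbs_dvd.1 h)
  refine ⟨k, ?_⟩
  have h1 : x - k * μ = Int.bmod x μ.natAbs := by linarith
  rw [h1, Int.abs_eq_natAbs μ]
  have h2 := Int.bmod_lt (x := x) hn
  have h3 := Int.le_bmod (x := x) hn
  rcases abs_cases (Int.bmod x μ.natAbs) with ⟨h, _⟩ | ⟨h, _⟩
  · rw [h]
    omega
  · rw [h]
    omega

/-- a reduced second basis vector -/
theorem red2 (a₁ b₁ a₂ b₂ : ℤ) (h : |b₁| ≤ |a₁|) (ha : a₁ ≠ 0) :
    ∃ k : ℤ, 2 * |a₂ - k * a₁| ≤ |a₁| ∧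
      2 * (|b₂ - k * b₁| * |a₁|) ≤ 2 * |a₁ * b₂ - a₂ * b₁| + a₁ ^ 2 := by
  obtain ⟨k, hk⟩ := bal a₂ ha
  refine ⟨k, hk, ?_⟩
  have h1 : (b₂ - k * b₁) * a₁ = (a₁ * b₂ - a₂ * b₁) + (a₂ - k * a₁) * b₁ := by ring
  have h2 : |b₂ - k * b₁| * |a₁| ≤ |a₁ * b₂ - a₂ * b₁| + |a₂ - k * a₁| * |b₁| := by
    rw [← abs_mul, h1, ← abs_mul]
    exact abs_add_le _ _
  have h3 : |a₂ - k * a₁| * |b₁| ≤ |a₂ - k * a₁| * |a₁| :=
    mul_le_mul_of_nonneg_left h (abs_nonneg _)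
  have h4 : 2 * |a₂ - k * a₁| * |a₁| ≤ |a₁| * |a₁| :=
    mul_le_mul_of_nonneg_right hk (abs_nonneg _)
  have h5 : |a₁| * |a₁| = a₁ ^ 2 := by rw [abs_mul_abs_self, sq]
  nlinarith

/-- a reduced basis, if there are no short vectors -/
theorem exists_basis (p r : ℤ) (hp : 0 < p) (H : ℝ) (hH : 0 < H)
    (hshort : ∀ a b : ℤ, p ∣ b - r * a → (a ≠ 0 ∨ b ≠ 0) → H < |(a : ℝ)| ∨ H < |(b : ℝ)|)
    (R : ℤ) (hR : (p : ℝ) / H + Real.sqrt (2 * p) ≤ R) :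
    ∃ a₁ b₁ a₂ b₂ : ℤ, p ∣ b₁ - r * a₁ ∧ p ∣ b₂ - r * a₂ ∧ a₁ * b₂ - a₂ * b₁ = p ∧
      |a₁| ≤ R ∧ |b₁| ≤ R ∧ |a₂| ≤ R ∧ |b₂| ≤ R := by
  classical
  have hpR : (0 : ℝ) < p := by exact_mod_cast hp
  have hex : ∃ n : ℕ, ∃ a b : ℤ, p ∣ b - r * a ∧ (a ≠ 0 ∨ b ≠ 0) ∧
      max a.natAbs b.natAbs = n := ⟨_, 0, p, by simp, Or.inr hp.ne', rfl⟩
  set μ := Nat.find hex with hμ
  obtain ⟨a₁, b₁, h1, h2, h3⟩ := Nat.find_spec hex
  have hmin : ∀ a b : ℤ, p ∣ b - r * a → (a ≠ 0 ∨ b ≠ 0) → μ ≤ max a.natAbs b.natAbs :=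
    fun a b h h' => Nat.find_min' hex ⟨a, b, h, h', rfl⟩
  rw [← hμ] at h3
  have hμ0 : 0 < μ := by
    rw [← h3]
    rcases h2 with h | h
    · exact lt_max_of_lt_left (Int.natAbs_pos.2 h)
    · exact lt_max_of_lt_right (Int.natAbs_pos.2 h)
  obtain ⟨k₁, hk₁⟩ := h1
  have hcop : IsCoprime a₁ k₁ := by
    rw [Int.isCoprime_iff_gcd_eq_one]
    by_contra hc
    obtain ⟨q, hq, hqd⟩ := Nat.exists_prime_and_dvd hc
    have g1 : (q : ℤ) ∣ (Int.gcd a₁ k₁ : ℤ) := Int.natCast_dvd_natCast.2 hqd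
    obtain ⟨a', ha'⟩ := g1.trans (Int.gcd_dvd_left ..)
    obtain ⟨k', hk'⟩ := g1.trans (Int.gcd_dvd_right ..)
    have hq0 : (q : ℤ) ≠ 0 := by exact_mod_cast hq.ne_zero
    have hb' : b₁ = q * (r * a' + p * k') := by
      have : b₁ = r * a₁ + p * k₁ := by linarith
      rw [this, ha', hk']
      ring
    have g2 := hmin a' (r * a' + p * k') ⟨k', by ring⟩ (by
      rcases h2 with h | h
      · left
        rintro rfl
        exact h (by rw [ha']; simp)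
      · right
        intro h'
        exact h (by rw [hb', h']; simp))
    have g3 : μ = q * max a'.natAbs (r * a' + p * k').natAbs := by
      rw [← h3, ha', hb', Int.natAbs_mul, Int.natAbs_mul, Int.natAbs_natCast,
        Nat.mul_max_mul_left]
    have g4 := hq.two_le
    nlinarith
  obtain ⟨y, x, hxy⟩ := hcop
  -- `y * a₁ + x * k₁ = 1`
  set a₂ : ℤ := -x with ha₂
  set b₂ : ℤ := r * (-x) + p * y with hb₂
  have hb₁ : b₁ = r * a₁ + p * k₁ := by linarith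
  have hdet : a₁ * b₂ - a₂ * b₁ = p := by
    rw [ha₂, hb₂, hb₁]
    linear_combination p * hxy
  have hΛ₂ : p ∣ b₂ - r * a₂ := ⟨y, by rw [ha₂, hb₂]; ring⟩
  have hΛ₁ : p ∣ b₁ - r * a₁ := ⟨k₁, hk₁⟩
  have hμH : H < μ := by
    rcases hshort a₁ b₁ hΛ₁ h2 with h | h
    · refine h.trans_le ?_
      rw [← Int.cast_abs, Int.abs_eq_natAbs]
      exact_mod_cast h3 ▸ le_max_left _ _
    · refine h.trans_le ?_
      rw [← Int.cast_abs, Int.abs_eq_natAbs]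
      exact_mod_cast h3 ▸ le_max_right _ _
  have hμR : (0 : ℝ) < μ := by exact_mod_cast hμ0
  -- the final estimate
  have hfin : ∀ c d : ℤ, 2 * |c| ≤ μ → 2 * (|d| * μ) ≤ 2 * p + (μ : ℤ) ^ 2 →
      (μ : ℤ) ≤ max |c| |d| → (μ : ℤ) ≤ R ∧ |c| ≤ R ∧ |d| ≤ R := by
    intro c d hc hd hcd
    have hμ0' : (0 : ℤ) < μ := by exact_mod_cast hμ0
    have g1 : (μ : ℤ) ≤ |d| := by
      rcases le_max_iff.1 hcd with h | h
      · have := abs_nonneg c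
        omega
      · exact h
    have g2 : (μ : ℤ) ^ 2 ≤ 2 * p := by nlinarith
    have g3 : (μ : ℝ) ^ 2 ≤ 2 * p := by exact_mod_cast g2
    have g4 : (μ : ℝ) ≤ Real.sqrt (2 * p) := Real.le_sqrt_of_sq_le g3
    have g5 : 2 * (|(d : ℝ)| * μ) ≤ 2 * p + (μ : ℝ) ^ 2 := by exact_mod_cast hd
    have g6 : |(d : ℝ)| ≤ p / μ + μ / 2 := by
      rw [← sub_nonneg]
      have : (p : ℝ) / μ + μ / 2 - |(d : ℝ)| = (2 * p + (μ : ℝ) ^ 2 - 2 * (|(d : ℝ)| * μ)) /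
          (2 * μ) := by
        field_simp
      rw [this]
      exact div_nonneg (by linarith) (by linarith)
    have g7 : (p : ℝ) / μ ≤ p / H := div_le_div_of_nonneg_left hpR.le hH hμH.le
    have g8 : |(d : ℝ)| ≤ R := by linarith
    have g9 : |d| ≤ R := by exact_mod_cast g8
    refine ⟨g1.trans g9, ?_, g9⟩
    omega
  rcases le_total |b₁| |a₁| with hle | hle
  · have ha₁μ : |a₁| = μ := by
      rw [Int.abs_eq_natAbs, Int.abs_eq_natAbs] at hle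
      rw [Int.abs_eq_natAbs, ← h3, max_eq_left (by exact_mod_cast hle)]
    have ha0 : a₁ ≠ 0 := by
      rintro rfl
      simp at ha₁μ
      omega
    obtain ⟨k, g1, g2⟩ := red2 a₁ b₁ a₂ b₂ hle ha0
    have hdet' : a₁ * (b₂ - k * b₁) - (a₂ - k * a₁) * b₁ = p := by linear_combination hdet
    have hΛ : p ∣ (b₂ - k * b₁) - r * (a₂ - k * a₁) := by
      have e1 : (b₂ - k * b₁) - r * (a₂ - k * a₁) = (b₂ - r * a₂) - k * (b₁ - r * a₁) := by ring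
      rw [e1]
      exact hΛ₂.sub (hΛ₁.mul_left _)
    have hmn := hmin (a₂ - k * a₁) (b₂ - k * b₁) hΛ (by
      by_contra hc
      push Not at hc
      rw [hc.1, hc.2] at hdet'
      simp at hdet'
      omega)
    rw [hdet, abs_of_pos hp, ← sq_abs, ha₁μ] at g2
    rw [ha₁μ] at g1
    obtain ⟨g3, g4, g5⟩ := hfin _ _ g1 g2 (by
      rw [Int.abs_eq_natAbs, Int.abs_eq_natAbs]
      exact_mod_cast hmn)
    exact ⟨a₁, b₁, _, _, hΛ₁, hΛ, hdet', ha₁μ ▸ g3, (hle.trans_eq ha₁μ).trans g3, g4, g5⟩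
  · have hb₁μ : |b₁| = μ := by
      rw [Int.abs_eq_natAbs, Int.abs_eq_natAbs] at hle
      rw [Int.abs_eq_natAbs, ← h3, max_eq_right (by exact_mod_cast hle)]
    have hb0 : b₁ ≠ 0 := by
      intro h0
      rw [h0] at hb₁μ
      simp at hb₁μ
      omega
    obtain ⟨k, g1, g2⟩ := red2 b₁ a₁ b₂ a₂ hle hb0
    have hdet' : a₁ * (b₂ - k * b₁) - (a₂ - k * a₁) * b₁ = p := by linear_combination hdet
    have hΛ : p ∣ (b₂ - k * b₁) - r * (a₂ - k * a₁) := by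
      have e1 : (b₂ - k * b₁) - r * (a₂ - k * a₁) = (b₂ - r * a₂) - k * (b₁ - r * a₁) := by ring
      rw [e1]
      exact hΛ₂.sub (hΛ₁.mul_left _)
    have hmn := hmin (a₂ - k * a₁) (b₂ - k * b₁) hΛ (by
      by_contra hc
      push Not at hc
      rw [hc.1, hc.2] at hdet'
      simp at hdet'
      omega)
    have hdet2 : |b₁ * a₂ - b₂ * a₁| = p := by
      rw [show b₁ * a₂ - b₂ * a₁ = -p by linarith, abs_neg, abs_of_pos hp]
    rw [hdet2, ← sq_abs, hb₁μ] at g2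
    rw [hb₁μ] at g1
    obtain ⟨g3, g4, g5⟩ := hfin _ _ g1 g2 (by
      rw [Int.abs_eq_natAbs, Int.abs_eq_natAbs, max_comm]
      exact_mod_cast hmn)
    exact ⟨a₁, b₁, _, _, hΛ₁, hΛ, hdet', (hle.trans_eq hb₁μ).trans g3, hb₁μ ▸ g3, g5, g4⟩

end Pool.Agent.J4H71.CF
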