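import Pool.Agent.J4H71.CF.Lat
import Pool.Agent.J4H71.CF.Cnt

/-!
# The number of pairs with `t ≡ r s` modulo a prime
-/

set_option autoImplicit false

namespace Pool.Agent.J4H71.CF

open Finset

/-- the integers `s` -/
noncomputable def SS (U lam : ℝ) (M s₁ : ℤ) : Finset ℤ := cl U (lam * U) M s₁

/-- the integers `t` -/
noncomputable def TT (U lam z : ℝ) (M t₁ : ℤ) : Finset ℤ := cl (z * U) (lam * z * U) M t₁

/-- the pairs with `t ≡ r s` modulo `p` -/
noncomputable def NN (U lam z : ℝ) (M s₁ t₁ : ℤ) (p : ℕ) (r : ℤ) : Finset (ℤ × ℤ) := by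
  classical
  exact (SS U lam M s₁ ×ˢ TT U lam z M t₁).filter
    (fun w => ¬ (p : ℤ) ∣ w.1 ∧ w.2 ≡ r * w.1 [ZMOD p])

theorem mem_NN {U lam z : ℝ} {M s₁ t₁ : ℤ} {p : ℕ} {r : ℤ} {w : ℤ × ℤ} :
    w ∈ NN U lam z M s₁ t₁ p r ↔ (w.1 ∈ SS U lam M s₁ ∧ w.2 ∈ TT U lam z M t₁) ∧
      ¬ (p : ℤ) ∣ w.1 ∧ w.2 ≡ r * w.1 [ZMOD p] := by
  classical
  rw [NN, mem_filter, mem_product]

theorem N_small (U lam z : ℝ) (hU : 0 < U) (hlam : 1 < lam) (hz : 0 < z) (M s₁ t₁ : ℤ) (hM : 0 < M)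
    (p : ℕ) (hp : p.Prime) (hpM : ¬ (p : ℤ) ∣ M) (r : ℤ) (ε : ℝ) (hε : 0 < ε)
    (hAε : (lam - 1) * U / p + 4 ≤ ε * ((lam - 1) * U / M)) :
    (1 - ε) * ((lam - 1) * U / M) * (z * (lam - 1) * U / M) / p - 2 * ((lam - 1) * U / M + 2) ≤
      ((NN U lam z M s₁ t₁ p r).card : ℝ) := by
  classical
  have hpp : Prime (p : ℤ) := Nat.prime_iff_prime_int.1 hp
  have hp0 : (0 : ℤ) < p := by exact_mod_cast hp.pos
  have hpR : (0 : ℝ) < p := by exact_mod_cast hp.pos
  have hMR : (0 : ℝ) < M := by exact_mod_cast hM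
  have hcop : IsCoprime M (p : ℤ) :=
    ((Irreducible.coprime_iff_not_dvd hpp.irreducible).2 hpM).symm
  set A : ℝ := (lam - 1) * U / M with hA
  set B : ℝ := z * (lam - 1) * U / M with hB
  have hlam0 : 0 < lam - 1 := by linarith
  have hA0 : 0 < A := by positivity
  have hB0 : 0 < B := by positivity
  set S' := (SS U lam M s₁).filter (fun s => ¬ (p : ℤ) ∣ s) with hS'
  -- the sum over `s`
  have h1 : ∑ s ∈ S', ((TT U lam z M t₁).filter (fun t => t ≡ r * s [ZMOD p])).card ≤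
      (NN U lam z M s₁ t₁ p r).card := by
    rw [← card_sigma]
    refine card_le_card_of_injOn (fun w => (w.1, w.2)) ?_ ?_
    · intro w hw
      rw [mem_coe, mem_sigma, hS', mem_filter, mem_filter] at hw
      rw [mem_coe, mem_NN]
      exact ⟨⟨hw.1.1, hw.2.1⟩, hw.1.2, hw.2.2⟩
    · rintro ⟨a, b⟩ _ ⟨c, d⟩ _ h
      simp only [Prod.mk.injEq] at h
      obtain ⟨rfl, rfl⟩ := h
      rfl
  have h2 : ∀ s ∈ S', B / p - 2 ≤
      (((TT U lam z M t₁).filter (fun t => t ≡ r * s [ZMOD p])).card : ℝ) := by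
    intro s _
    have := cl_crt_lower (z * U) (lam * z * U) M p t₁ (r * s) hM hp0 hcop
    refine le_trans (le_of_eq ?_) this
    rw [hB]
    push_cast
    field_simp
  have h3 : (S'.card : ℝ) * (B / p - 2) ≤ ((NN U lam z M s₁ t₁ p r).card : ℝ) := by
    have h4 : ∑ s ∈ S', (B / p - 2) ≤
        ∑ s ∈ S', (((TT U lam z M t₁).filter (fun t => t ≡ r * s [ZMOD p])).card : ℝ) :=
      sum_le_sum h2
    rw [sum_const, nsmul_eq_mul] at h4
    refine h4.trans ?_
    exact_mod_cast h1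
  have h5 : (S'.card : ℝ) ≤ A + 2 := by
    have e1 : (S'.card : ℝ) ≤ ((SS U lam M s₁).card : ℝ) := by
      exact_mod_cast card_le_card (filter_subset _ _)
    have e2 := cl_upper U (lam * U) (by nlinarith) M s₁ hM
    refine e1.trans (e2.trans (le_of_eq ?_))
    rw [hA]
    ring
  have h6 : (1 - ε) * A ≤ S'.card := by
    have e1 := card_filter_add_card_filter_not (s := SS U lam M s₁) (fun s => (p : ℤ) ∣ s)
    have e2 := cl_lower U (lam * U) M s₁ hM
    have e3 : (((SS U lam M s₁).filter (fun s => (p : ℤ) ∣ s)).card : ℝ) ≤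
        (lam - 1) * U / p + 2 := by
      have := cl_filter_upper U (lam * U) (by nlinarith) M p s₁ 0 hp0
      have e4 : (SS U lam M s₁).filter (fun s => (p : ℤ) ∣ s) =
          (cl U (lam * U) M s₁).filter (fun x => x ≡ 0 [ZMOD p]) := by
        refine filter_congr fun x _ => ?_
        rw [Int.modEq_zero_iff_dvd]
      rw [e4]
      refine this.trans (le_of_eq ?_)
      push_cast
      ring
    have e5 : (((SS U lam M s₁).filter (fun s => (p : ℤ) ∣ s)).card : ℝ) + S'.card =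
        ((SS U lam M s₁).card : ℝ) := by exact_mod_cast e1
    have e6 : (lam * U - U) / M = A := by rw [hA]; ring
    rw [e6] at e2
    have e7 : ((cl U (lam * U) M s₁).card : ℝ) = ((SS U lam M s₁).card : ℝ) := rfl
    linarith
  refine le_trans ?_ h3
  have h7 : (S'.card : ℝ) * (B / p - 2) = S'.card * (B / p) - 2 * S'.card := by ring
  rw [h7]
  have h8 : (1 - ε) * A * (B / p) ≤ S'.card * (B / p) :=
    mul_le_mul_of_nonneg_right h6 (by positivity)
  have h9 : (1 - ε) * A * B / p = (1 - ε) * A * (B / p) := by ring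
  rw [h9]
  linarith

theorem N_big (U lam z : ℝ) (hU : 0 < U) (M s₁ t₁ : ℤ) (hM : 0 < M) (m : ℕ) (hm : Odd m)
    (p : ℕ) (hp : p.Prime) (hpM : ¬ (p : ℤ) ∣ M) (hpU : lam * U < p) (r : ℤ)
    (hr : (p : ℤ) ∣ r ^ m - 1) (hr1 : ¬ (p : ℤ) ∣ r - 1) (H : ℝ) (hH : 0 < H)
    (hHm : 2 * H ^ m < p) (R : ℤ) (hR : (p : ℝ) / H + Real.sqrt (2 * p) ≤ R)
    (hA : 0 ≤ (lam - 1) * U / M - 1 - 4 * R) (hB : 0 ≤ z * (lam - 1) * U / M - 1 - 4 * R) :
    ((lam - 1) * U / M - 1 - 4 * R) * (z * (lam - 1) * U / M - 1 - 4 * R) ≤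
      p * ((NN U lam z M s₁ t₁ p r).card : ℝ) := by
  classical
  have hpp : Prime (p : ℤ) := Nat.prime_iff_prime_int.1 hp
  have hp0 : (0 : ℤ) < p := by exact_mod_cast hp.pos
  have hpR : (0 : ℝ) < p := by exact_mod_cast hp.pos
  have hMR : (0 : ℝ) < M := by exact_mod_cast hM
  have hcop : IsCoprime M (p : ℤ) :=
    ((Irreducible.coprime_iff_not_dvd hpp.irreducible).2 hpM).symm
  -- no short vectors
  have hm0 : m ≠ 0 := by rintro rfl; exact absurd hm (by decide)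
  have hHp : H < p := by
    by_contra hc
    push Not at hc
    have h1 : (1 : ℝ) ≤ p := by exact_mod_cast hp.one_lt.le
    have h2 : (p : ℝ) ≤ (p : ℝ) ^ m := le_self_pow₀ h1 hm0
    have h3 : (p : ℝ) ^ m ≤ H ^ m := pow_le_pow_left₀ hpR.le hc m
    linarith
  have hshort : ∀ a b : ℤ, (p : ℤ) ∣ b - r * a → (a ≠ 0 ∨ b ≠ 0) →
      H < |(a : ℝ)| ∨ H < |(b : ℝ)| := by
    intro a b h1 h2
    by_contra hc
    push Not at hc
    obtain ⟨g1, g2⟩ := hc
    have g3 : (p : ℤ) ∣ b ^ m - a ^ m := by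
      have e1 : (p : ℤ) ∣ b ^ m - (r * a) ^ m := h1.trans (sub_dvd_pow_sub_pow _ _ m)
      have e2 : b ^ m - a ^ m = (b ^ m - (r * a) ^ m) + (r ^ m - 1) * a ^ m := by ring
      rw [e2]
      exact e1.add (hr.mul_right _)
    have g4 : |((b ^ m - a ^ m : ℤ) : ℝ)| < p := by
      push_cast
      calc |(b : ℝ) ^ m - (a : ℝ) ^ m| ≤ |(b : ℝ) ^ m| + |(a : ℝ) ^ m| := abs_sub _ _
        _ ≤ H ^ m + H ^ m := by
            rw [abs_pow, abs_pow]
            exact add_le_add (pow_le_pow_left₀ (abs_nonneg _) g2 m)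
              (pow_le_pow_left₀ (abs_nonneg _) g1 m)
        _ = 2 * H ^ m := by ring
        _ < p := hHm
    have g5 : |b ^ m - a ^ m| < (p : ℤ) := by exact_mod_cast g4
    have g6 := Int.eq_zero_of_abs_lt_dvd g3 g5
    have g7 : b = a := hm.strictMono_pow.injective (by
      show b ^ m = a ^ m
      linarith)
    have ha0 : a ≠ 0 := by
      rcases h2 with h | h
      · exact h
      · rw [← g7]; exact h
    have g8 : (p : ℤ) ∣ a * (r - 1) := by
      have := h1.neg_right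
      rw [g7] at this
      have e : a * (r - 1) = -(a - r * a) := by ring
      rw [e]
      exact this
    rcases hpp.dvd_or_dvd g8 with g9 | g9
    · have e1 := Int.le_of_dvd (abs_pos.2 ha0) ((dvd_abs _ _).2 g9)
      have e2 : (p : ℝ) ≤ |(a : ℝ)| := by exact_mod_cast e1
      linarith
    · exact hr1 g9
  obtain ⟨a₁, b₁, a₂, b₂, c1, c2, c3, c4, c5, c6, c7⟩ :=
    exists_basis p r hp0 H hH hshort R (by exact_mod_cast hR)
  obtain ⟨u, v, huv⟩ := hcop
  set e : ℤ := u * (r * s₁ - t₁) with he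
  set α₀ : ℤ := ⌊(U - s₁) / M⌋ with hα₀
  set α₁ : ℤ := ⌊(lam * U - s₁) / M⌋ with hα₁
  set β₀ : ℤ := ⌊(z * U - t₁) / M⌋ with hβ₀
  set β₁ : ℤ := ⌊(lam * z * U - t₁) / M⌋ with hβ₁
  have hcount := lat_count p r e hp0 a₁ b₁ a₂ b₂ R c1 c2 c3 c4 c5 c6 c7 α₀ α₁ β₀ β₁
  have hinj : ((Ioc α₀ α₁ ×ˢ Ioc β₀ β₁).filter (fun z => (p : ℤ) ∣ z.2 - r * z.1 - e)).card ≤
      (NN U lam z M s₁ t₁ p r).card := by
    refine card_le_card_of_injOn (fun w => (s₁ + M * w.1, t₁ + M * w.2)) ?_ ?_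
    · intro w hw
      rw [mem_coe, mem_filter, mem_product, mem_Ioc, mem_Ioc] at hw
      obtain ⟨⟨⟨g1, g2⟩, g3, g4⟩, g5⟩ := hw
      rw [hα₀, Int.floor_lt, div_lt_iff₀ hMR] at g1
      rw [hα₁, Int.le_floor, le_div_iff₀ hMR] at g2
      rw [hβ₀, Int.floor_lt, div_lt_iff₀ hMR] at g3
      rw [hβ₁, Int.le_floor, le_div_iff₀ hMR] at g4
      rw [mem_coe, mem_NN, SS, TT, mem_cl, mem_cl]
      refine ⟨⟨⟨?_, ?_, ?_⟩, ?_, ?_, ?_⟩, ?_, ?_⟩
      · push_cast; linarith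
      · push_cast; linarith
      · exact (Int.modEq_iff_dvd.2 ⟨-w.1, by ring⟩)
      · push_cast; linarith
      · push_cast; linarith
      · exact (Int.modEq_iff_dvd.2 ⟨-w.2, by ring⟩)
      · have e1 : (0 : ℝ) < ((s₁ + M * w.1 : ℤ) : ℝ) := by push_cast; linarith
        have e2 : ((s₁ + M * w.1 : ℤ) : ℝ) < p := by push_cast; linarith
        have e3 : 0 < s₁ + M * w.1 := by exact_mod_cast e1
        have e4 : s₁ + M * w.1 < p := by exact_mod_cast e2
        intro hd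
        have := Int.le_of_dvd e3 hd
        omega
      · refine (Int.modEq_iff_dvd.2 ?_)
        have e1 : r * (s₁ + M * w.1) - (t₁ + M * w.2) =
            -(M * (w.2 - r * w.1 - e)) + p * (v * (r * s₁ - t₁)) := by
          rw [he]
          linear_combination (-(r * s₁ - t₁)) * huv
        rw [e1]
        exact ((g5.mul_left _).neg_right).add (Dvd.intro _ rfl)
    · rintro ⟨a, b⟩ _ ⟨c, d⟩ _ h
      simp only [Prod.mk.injEq] at h
      have h1 : M * (a - c) = 0 := by linarith [h.1]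
      have h2 : M * (b - d) = 0 := by linarith [h.2]
      rcases mul_eq_zero.1 h1 with h1 | h1
      · omega
      rcases mul_eq_zero.1 h2 with h2 | h2
      · omega
      exact Prod.ext (by show a = c; omega) (by show b = d; omega)
  have hbox : ((lam - 1) * U / M - 1 - 4 * R) * (z * (lam - 1) * U / M - 1 - 4 * R) ≤
      (((Ioc (α₀ + 2 * R) (α₁ - 2 * R)) ×ˢ (Ioc (β₀ + 2 * R) (β₁ - 2 * R))).card : ℝ) := by
    rw [card_product]
    push_cast
    have k1 : (lam - 1) * U / M - 1 - 4 * R ≤ ((Ioc (α₀ + 2 * R) (α₁ - 2 * R)).card : ℝ) := by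
      rw [Int.card_Ioc]
      have e1 : (α₀ : ℝ) ≤ (U - s₁) / M := Int.floor_le _
      have e2 : (lam * U - s₁) / M < α₁ + 1 := Int.lt_floor_add_one _
      have e3 : (lam - 1) * U / M = (lam * U - s₁) / M - (U - s₁) / M := by ring
      have e4 : ((α₁ - 2 * R - (α₀ + 2 * R) : ℤ) : ℝ) ≤
          (((α₁ - 2 * R - (α₀ + 2 * R)).toNat : ℤ) : ℝ) := by
        exact_mod_cast Int.self_le_toNat _
      push_cast at e4
      have e5 : (((α₁ - 2 * R - (α₀ + 2 * R)).toNat : ℤ) : ℝ) =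
        (((α₁ - 2 * R - (α₀ + 2 * R)).toNat : ℕ) : ℝ) := by norm_cast
      push_cast at e5
      linarith
    have k2 : z * (lam - 1) * U / M - 1 - 4 * R ≤ ((Ioc (β₀ + 2 * R) (β₁ - 2 * R)).card : ℝ) := by
      rw [Int.card_Ioc]
      have e1 : (β₀ : ℝ) ≤ (z * U - t₁) / M := Int.floor_le _
      have e2 : (lam * z * U - t₁) / M < β₁ + 1 := Int.lt_floor_add_one _
      have e3 : z * (lam - 1) * U / M = (lam * z * U - t₁) / M - (z * U - t₁) / M := by ring
      have e4 : ((β₁ - 2 * R - (β₀ + 2 * R) : ℤ) : ℝ) ≤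
          (((β₁ - 2 * R - (β₀ + 2 * R)).toNat : ℤ) : ℝ) := by
        exact_mod_cast Int.self_le_toNat _
      push_cast at e4
      have e5 : (((β₁ - 2 * R - (β₀ + 2 * R)).toNat : ℤ) : ℝ) =
        (((β₁ - 2 * R - (β₀ + 2 * R)).toNat : ℕ) : ℝ) := by norm_cast
      push_cast at e5
      linarith
    exact mul_le_mul k1 k2 hB (Nat.cast_nonneg _)
  refine hbox.trans ?_
  have h1 : (((Ioc (α₀ + 2 * R) (α₁ - 2 * R)) ×ˢ (Ioc (β₀ + 2 * R) (β₁ - 2 * R))).card : ℤ) ≤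
      p * ((NN U lam z M s₁ t₁ p r).card : ℤ) :=
    hcount.trans (mul_le_mul_of_nonneg_left (by exact_mod_cast hinj) hp0.le)
  exact_mod_cast h1

end Pool.Agent.J4H71.CF
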