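import Pool.Agent.J4H71.CF.Mult

/-!
# A positive proportion of the pairs
-/

set_option autoImplicit false

namespace Pool.Agent.J4H71.CF

open Finset Filter Topology

theorem totient_even (m : ℕ) (hm : 2 ∣ m) (hm0 : m ≠ 0) : (m.totient : ℝ) ≤ m / 2 := by
  have h := Nat.totient_eq_mul_prod_factors m
  have h2 : 2 ∈ m.primeFactors := Nat.mem_primeFactors.2 ⟨Nat.prime_two, hm, hm0⟩
  have h3 : ∏ p ∈ m.primeFactors, (1 - ((p : ℚ))⁻¹) ≤ 1 / 2 := by
    rw [← mul_prod_erase _ _ h2]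
    have h4 : ∏ p ∈ m.primeFactors.erase 2, (1 - ((p : ℚ))⁻¹) ≤ 1 := by
      refine prod_le_one (fun p hp => ?_) (fun p hp => ?_)
      · have := (Nat.prime_of_mem_primeFactors (mem_of_mem_erase hp)).one_lt.le
        have h5 : (1 : ℚ) ≤ p := by exact_mod_cast this
        have := inv_le_one_of_one_le₀ h5
        linarith
      · have : (0 : ℚ) ≤ (p : ℚ)⁻¹ := by positivity
        linarith
    push_cast
    linarith
  have h5 : (m.totient : ℚ) ≤ m / 2 := by
    rw [h]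
    have : (0 : ℚ) ≤ m := Nat.cast_nonneg _
    nlinarith
  exact_mod_cast h5

/-- the total mass -/
theorem mass_lower (m : ℕ) (hm : 3 ≤ m) (M s₁ t₁ : ℤ) (hM : 0 < M) (lam z : ℝ) (hlam : 1 < lam)
    (hz : 0 < z) : ∃ C V₀ : ℝ, ∀ V : ℝ, V₀ ≤ V →
      (2 + 1 / (4 * (m : ℝ))) * ((lam - 1) / M * (z * (lam - 1) / M)) * (V ^ (6 * m)) ^ 2 *
        Real.log (V ^ (6 * m)) - C * (V ^ (6 * m)) ^ 2 ≤
      ∑ k ∈ Ioc ⌊V⌋₊ ⌊V ^ (6 * m + 5)⌋₊, lw (1 : ZMod 1) k *
        ((FF (V ^ (6 * m)) lam z M s₁ t₁ m k).card : ℝ) := by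
  have hMR : (0 : ℝ) < M := by exact_mod_cast hM
  have hmR : (3 : ℝ) ≤ m := by exact_mod_cast hm
  have hφ : (0 : ℝ) < m.totient := by exact_mod_cast Nat.totient_pos.2 (by omega)
  set μ : ℝ := 1 / (m : ℝ) with hμ
  have hμ0 : 0 < μ := by positivity
  have hμ1 : μ ≤ 1 / 3 := by
    rw [hμ]
    exact one_div_le_one_div_of_le (by norm_num) hmR
  have e1 : 1 / (4 * (m : ℝ)) = μ / 4 := by rw [hμ]; field_simp
  have e2 : 1 / (6 * (m : ℝ)) = μ / 6 := by rw [hμ]; field_simp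
  have e3 : 5 / (6 * (m : ℝ)) = 5 * μ / 6 := by rw [hμ]; field_simp
  set ρ : ℝ := ((m : ℝ) - 1) / m.totient with hρ
  have hlam0 : 0 < lam - 1 := by linarith
  set D : ℝ := (lam - 1) / M * (z * (lam - 1) / M) with hD
  have hD0 : 0 < D := by positivity
  obtain ⟨C₁, V₁, h₁⟩ := small_part m hm M s₁ t₁ hM lam z hlam hz (μ / 20) (by positivity)
    (by linarith)
  have hsq : 1 - μ / 10 ≤ (1 - μ / 20) ^ 2 := by nlinarith [sq_nonneg μ]
  rcases Nat.even_or_odd m with hev | hodd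
  · -- even `m`
    have hρ1 : 3 / 2 ≤ ρ := by
      have hm4 : (4 : ℝ) ≤ m := by
        have : 4 ≤ m := by
          rcases hev with ⟨k, hk⟩
          omega
        exact_mod_cast this
      have h1 := totient_even m hev.two_dvd (by omega)
      rw [hρ, div_le_div_iff₀ (by norm_num) hφ]
      linarith
    have hμ4 : μ ≤ 1 / 4 := by
      have hm4 : (4 : ℝ) ≤ m := by
        have : 4 ≤ m := by
          rcases hev with ⟨k, hk⟩
          omega
        exact_mod_cast this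
      rw [hμ]
      exact one_div_le_one_div_of_le (by norm_num) hm4
    refine ⟨C₁, max V₁ 1, fun V hV => ?_⟩
    rw [max_le_iff] at hV
    have h2 := h₁ V hV.1
    have hV1 := hV.2
    have hU1 : 1 ≤ V ^ (6 * m) := one_le_pow₀ hV1
    have hL : 0 ≤ Real.log (V ^ (6 * m)) := Real.log_nonneg hU1
    have hcoef : 2 + μ / 4 ≤ (1 - μ / 20) ^ 2 * (1 - μ / 6) * (1 + ρ) := by
      have g1 : (1 - μ / 10) * (1 - μ / 6) * (5 / 2) ≤
          (1 - μ / 20) ^ 2 * (1 - μ / 6) * (1 + ρ) := by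
        refine mul_le_mul (mul_le_mul_of_nonneg_right hsq (by linarith)) (by linarith)
          (by norm_num) (mul_nonneg (sq_nonneg _) (by linarith))
      nlinarith
    rw [e1]
    rw [e2] at h2
    refine le_trans ?_ (h2.trans ?_)
    · have g2 := mul_le_mul_of_nonneg_right hcoef
        (show 0 ≤ D * (V ^ (6 * m)) ^ 2 * Real.log (V ^ (6 * m)) by positivity)
      nlinarith
    · refine sum_le_sum_of_subset_of_nonneg (Ioc_subset_Ioc_right (Nat.floor_le_floor ?_))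
        fun k _ _ => mul_nonneg (lw_nonneg _ _) (Nat.cast_nonneg _)
      exact pow_le_pow_right₀ hV1 (by omega)
  · -- odd `m`
    have hρ1 : 1 ≤ ρ := by
      have h1 : m.totient < m := Nat.totient_lt m (by omega)
      have h2 : m.totient + 1 ≤ m := h1
      have h3 : (m.totient : ℝ) + 1 ≤ m := by exact_mod_cast h2
      rw [hρ, one_le_div hφ]
      linarith
    obtain ⟨C₂, V₂, h₂⟩ := big_part m hm hodd M s₁ t₁ hM lam z hlam hz (μ / 20) (by positivity)
      (by linarith)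
    refine ⟨C₁ + C₂, max (max V₁ V₂) 1, fun V hV => ?_⟩
    rw [max_le_iff, max_le_iff] at hV
    have h3 := h₁ V hV.1.1
    obtain ⟨h4, h5⟩ := h₂ V hV.1.2
    have hV1 := hV.2
    have hU1 : 1 ≤ V ^ (6 * m) := one_le_pow₀ hV1
    have hL : 0 ≤ Real.log (V ^ (6 * m)) := Real.log_nonneg hU1
    have hcoef : 2 + μ / 4 ≤ (1 - μ / 20) ^ 2 * (1 - μ / 6) * (1 + ρ) +
        (1 - μ / 20) ^ 2 * (5 * μ / 6) * ρ := by
      have g1 : (1 - μ / 10) * ((1 - μ / 6) * 2 + 5 * μ / 6) ≤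
          (1 - μ / 20) ^ 2 * ((1 - μ / 6) * (1 + ρ) + 5 * μ / 6 * ρ) := by
        refine mul_le_mul hsq ?_ ?_ (sq_nonneg _)
        · nlinarith
        · nlinarith
      nlinarith
    rw [e1]
    rw [e2] at h3
    rw [e3] at h5
    have g2 := mul_le_mul_of_nonneg_right hcoef
      (show 0 ≤ D * (V ^ (6 * m)) ^ 2 * Real.log (V ^ (6 * m)) by positivity)
    have g3 := add_le_add h3 h5
    refine le_trans ?_ (g3.trans ?_)
    · nlinarith
    · have hsub1 : ⌊V⌋₊ ≤ ⌊V ^ (6 * m)⌋₊ :=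
        Nat.floor_le_floor (le_self_pow₀ hV1 (by omega))
      have hsub2 : ⌊V ^ (6 * m)⌋₊ ≤ ⌊lam * V ^ (6 * m)⌋₊ := Nat.floor_le_floor (by nlinarith)
      have hsub3 : ⌊lam * V ^ (6 * m)⌋₊ ≤ ⌊V ^ (6 * m + 5)⌋₊ := Nat.floor_le_floor h4
      rw [← Finset.sum_Ioc_consecutive (fun k => lw (1 : ZMod 1) k *
          ((FF (V ^ (6 * m)) lam z M s₁ t₁ m k).card : ℝ)) (hsub1.trans hsub2) hsub3,
        ← Finset.sum_Ioc_consecutive (fun k => lw (1 : ZMod 1) k *
          ((FF (V ^ (6 * m)) lam z M s₁ t₁ m k).card : ℝ)) hsub1 hsub2]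
      have g4 : 0 ≤ ∑ k ∈ Ioc ⌊V ^ (6 * m)⌋₊ ⌊lam * V ^ (6 * m)⌋₊, lw (1 : ZMod 1) k *
          ((FF (V ^ (6 * m)) lam z M s₁ t₁ m k).card : ℝ) :=
        sum_nonneg fun k _ => mul_nonneg (lw_nonneg _ _) (Nat.cast_nonneg _)
      linarith

/-- **a positive proportion of the pairs has large exact part** -/
theorem many (m : ℕ) (hm : 3 ≤ m) (M s₁ t₁ : ℤ) (hM : 0 < M) (hcl : Cls M s₁ t₁)
    (hMy : ∀ p : ℕ, p.Prime → p ≤ 32 * m ^ 2 → (p : ℤ) ∣ M) (lam z : ℝ) (hlam : 1 < lam)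
    (hz : lam < z) : ∃ c : ℝ, 0 < c ∧ ∃ V₀ : ℝ, ∀ V : ℝ, V₀ ≤ V → ∃ G : Finset (ℤ × ℤ),
      c * (V ^ (6 * m)) ^ 2 ≤ (G.card : ℝ) ∧ ∀ w ∈ G, w ∈ ST (V ^ (6 * m)) lam z M s₁ t₁ ∧
        IsCoprime w.1 w.2 ∧ Real.log (lam ^ 2 * z * (V ^ (6 * m)) ^ 2) <
          ∑ p ∈ Pe V (V ^ (6 * m + 5)) m w, Real.log p := by
  classical
  have hMR : (0 : ℝ) < M := by exact_mod_cast hM
  have hmR : (3 : ℝ) ≤ m := by exact_mod_cast hm
  have hlam0 : 0 < lam - 1 := by linarith
  have hz0 : 0 < z := by linarith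
  obtain ⟨C₁, V₁, h₁⟩ := mass_lower m hm M s₁ t₁ hM lam z hlam hz0
  obtain ⟨C₂, V₂, h₂⟩ := nonexact m hm M s₁ t₁ hM lam z hlam hz
  set α : ℝ := (lam - 1) / M with hα
  set β : ℝ := z * (lam - 1) / M with hβ
  have hα0 : 0 < α := by positivity
  have hβ0 : 0 < β := by positivity
  set c₅ : ℝ := Real.log (lam ^ 2 * z) with hc₅
  have hlz : 1 < lam ^ 2 * z := by nlinarith
  have hc₅0 : 0 < c₅ := Real.log_pos hlz
  set C₆ : ℝ := C₁ + C₂ + (36 * (α + β) * m + 8 * lam * m) +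
    (c₅ * (α * β) + (2 * α + 2 * β + 4) * (2 + c₅)) with hC₆
  set K : ℝ := 16 * m * C₆ / (α * β) with hK
  refine ⟨α * β / (16 * m ^ 2), by positivity,
    max (max V₁ V₂) (max (max 2 (lam * z)) (Real.exp K)), fun V hV => ?_⟩
  rw [max_le_iff, max_le_iff, max_le_iff, max_le_iff] at hV
  obtain ⟨⟨hV1, hV2⟩, ⟨hV3, hV4⟩, hV5⟩ := hV
  have hV0 : 0 < V := by linarith
  have hV1' : 1 ≤ V := by linarith
  have g1 := h₁ V hV1
  have g2 := h₂ V hV2
  set U : ℝ := V ^ (6 * m) with hU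
  set Y : ℝ := V ^ (6 * m + 5) with hY
  have hVU : V ≤ U := le_self_pow₀ hV1' (by omega)
  have hU0 : 0 < U := by positivity
  have hU1 : 1 ≤ U := by linarith
  set L : ℝ := Real.log U with hL
  have hL0 : 0 < L := Real.log_pos (by linarith)
  have hLK : K ≤ L := by
    have e1 : K ≤ Real.log V := (Real.le_log_iff_exp_le hV0).2 hV5
    have e2 : Real.log V ≤ L := Real.log_le_log hV0 hVU
    linarith
  have hLU : L ≤ U := by
    have := Real.log_le_sub_one_of_pos hU0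
    linarith
  have hL2 : L ^ 2 ≤ 4 * U := by
    have e1 := Real.log_le_sub_one_of_pos (Real.sqrt_pos.2 hU0)
    rw [Real.log_sqrt hU0.le] at e1
    have e2 : L ≤ 2 * Real.sqrt U := by linarith
    have e3 := Real.mul_self_sqrt hU0.le
    nlinarith [Real.sqrt_nonneg U]
  have hlogz : Real.log (lam * z * U) ≤ 2 * L := by
    have e0 : 0 < lam * z := by positivity
    rw [Real.log_mul e0.ne' hU0.ne']
    have := Real.log_le_log e0 (hV4.trans hVU)
    linarith
  have hloglam : Real.log (lam * U) ≤ 2 * L := by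
    have e0 : 0 < lam := by linarith
    rw [Real.log_mul e0.ne' hU0.ne']
    have e1 : lam ≤ U := by nlinarith
    have := Real.log_le_log e0 e1
    linarith
  have hlog5 : Real.log (lam ^ 2 * z * U ^ 2) = c₅ + 2 * L := by
    rw [Real.log_mul (by positivity) (by positivity), Real.log_pow]
    push_cast
    ring
  -- the sets
  set P := ST U lam z M s₁ t₁ with hP
  set Cp := P.filter (fun w => IsCoprime w.1 w.2) with hCp
  set Nc := P.filter (fun w => ¬ IsCoprime w.1 w.2) with hNc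
  set G := Cp.filter (fun w => Real.log (lam ^ 2 * z * U ^ 2) <
    ∑ p ∈ Pe V Y m w, Real.log p) with hG
  have hPe : ∀ w, ∑ p ∈ Pe V Y m w, Real.log p ≤ ∑ p ∈ Pf V Y m w, Real.log (p : ℝ) := by
    intro w
    refine sum_le_sum_of_subset_of_nonneg ?_ fun p _ _ => Real.log_natCast_nonneg p
    intro p hp
    exact (mem_Pe.1 hp).1
  have hWf : ∀ w ∈ P, ∑ p ∈ Pf V Y m w, Real.log (p : ℝ) ≤ m * (2 * L) := by
    intro w hw
    refine (Wf_le V Y U lam z hU1 hlam hz M s₁ t₁ m (by omega) w hw).trans ?_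
    exact mul_le_mul_of_nonneg_left hlogz (by positivity)
  rw [exchange] at g1
  -- the sum over all pairs
  have hsum : ∑ w ∈ P, ∑ p ∈ Pf V Y m w, Real.log (p : ℝ) =
      ∑ w ∈ Cp, ∑ p ∈ Pf V Y m w, Real.log (p : ℝ) +
        ∑ w ∈ Nc, ∑ p ∈ Pf V Y m w, Real.log (p : ℝ) :=
    (sum_filter_add_sum_filter_not _ _ _).symm
  have hNcsum : ∑ w ∈ Nc, ∑ p ∈ Pf V Y m w, Real.log (p : ℝ) ≤ Nc.card * (m * (2 * L)) := by
    rw [← nsmul_eq_mul, ← sum_const]
    exact sum_le_sum fun w hw => hWf w (mem_filter.1 hw).1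
  have hCpsum := g2 Cp (fun w hw => by
    rw [hCp, mem_filter] at hw
    exact hw)
  have hCpe : ∑ w ∈ Cp, ∑ p ∈ Pe V Y m w, Real.log (p : ℝ) ≤
      G.card * (m * (2 * L)) + P.card * (c₅ + 2 * L) := by
    rw [← sum_filter_add_sum_filter_not Cp (fun w => Real.log (lam ^ 2 * z * U ^ 2) <
      ∑ p ∈ Pe V Y m w, Real.log p)]
    refine add_le_add ?_ ?_
    · rw [← nsmul_eq_mul, ← sum_const]
      refine sum_le_sum fun w hw => (hPe w).trans (hWf w ?_)
      exact (mem_filter.1 (mem_filter.1 hw).1).1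
    · have e1 : ∑ w ∈ Cp.filter (fun w => ¬ Real.log (lam ^ 2 * z * U ^ 2) <
          ∑ p ∈ Pe V Y m w, Real.log p), ∑ p ∈ Pe V Y m w, Real.log (p : ℝ) ≤
          (Cp.filter (fun w => ¬ Real.log (lam ^ 2 * z * U ^ 2) <
          ∑ p ∈ Pe V Y m w, Real.log p)).card * (c₅ + 2 * L) := by
        rw [← nsmul_eq_mul, ← sum_const]
        refine sum_le_sum fun w hw => ?_
        have := not_lt.1 (mem_filter.1 hw).2
        rwa [hlog5] at this
      refine e1.trans (mul_le_mul_of_nonneg_right ?_ (by positivity))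
      exact_mod_cast card_le_card ((filter_subset _ _).trans (filter_subset _ _))
  -- cardinalities
  have hPcard : (P.card : ℝ) ≤ (α * U + 2) * (β * U + 2) := by
    rw [hP, ST, card_product]
    push_cast
    have e1 := cl_upper U (lam * U) (by nlinarith) M s₁ hM
    have e2 := cl_upper (z * U) (lam * z * U) (by nlinarith [mul_pos hz0 hU0]) M t₁ hM
    have e3 : (lam * U - U) / M = α * U := by rw [hα]; ring
    have e4 : (lam * z * U - z * U) / M = β * U := by rw [hβ]; ring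
    rw [e3] at e1
    rw [e4] at e2
    exact mul_le_mul e1 e2 (Nat.cast_nonneg _) (by positivity)
  have hNccard := noncop U lam z hU1 hlam hz M s₁ t₁ hM (32 * m ^ 2) (by nlinarith) hcl hMy Nc
    (fun w hw => by
      rw [hNc, mem_filter] at hw
      exact hw)
  have e3 : (lam - 1) * U / M = α * U := by rw [hα]; ring
  have e4 : z * (lam - 1) * U / M = β * U := by rw [hβ]; ring
  rw [e3, e4] at hNccard
  push_cast at hNccard
  -- the estimates of the error terms
  set D : ℝ := α * β * U ^ 2 with hD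
  have hD0 : 0 < D := by positivity
  have hNc2 : (Nc.card : ℝ) * (m * (2 * L)) ≤ D * L / (16 * m) +
      (36 * (α + β) * m + 8 * lam * m) * U ^ 2 := by
    have f1 : (Nc.card : ℝ) ≤ D / (32 * m ^ 2) + 2 * (α * U + β * U) * (1 + 2 * L) +
        4 * (lam * U) := by
      have f2 : α * U * (β * U) / (32 * (m : ℝ) ^ 2) = D / (32 * m ^ 2) := by rw [hD]; ring
      have f3 : 2 * (α * U + β * U) * (1 + Real.log (lam * U)) ≤
          2 * (α * U + β * U) * (1 + 2 * L) :=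
        mul_le_mul_of_nonneg_left (by linarith) (by positivity)
      linarith
    have f4 := mul_le_mul_of_nonneg_right f1 (show 0 ≤ (m : ℝ) * (2 * L) by positivity)
    have f5 : (D / (32 * (m : ℝ) ^ 2) + 2 * (α * U + β * U) * (1 + 2 * L) +
        4 * (lam * U)) * (m * (2 * L)) = D * L / (16 * m) +
        2 * (α + β) * m * U * (2 * L + 4 * L ^ 2) + 8 * lam * m * U * L := by
      field_simp
      ring
    rw [f5] at f4
    have f6 : 2 * (α + β) * m * U * (2 * L + 4 * L ^ 2) ≤ 2 * (α + β) * m * U * (18 * U) :=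
      mul_le_mul_of_nonneg_left (by linarith) (by positivity)
    have f7 : 8 * lam * m * U * L ≤ 8 * lam * m * U * U :=
      mul_le_mul_of_nonneg_left hLU (by positivity)
    have f8 : 2 * (α + β) * m * U * (18 * U) + 8 * lam * m * U * U =
      (36 * (α + β) * m + 8 * lam * m) * U ^ 2 := by ring
    linarith
  have hP2 : (P.card : ℝ) * (c₅ + 2 * L) ≤ 2 * D * L +
      (c₅ * (α * β) + (2 * α + 2 * β + 4) * (2 + c₅)) * U ^ 2 := by
    have f1 := mul_le_mul_of_nonneg_right hPcard (show 0 ≤ c₅ + 2 * L by positivity)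
    have f2 : (α * U + 2) * (β * U + 2) ≤ D + (2 * α + 2 * β + 4) * U := by
      have : (α * U + 2) * (β * U + 2) = D + (2 * α + 2 * β) * U + 4 := by rw [hD]; ring
      rw [this]
      linarith
    have f3 := mul_le_mul_of_nonneg_right f2 (show 0 ≤ c₅ + 2 * L by positivity)
    have f4 : (D + (2 * α + 2 * β + 4) * U) * (c₅ + 2 * L) = 2 * D * L + c₅ * D +
        (2 * α + 2 * β + 4) * (U * (2 * L + c₅)) := by ring
    rw [f4] at f3
    have f5 : U * (2 * L + c₅) ≤ (2 + c₅) * U ^ 2 := by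
      have : U * (2 * L + c₅) ≤ U * (2 * U + c₅ * U) := by
        apply mul_le_mul_of_nonneg_left _ hU0.le
        nlinarith
      nlinarith
    have f6 := mul_le_mul_of_nonneg_left f5 (show 0 ≤ 2 * α + 2 * β + 4 by positivity)
    have f7 : c₅ * D = c₅ * (α * β) * U ^ 2 := by rw [hD]; ring
    rw [f7] at f3
    linarith
  have hKL : C₆ * U ^ 2 ≤ D * L / (16 * m) := by
    rw [hK, div_le_iff₀ (by positivity)] at hLK
    rw [le_div_iff₀ (by positivity)]
    have f1 := mul_le_mul_of_nonneg_right hLK (sq_nonneg U)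
    rw [hD]
    linarith
  refine ⟨G, ?_, fun w hw => ?_⟩
  · have f1 : (2 + 1 / (4 * (m : ℝ))) * (α * β) * U ^ 2 * L = 2 * D * L + D * L / (4 * m) := by
      rw [hD]
      field_simp
    rw [f1, hsum] at g1
    have f2 : D * L / (4 * (m : ℝ)) = D * L / (16 * m) + D * L / (16 * m) + D * L / (8 * m) := by
      field_simp
      norm_num
    have f3 : D * L / (8 * m) ≤ G.card * (m * (2 * L)) := by
      rw [hC₆] at hKL
      linarith
    have f4 : α * β / (16 * (m : ℝ) ^ 2) * U ^ 2 * (m * (2 * L)) = D * L / (8 * m) := by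
      rw [hD]
      field_simp
      norm_num
    rw [← f4] at f3
    exact le_of_mul_le_mul_right f3 (by positivity)
  · rw [hG, mem_filter, hCp, mem_filter] at hw
    exact ⟨hw.1.1, hw.1.2, hw.2⟩

end Pool.Agent.J4H71.CF
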