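import Pool.Agent.Cov.PNT

/-!
# A lower bound of Mertens type in arithmetic progressions
-/

set_option autoImplicit false

namespace Pool.Agent.J4H71.CF

open Finset Filter Topology ArithmeticFunction

/-- `log k` for the primes in the class `a`, otherwise `0` -/
noncomputable def lw {q : ℕ} (a : ZMod q) (k : ℕ) : ℝ :=
  open Classical in if k.Prime ∧ (k : ZMod q) = a then Real.log k else 0

theorem lw_nonneg {q : ℕ} (a : ZMod q) (k : ℕ) : 0 ≤ lw a k := by
  rw [lw]
  split_ifs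
  · exact Real.log_natCast_nonneg k
  · exact le_rfl

theorem theta_class (q : ℕ) (hq : 0 < q) (a : ZMod q) (ha : IsUnit a) (c : ℝ)
    (hc : c < (q.totient : ℝ)⁻¹) :
    ∃ n₀ : ℕ, ∀ n : ℕ, n₀ ≤ n → c * n ≤ ∑ k ∈ Ioc 0 n, lw a k := by
  classical
  have : NeZero q := ⟨hq.ne'⟩
  have h := (Pool.Agent.Cov.PNT.pnt_residueClass ha).comp (tendsto_natCast_atTop_atTop (R := ℝ))
  set φ := (q.totient : ℝ)⁻¹ with hφd
  set μ := (φ - c) / 2 with hμ
  have hμ0 : 0 < μ := by
    rw [hμ]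
    linarith
  have h1 := h.eventually_const_lt (show c + μ < φ by rw [hμ]; linarith)
  obtain ⟨C, hC⟩ := Chebyshev.psi_sub_theta_le_mul_sqrt
  have hs : Tendsto (fun n : ℕ => Real.sqrt (n : ℝ)) atTop atTop :=
    Real.tendsto_sqrt_atTop.comp tendsto_natCast_atTop_atTop
  have h2 := hs.eventually_ge_atTop (|C| / μ)
  obtain ⟨n₀, hn₀⟩ := eventually_atTop.1 ((h1.and h2).and (eventually_ge_atTop 1))
  refine ⟨n₀, fun n hn => ?_⟩
  obtain ⟨⟨h4, h5⟩, h6⟩ := hn₀ n hn
  have hnpos : (0 : ℝ) < n := by exact_mod_cast h6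
  simp only [Function.comp, Nat.floor_natCast] at h4
  rw [lt_div_iff₀ hnpos] at h4
  have hIcc : Icc 1 n = Ioc 0 n := by
    ext k
    simp only [mem_Icc, mem_Ioc]
    omega
  rw [hIcc] at h4
  have key : ∑ k ∈ Ioc 0 n, vonMangoldt.residueClass a k ≤
      ∑ k ∈ Ioc 0 n, lw a k + (Chebyshev.psi n - Chebyshev.theta n) := by
    have e1 : Chebyshev.psi n - Chebyshev.theta n =
        ∑ k ∈ Ioc 0 n, (vonMangoldt k - if k.Prime then Real.log k else 0) := by
      unfold Chebyshev.psi Chebyshev.theta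
      rw [Nat.floor_natCast, sum_sub_distrib, ← sum_filter]
    rw [e1, ← sum_add_distrib]
    refine sum_le_sum fun k _ => ?_
    have hrest : 0 ≤ (vonMangoldt k - if k.Prime then Real.log k else 0 : ℝ) := by
      split_ifs with hp
      · rw [vonMangoldt_apply_prime hp]; simp
      · simp [vonMangoldt_nonneg]
    rw [lw]
    by_cases hk : (k : ZMod q) = a
    · have e0 : vonMangoldt.residueClass a k = vonMangoldt k :=
        Set.indicator_of_mem (s := {n : ℕ | (n : ZMod q) = a}) hk _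
      rw [e0]
      by_cases hp : k.Prime
      · rw [if_pos ⟨hp, hk⟩, if_pos hp]; linarith
      · rw [if_neg (fun h => hp h.1), if_neg hp]; linarith
    · have e0 : vonMangoldt.residueClass a k = 0 :=
        Set.indicator_of_notMem (s := {n : ℕ | (n : ZMod q) = a}) hk _
      rw [e0, if_neg (fun h => hk h.2)]
      linarith
  have h8 := hC n
  have h9 : C * Real.sqrt n ≤ μ * n := by
    have hsq : Real.sqrt (n : ℝ) * Real.sqrt n = n := Real.mul_self_sqrt hnpos.le
    have hs0 : 0 ≤ Real.sqrt (n : ℝ) := Real.sqrt_nonneg _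
    rw [div_le_iff₀ hμ0] at h5
    calc C * Real.sqrt n ≤ |C| * Real.sqrt n := mul_le_mul_of_nonneg_right (le_abs_self C) hs0
      _ ≤ (Real.sqrt n * μ) * Real.sqrt n := mul_le_mul_of_nonneg_right h5 hs0
      _ = μ * (Real.sqrt n * Real.sqrt n) := by ring
      _ = μ * n := by rw [hsq]
  nlinarith

theorem abel (a : ℕ → ℝ) (V W : ℕ) (h : V ≤ W) :
    ∑ k ∈ Ioc V W, a k / k = (∑ k ∈ Ioc 0 W, a k) / (W + 1) - (∑ k ∈ Ioc 0 V, a k) / (V + 1) +
      ∑ k ∈ Ioc V W, (∑ j ∈ Ioc 0 k, a j) * (1 / (k : ℝ) - 1 / (k + 1)) := by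
  induction W, h using Nat.le_induction with
  | base => simp
  | succ W hW ih =>
    rw [sum_Ioc_succ_top (by omega), ih, sum_Ioc_succ_top (by omega : V ≤ W),
      sum_Ioc_succ_top (by omega : 0 ≤ W)]
    have h1 : (W : ℝ) + 1 ≠ 0 := by positivity
    have h2 : (W : ℝ) + 1 + 1 ≠ 0 := by positivity
    push_cast
    field_simp
    ring

theorem log_le_sum (V W : ℕ) (h : V ≤ W) :
    Real.log (W + 2) - Real.log (V + 2) ≤ ∑ k ∈ Ioc V W, 1 / ((k : ℝ) + 1) := by
  induction W, h using Nat.le_induction with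
  | base => simp
  | succ W hW ih =>
    rw [sum_Ioc_succ_top (by omega)]
    have h1 : (0 : ℝ) < (W : ℝ) + 2 := by positivity
    have h2 : (0 : ℝ) < (W : ℝ) + 1 + 2 := by positivity
    have h3 : Real.log ((W : ℝ) + 1 + 2) - Real.log (W + 2) ≤ 1 / ((W : ℝ) + 1 + 1) := by
      rw [← Real.log_div h2.ne' h1.ne']
      have h4 := Real.log_le_sub_one_of_pos (div_pos h2 h1)
      have h5 : ((W : ℝ) + 1 + 2) / (W + 2) - 1 = 1 / ((W : ℝ) + 1 + 1) := by
        field_simp
        ring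
      linarith
    push_cast
    linarith

theorem mertens (q : ℕ) (hq : 0 < q) (a : ZMod q) (ha : IsUnit a) (c : ℝ) (hc0 : 0 ≤ c)
    (hc : c < (q.totient : ℝ)⁻¹) :
    ∃ C : ℝ, ∃ n₀ : ℝ, 2 ≤ n₀ ∧ ∀ V W : ℝ, n₀ ≤ V → V ≤ W →
      c * (Real.log W - Real.log V) - C ≤ ∑ k ∈ Ioc ⌊V⌋₊ ⌊W⌋₊, lw a k / k := by
  classical
  obtain ⟨n₀, hn₀⟩ := theta_class q hq a ha c hc
  refine ⟨2 + c * (Real.log 2 + Real.log 3), n₀ + 2, by
    have : (0 : ℝ) ≤ n₀ := Nat.cast_nonneg _
    linarith, fun V' W' hV' hVW' => ?_⟩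
  have hn0 : (0 : ℝ) ≤ n₀ := Nat.cast_nonneg _
  have hV0 : (0 : ℝ) < V' := by linarith
  have hW0 : (0 : ℝ) < W' := by linarith
  set V := ⌊V'⌋₊ with hV
  set W := ⌊W'⌋₊ with hW
  have hVW : V ≤ W := Nat.floor_le_floor hVW'
  have hVn : n₀ + 2 ≤ V := by
    rw [hV]
    apply Nat.le_floor
    push_cast
    exact hV'
  have hV1 : (V : ℝ) ≤ V' := Nat.floor_le hV0.le
  have hW1 : W' < W + 1 := Nat.lt_floor_add_one _
  have hVR : (2 : ℝ) ≤ V := by exact_mod_cast (by omega : 2 ≤ V)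
  have hWR : (2 : ℝ) ≤ W := by exact_mod_cast (by omega : 2 ≤ W)
  rw [abel (lw a) V W hVW]
  have h1 : 0 ≤ (∑ k ∈ Ioc 0 W, lw a k) / (W + 1) :=
    div_nonneg (sum_nonneg fun k _ => lw_nonneg a k) (by positivity)
  have h2 : (∑ k ∈ Ioc 0 V, lw a k) / (V + 1) ≤ 2 := by
    rw [div_le_iff₀ (by positivity)]
    have e1 : ∑ k ∈ Ioc 0 V, lw a k ≤ Chebyshev.theta V := by
      unfold Chebyshev.theta
      rw [Nat.floor_natCast, sum_filter]
      refine sum_le_sum fun k _ => ?_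
      rw [lw]
      by_cases hp : k.Prime
      · rw [if_pos hp]
        split_ifs
        · exact le_rfl
        · exact Real.log_natCast_nonneg k
      · rw [if_neg hp, if_neg (fun h => hp h.1)]
    have e2 := Chebyshev.theta_le_log4_mul_x (x := (V : ℝ)) (Nat.cast_nonneg _)
    have e3 : Real.log 4 ≤ 2 := by
      have : Real.log 4 = 2 * Real.log 2 := by
        rw [show (4 : ℝ) = 2 ^ 2 by norm_num, Real.log_pow]
        norm_num
      rw [this]
      have := Real.log_two_lt_d9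
      linarith
    have e4 : Real.log 4 * (V : ℝ) ≤ 2 * V := mul_le_mul_of_nonneg_right e3 (by positivity)
    linarith
  have h3 : ∑ k ∈ Ioc V W, c * (1 / ((k : ℝ) + 1)) ≤
      ∑ k ∈ Ioc V W, (∑ j ∈ Ioc 0 k, lw a j) * (1 / (k : ℝ) - 1 / (k + 1)) := by
    refine sum_le_sum fun k hk => ?_
    rw [mem_Ioc] at hk
    have hk0 : (0 : ℝ) < k := by exact_mod_cast (by omega : 0 < k)
    have e1 := hn₀ k (by omega)
    have e2 : 0 ≤ 1 / (k : ℝ) - 1 / (k + 1) := by
      rw [sub_nonneg]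
      exact one_div_le_one_div_of_le hk0 (by linarith)
    calc c * (1 / ((k : ℝ) + 1)) = (c * k) * (1 / (k : ℝ) - 1 / (k + 1)) := by
          field_simp
          ring
      _ ≤ _ := mul_le_mul_of_nonneg_right e1 e2
  rw [← mul_sum] at h3
  have h4 := mul_le_mul_of_nonneg_left (log_le_sum V W hVW) hc0
  have h5 : Real.log W' ≤ Real.log (W + 2) := Real.log_le_log hW0 (by linarith)
  have h6 : Real.log ((V : ℝ) + 2) ≤ Real.log V' + (Real.log 2 + Real.log 3) := by
    rw [← Real.log_mul (by norm_num) (by norm_num), ← Real.log_mul hV0.ne' (by norm_num)]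
    exact Real.log_le_log (by positivity) (by linarith)
  have h7 : c * (Real.log W' - Real.log V' - (Real.log 2 + Real.log 3)) ≤
      c * (Real.log (W + 2) - Real.log (V + 2)) := mul_le_mul_of_nonneg_left (by linarith) hc0
  nlinarith

end Pool.Agent.J4H71.CF
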