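import Pool.Agent.J4H71.CF.Root
import Pool.Agent.J4H71.CF.Mert

/-!
# The total weight of the prime divisors of `t ^ m - s ^ m`
-/

set_option autoImplicit false

namespace Pool.Agent.J4H71.CF

open Finset Filter Topology

theorem FF_one (U lam z : ℝ) (hU : 0 < U) (hlam : 1 < lam) (hz : 0 < z) (M s₁ t₁ : ℤ) (hM : 0 < M)
    (m p : ℕ) (hp : p.Prime) (hpM : ¬ (p : ℤ) ∣ M) (ε : ℝ) (hε : 0 < ε)
    (hAε : (lam - 1) * U / p + 4 ≤ ε * ((lam - 1) * U / M)) :
    (1 - ε) * ((lam - 1) * U / M) * (z * (lam - 1) * U / M) / p - 2 * ((lam - 1) * U / M + 2) ≤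
      ((FF U lam z M s₁ t₁ m p).card : ℝ) := by
  have h1 := N_small U lam z hU hlam hz M s₁ t₁ hM p hp hpM ((1 : ℕ) : ℤ) ε hε hAε
  have h2 := sum_NN_le U lam z M s₁ t₁ m p hp {1} (by
    intro r hr
    rw [mem_singleton] at hr
    rw [hr]
    exact ⟨hp.one_lt, by simp⟩)
  rw [sum_singleton] at h2
  exact h1.trans (by exact_mod_cast h2)

theorem FF_m (U lam z : ℝ) (hU : 0 < U) (hlam : 1 < lam) (hz : 0 < z) (M s₁ t₁ : ℤ) (hM : 0 < M)
    (m p : ℕ) (hm : 1 ≤ m) (hp : p.Prime) (hpM : ¬ (p : ℤ) ∣ M) (hpm : (p : ZMod m) = 1) (ε : ℝ)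
    (hε : 0 < ε) (hAε : (lam - 1) * U / p + 4 ≤ ε * ((lam - 1) * U / M)) :
    m * ((1 - ε) * ((lam - 1) * U / M) * (z * (lam - 1) * U / M) / p -
      2 * ((lam - 1) * U / M + 2)) ≤ ((FF U lam z M s₁ t₁ m p).card : ℝ) := by
  obtain ⟨Rt, h1, -, h3⟩ := exists_roots m p hm hp hpm
  have h2 := sum_NN_le U lam z M s₁ t₁ m p hp Rt h3
  have h4 : ∑ r ∈ Rt, ((1 - ε) * ((lam - 1) * U / M) * (z * (lam - 1) * U / M) / p -
      2 * ((lam - 1) * U / M + 2)) ≤ ∑ r ∈ Rt, ((NN U lam z M s₁ t₁ p r).card : ℝ) :=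
    sum_le_sum fun r _ => N_small U lam z hU hlam hz M s₁ t₁ hM p hp hpM (r : ℤ) ε hε hAε
  rw [sum_const, h1, nsmul_eq_mul] at h4
  exact h4.trans (by exact_mod_cast h2)

theorem FF_big (U lam z : ℝ) (hU : 0 < U) (M s₁ t₁ : ℤ) (hM : 0 < M) (m : ℕ) (hm : Odd m)
    (p : ℕ) (hp : p.Prime) (hpM : ¬ (p : ℤ) ∣ M) (hpm : (p : ZMod m) = 1) (hpU : lam * U < p)
    (H : ℝ) (hH : 0 < H) (hHm : 2 * H ^ m < p) (R : ℤ)
    (hR : (p : ℝ) / H + Real.sqrt (2 * p) ≤ R)
    (hA : 0 ≤ (lam - 1) * U / M - 1 - 4 * R) (hB : 0 ≤ z * (lam - 1) * U / M - 1 - 4 * R) :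
    (m - 1) * (((lam - 1) * U / M - 1 - 4 * R) * (z * (lam - 1) * U / M - 1 - 4 * R) / p) ≤
      ((FF U lam z M s₁ t₁ m p).card : ℝ) := by
  classical
  have hm1 : 1 ≤ m := by
    rcases hm with ⟨k, hk⟩
    omega
  have hpR : (0 : ℝ) < p := by exact_mod_cast hp.pos
  obtain ⟨Rt, h1, h1', h3⟩ := exists_roots m p hm1 hp hpm
  have h2 := sum_NN_le U lam z M s₁ t₁ m p hp (Rt.erase 1)
    (fun r hr => h3 r (mem_of_mem_erase hr))
  have h4 : ∑ r ∈ Rt.erase 1, (((lam - 1) * U / M - 1 - 4 * R) *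
      (z * (lam - 1) * U / M - 1 - 4 * R) / p) ≤
      ∑ r ∈ Rt.erase 1, ((NN U lam z M s₁ t₁ p r).card : ℝ) := by
    refine sum_le_sum fun r hr => ?_
    rw [mem_erase] at hr
    rw [div_le_iff₀ hpR, mul_comm _ (p : ℝ)]
    refine N_big U lam z hU M s₁ t₁ hM m hm p hp hpM hpU r (h3 r hr.2).2 ?_ H hH hHm R hR hA hB
    intro hd
    have h5 := Int.eq_zero_of_abs_lt_dvd hd (by
      have e1 := (h3 r hr.2).1
      have e2 := hp.two_le
      rw [abs_lt]
      constructor <;> omega)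
    exact hr.1 (by omega)
  rw [sum_const, card_erase_of_mem h1', h1, nsmul_eq_mul, Nat.cast_sub hm1, Nat.cast_one] at h4
  exact h4.trans (by exact_mod_cast h2)

theorem lw_one (k : ℕ) : lw (1 : ZMod 1) k = if k.Prime then Real.log k else 0 := by
  classical
  rw [lw]
  have : ((k : ZMod 1) = 1) := Subsingleton.elim _ _
  simp [this]

theorem lw_le {q : ℕ} (a : ZMod q) (k : ℕ) : lw a k ≤ lw (1 : ZMod 1) k := by
  rw [lw_one, lw]
  by_cases hp : k.Prime
  · rw [if_pos hp]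
    split_ifs
    · exact le_rfl
    · exact Real.log_natCast_nonneg k
  · rw [if_neg hp, if_neg (fun h => hp h.1)]

theorem sum_lw_le (U : ℝ) (hU : 0 ≤ U) (V : ℕ) :
    ∑ k ∈ Ioc V ⌊U⌋₊, lw (1 : ZMod 1) k ≤ 2 * U := by
  have e1 : ∑ k ∈ Ioc V ⌊U⌋₊, lw (1 : ZMod 1) k ≤ Chebyshev.theta U := by
    unfold Chebyshev.theta
    rw [sum_filter]
    refine le_trans (sum_le_sum_of_subset_of_nonneg (Ioc_subset_Ioc_left (Nat.zero_le _))
      fun k _ _ => lw_nonneg _ k) ?_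
    refine sum_le_sum fun k _ => ?_
    rw [lw_one]
  have e2 := Chebyshev.theta_le_log4_mul_x hU
  have e3 : Real.log 4 ≤ 2 := by
    have : Real.log 4 = 2 * Real.log 2 := by
      rw [show (4 : ℝ) = 2 ^ 2 by norm_num, Real.log_pow]
      norm_num
    rw [this]
    have := Real.log_two_lt_d9
    linarith
  nlinarith

/-- the primes up to `U` -/
theorem small_part (m : ℕ) (hm : 3 ≤ m) (M s₁ t₁ : ℤ) (hM : 0 < M) (lam z : ℝ) (hlam : 1 < lam)
    (hz : 0 < z) (ε : ℝ) (hε : 0 < ε) (hε1 : ε < 1) :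
    ∃ C V₀ : ℝ, ∀ V : ℝ, V₀ ≤ V →
      (1 - ε) ^ 2 * (1 - 1 / (6 * (m : ℝ))) * (1 + (m - 1) / m.totient) *
        ((lam - 1) / M * (z * (lam - 1) / M)) * (V ^ (6 * m)) ^ 2 * Real.log (V ^ (6 * m)) -
        C * (V ^ (6 * m)) ^ 2 ≤
      ∑ k ∈ Ioc ⌊V⌋₊ ⌊V ^ (6 * m)⌋₊, lw (1 : ZMod 1) k *
        ((FF (V ^ (6 * m)) lam z M s₁ t₁ m k).card : ℝ) := by
  classical
  have hMR : (0 : ℝ) < M := by exact_mod_cast hM
  have hmR : (3 : ℝ) ≤ m := by exact_mod_cast hm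
  have hφ : (0 : ℝ) < m.totient := by exact_mod_cast Nat.totient_pos.2 (by omega)
  have h1ε : 0 < 1 - ε := by linarith
  obtain ⟨C₀, n₀, hn₀2, hC₀⟩ := mertens 1 one_pos 1 isUnit_one (1 - ε) h1ε.le (by simp [hε])
  obtain ⟨C₁, n₁, hn₁2, hC₁⟩ := mertens m (by omega) 1 isUnit_one ((1 - ε) / m.totient)
    (by positivity) (by rw [div_eq_mul_inv]; nlinarith [inv_pos.2 hφ])
  set α : ℝ := (lam - 1) / M with hα
  set β : ℝ := z * (lam - 1) / M with hβ
  have hlam0 : 0 < lam - 1 := by linarith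
  have hα0 : 0 < α := by positivity
  have hβ0 : 0 < β := by positivity
  refine ⟨(1 - ε) * (α * β) * (C₀ + (m - 1) * C₁) + 4 * m * (α + 2),
    max (max n₀ n₁) (max (max (2 * M / ε) (8 / (ε * α))) (max M 2)), fun V hV => ?_⟩
  rw [max_le_iff, max_le_iff, max_le_iff, max_le_iff, max_le_iff] at hV
  obtain ⟨⟨hV1, hV2⟩, ⟨hV3, hV4⟩, hV5, hV6⟩ := hV
  have hV0 : 0 < V := by linarith
  set U : ℝ := V ^ (6 * m) with hU
  have hVU : V ≤ U := le_self_pow₀ (by linarith) (by omega)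
  have hU0 : 0 < U := by positivity
  have hU1 : 1 ≤ U := by linarith
  have hlog : Real.log V = Real.log U / (6 * m) := by
    rw [hU, Real.log_pow]
    push_cast
    field_simp
  have hlogU0 : 0 ≤ Real.log U := Real.log_nonneg hU1
  set E : ℕ → ℝ := fun k => (1 - ε) * (α * U) * (β * U) / k - 2 * (α * U + 2) with hE
  have hEeq : ∀ k : ℕ, (1 - ε) * ((lam - 1) * U / M) * (z * (lam - 1) * U / M) / k -
      2 * ((lam - 1) * U / M + 2) = E k := by
    intro k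
    simp only [hE, hα, hβ]
    ring
  have hcond : ∀ k : ℕ, V < k → (lam - 1) * U / k + 4 ≤ ε * ((lam - 1) * U / M) := by
    intro k hk
    have hk0 : (0 : ℝ) < k := by linarith
    have e1 : (lam - 1) * U / k ≤ (lam - 1) * U / V :=
      div_le_div_of_nonneg_left (by positivity) hV0 hk.le
    have e2 : (lam - 1) * U / V ≤ ε * ((lam - 1) * U / M) / 2 := by
      rw [div_le_iff₀ hV0]
      rw [div_le_iff₀ hε] at hV3
      have e3 : ε * ((lam - 1) * U / M) / 2 * V = ((lam - 1) * U) * ((V * ε) / (2 * M)) := by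
        field_simp
      rw [e3]
      have e4 : 1 ≤ V * ε / (2 * M) := by
        rw [le_div_iff₀ (by positivity)]
        linarith
      have e5 : 0 < (lam - 1) * U := by positivity
      nlinarith
    have e6 : 4 ≤ ε * ((lam - 1) * U / M) / 2 := by
      rw [div_le_iff₀ (by positivity)] at hV4
      have e7 : ε * ((lam - 1) * U / M) / 2 = ε * α * U / 2 := by rw [hα]; ring
      rw [e7]
      have e8 : V * (ε * α) ≤ U * (ε * α) := mul_le_mul_of_nonneg_right hVU (by positivity)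
      linarith
    linarith
  -- the termwise inequality
  have hterm : ∀ k ∈ Ioc ⌊V⌋₊ ⌊U⌋₊, (lw (1 : ZMod 1) k + (m - 1) * lw (1 : ZMod m) k) * E k ≤
      lw (1 : ZMod 1) k * ((FF U lam z M s₁ t₁ m k).card : ℝ) := by
    intro k hk
    rw [mem_Ioc, Nat.floor_lt hV0.le] at hk
    by_cases hp : k.Prime
    · have hl1 : lw (1 : ZMod 1) k = Real.log k := by rw [lw_one, if_pos hp]
      have hl0 : 0 ≤ Real.log k := Real.log_natCast_nonneg k
      have hkM : ¬ (k : ℤ) ∣ M := by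
        intro h
        have h1 := Int.le_of_dvd hM h
        have h2 : (k : ℝ) ≤ M := by exact_mod_cast h1
        linarith [hk.1]
      by_cases hkm : (k : ZMod m) = 1
      · have hl2 : lw (1 : ZMod m) k = Real.log k := by rw [lw, if_pos ⟨hp, hkm⟩]
        have h1 := FF_m U lam z hU0 hlam hz M s₁ t₁ hM m k (by omega) hp hkM hkm ε hε
          (hcond k hk.1)
        rw [hEeq] at h1
        rw [hl1, hl2]
        have h2 := mul_le_mul_of_nonneg_left h1 hl0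
        linarith
      · have hl2 : lw (1 : ZMod m) k = 0 := by rw [lw, if_neg (fun h => hkm h.2)]
        have h1 := FF_one U lam z hU0 hlam hz M s₁ t₁ hM m k hp hkM ε hε (hcond k hk.1)
        rw [hEeq] at h1
        rw [hl1, hl2]
        have h2 := mul_le_mul_of_nonneg_left h1 hl0
        linarith
    · have hl1 : lw (1 : ZMod 1) k = 0 := by rw [lw_one, if_neg hp]
      have hl2 : lw (1 : ZMod m) k = 0 := by rw [lw, if_neg (fun h => hp h.1)]
      rw [hl1, hl2]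
      simp
  refine le_trans ?_ (sum_le_sum hterm)
  have hsum : ∑ k ∈ Ioc ⌊V⌋₊ ⌊U⌋₊, (lw (1 : ZMod 1) k + (m - 1) * lw (1 : ZMod m) k) * E k =
      (1 - ε) * (α * U) * (β * U) * (∑ k ∈ Ioc ⌊V⌋₊ ⌊U⌋₊, lw (1 : ZMod 1) k / k +
        (m - 1) * ∑ k ∈ Ioc ⌊V⌋₊ ⌊U⌋₊, lw (1 : ZMod m) k / k) -
      2 * (α * U + 2) * (∑ k ∈ Ioc ⌊V⌋₊ ⌊U⌋₊, lw (1 : ZMod 1) k +
        (m - 1) * ∑ k ∈ Ioc ⌊V⌋₊ ⌊U⌋₊, lw (1 : ZMod m) k) := by
    rw [mul_sum, mul_sum, ← sum_add_distrib, ← sum_add_distrib, mul_sum, mul_sum,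
      ← sum_sub_distrib]
    refine sum_congr rfl fun k _ => ?_
    simp only [hE]
    ring
  rw [hsum]
  have h1 := hC₀ V U hV1 hVU
  have h2 := hC₁ V U hV2 hVU
  have h3 := sum_lw_le U hU0.le ⌊V⌋₊
  have h4 : ∑ k ∈ Ioc ⌊V⌋₊ ⌊U⌋₊, lw (1 : ZMod m) k ≤ 2 * U :=
    (sum_le_sum fun k _ => lw_le _ k).trans h3
  have h5 : ∑ k ∈ Ioc ⌊V⌋₊ ⌊U⌋₊, lw (1 : ZMod 1) k +
        (m - 1) * ∑ k ∈ Ioc ⌊V⌋₊ ⌊U⌋₊, lw (1 : ZMod m) k ≤ 2 * U * m := by
    have := mul_le_mul_of_nonneg_left h4 (show (0 : ℝ) ≤ m - 1 by linarith)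
    linarith
  have h6 : 2 * (α * U + 2) * (∑ k ∈ Ioc ⌊V⌋₊ ⌊U⌋₊, lw (1 : ZMod 1) k +
        (m - 1) * ∑ k ∈ Ioc ⌊V⌋₊ ⌊U⌋₊, lw (1 : ZMod m) k) ≤ 4 * m * (α + 2) * U ^ 2 := by
    calc _ ≤ 2 * (α * U + 2) * (2 * U * m) := mul_le_mul_of_nonneg_left h5 (by positivity)
      _ = 4 * m * (α * U ^ 2 + 2 * U) := by ring
      _ ≤ 4 * m * (α * U ^ 2 + 2 * U ^ 2) := by
          apply mul_le_mul_of_nonneg_left _ (by positivity)
          nlinarith
      _ = _ := by ring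
  have h7 : (1 - ε) * (1 - 1 / (6 * (m : ℝ))) * (1 + (m - 1) / m.totient) * Real.log U -
      (C₀ + (m - 1) * C₁) ≤ ∑ k ∈ Ioc ⌊V⌋₊ ⌊U⌋₊, lw (1 : ZMod 1) k / k +
        (m - 1) * ∑ k ∈ Ioc ⌊V⌋₊ ⌊U⌋₊, lw (1 : ZMod m) k / k := by
    have e1 := mul_le_mul_of_nonneg_left h2 (show (0 : ℝ) ≤ m - 1 by linarith)
    have e2 : (1 - ε) * (1 - 1 / (6 * (m : ℝ))) * (1 + (m - 1) / m.totient) * Real.log U =
        (1 - ε) * (Real.log U - Real.log V) +
          (m - 1) * ((1 - ε) / m.totient * (Real.log U - Real.log V)) := by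
      rw [hlog]
      field_simp
    rw [e2]
    linarith
  have h8 := mul_le_mul_of_nonneg_left h7
    (show 0 ≤ (1 - ε) * (α * U) * (β * U) by positivity)
  have h9 : (1 - ε) ^ 2 * (1 - 1 / (6 * (m : ℝ))) * (1 + (m - 1) / m.totient) *
        (α * β) * U ^ 2 * Real.log U -
        ((1 - ε) * (α * β) * (C₀ + (m - 1) * C₁) + 4 * m * (α + 2)) * U ^ 2 =
      (1 - ε) * (α * U) * (β * U) * ((1 - ε) * (1 - 1 / (6 * (m : ℝ))) *
        (1 + (m - 1) / m.totient) * Real.log U - (C₀ + (m - 1) * C₁)) -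
        4 * m * (α + 2) * U ^ 2 := by ring
  rw [h9]
  linarith

/-- the primes larger than `lam * U` -/
theorem big_part (m : ℕ) (hm : 3 ≤ m) (hodd : Odd m) (M s₁ t₁ : ℤ) (hM : 0 < M) (lam z : ℝ)
    (hlam : 1 < lam) (hz : 0 < z) (ε : ℝ) (hε : 0 < ε) (hε1 : ε < 1) :
    ∃ C V₀ : ℝ, ∀ V : ℝ, V₀ ≤ V → lam * V ^ (6 * m) ≤ V ^ (6 * m + 5) ∧
      (1 - ε) ^ 2 * (5 / (6 * (m : ℝ))) * ((m - 1) / m.totient) *
        ((lam - 1) / M * (z * (lam - 1) / M)) * (V ^ (6 * m)) ^ 2 * Real.log (V ^ (6 * m)) -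
        C * (V ^ (6 * m)) ^ 2 ≤
      ∑ k ∈ Ioc ⌊lam * V ^ (6 * m)⌋₊ ⌊V ^ (6 * m + 5)⌋₊, lw (1 : ZMod 1) k *
        ((FF (V ^ (6 * m)) lam z M s₁ t₁ m k).card : ℝ) := by
  classical
  have hMR : (0 : ℝ) < M := by exact_mod_cast hM
  have hmR : (3 : ℝ) ≤ m := by exact_mod_cast hm
  have hφ : (0 : ℝ) < m.totient := by exact_mod_cast Nat.totient_pos.2 (by omega)
  have h1ε : 0 < 1 - ε := by linarith
  obtain ⟨C₁, n₁, hn₁2, hC₁⟩ := mertens m (by omega) 1 isUnit_one ((1 - ε) / m.totient)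
    (by positivity) (by rw [div_eq_mul_inv]; nlinarith [inv_pos.2 hφ])
  set α : ℝ := (lam - 1) / M with hα
  set β : ℝ := z * (lam - 1) / M with hβ
  have hlam0 : 0 < lam - 1 := by linarith
  have hα0 : 0 < α := by positivity
  have hβ0 : 0 < β := by positivity
  refine ⟨(1 - ε) * (α * β) * (m - 1) * ((1 - ε) / m.totient * Real.log lam + C₁),
    max (max n₁ lam) (max (max (42 / (ε * α)) (42 / (ε * β))) (max M 2)), fun V hV => ?_⟩
  rw [max_le_iff, max_le_iff, max_le_iff, max_le_iff, max_le_iff] at hV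
  obtain ⟨⟨hV1, hV2⟩, ⟨hV3, hV4⟩, hV5, hV6⟩ := hV
  have hV0 : 0 < V := by linarith
  have hV1' : 1 ≤ V := by linarith
  set U : ℝ := V ^ (6 * m) with hU
  have hVU : V ≤ U := le_self_pow₀ hV1' (by omega)
  have hU0 : 0 < U := by positivity
  have hU1 : 1 ≤ U := by linarith
  have hlogV : Real.log V = Real.log U / (6 * m) := by
    rw [hU, Real.log_pow]
    push_cast
    field_simp
  set Y : ℝ := V ^ (6 * m + 5) with hY
  have hYU : Y = U * V ^ 5 := by rw [hY, hU, pow_add]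
  have hlamY : lam * U ≤ Y := by
    rw [hYU]
    have : V ≤ V ^ 5 := le_self_pow₀ hV1' (by norm_num)
    nlinarith
  refine ⟨hlamY, ?_⟩
  have hY0 : 0 < Y := by positivity
  have hlogY : Real.log Y = Real.log U + 5 / (6 * m) * Real.log U := by
    rw [hYU, Real.log_mul hU0.ne' (by positivity), Real.log_pow V 5, hlogV]
    push_cast
    ring
  -- the quantity `R`
  set Q : ℝ := V ^ (6 * m - 1) with hQ
  have hQU : Q * V = U := by
    rw [hQ, hU, ← pow_succ]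
    congr 1
    omega
  have hQ1 : 1 ≤ Q := one_le_pow₀ hV1'
  set H : ℝ := V ^ 6 / 2 with hH
  have hH0 : 0 < H := by positivity
  have hHm : 2 * H ^ m ≤ U := by
    rw [hH, div_pow, ← pow_mul]
    have e1 : (2 : ℝ) ≤ 2 ^ m := le_self_pow₀ (by norm_num) (by omega)
    have e2 : 2 * (V ^ (6 * m) / 2 ^ m) ≤ V ^ (6 * m) := by
      rw [mul_div_assoc', div_le_iff₀ (by positivity)]
      have : 0 < V ^ (6 * m) := by positivity
      nlinarith
    exact e2
  set R : ℤ := ⌈4 * Q⌉ with hR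
  have hR1 : 4 * Q ≤ R := Int.le_ceil _
  have hR2 : (R : ℝ) < 4 * Q + 1 := Int.ceil_lt_add_one _
  have hRp : ∀ p : ℝ, 0 < p → p ≤ Y → p / H + Real.sqrt (2 * p) ≤ R := by
    intro p hp0 hp
    refine le_trans ?_ hR1
    have e1 : p / H ≤ 2 * Q := by
      rw [div_le_iff₀ hH0]
      have e2 : 2 * Q * H = Y := by
        rw [hH, hQ, hY]
        have : V ^ (6 * m + 5) = V ^ (6 * m - 1) * V ^ 6 := by
          rw [← pow_add]
          congr 1
          omega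
        rw [this]
        ring
      rw [e2]
      exact hp
    have e3 : Real.sqrt (2 * p) ≤ 2 * Q := by
      rw [Real.sqrt_le_left (by positivity)]
      have e4 : Y ≤ Q ^ 2 := by
        rw [hY, hQ, ← pow_mul]
        exact pow_le_pow_right₀ hV1' (by omega)
      nlinarith
    linarith
  have hAR : ∀ γ : ℝ, 0 < γ → 42 / (ε * γ) ≤ V → 1 + 4 * (R : ℝ) ≤ ε / 2 * (γ * U) := by
    intro γ hγ hVγ
    rw [div_le_iff₀ (by positivity)] at hVγ
    have e1 : 1 + 4 * (R : ℝ) ≤ 21 * Q := by linarith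
    have e2 : 42 * Q ≤ V * (ε * γ) * Q := mul_le_mul_of_nonneg_right hVγ (by positivity)
    have e3 : V * (ε * γ) * Q = ε * (γ * U) := by
      rw [← hQU]
      ring
    rw [e3] at e2
    linarith
  have hA1 := hAR α hα0 hV3
  have hB1 := hAR β hβ0 hV4
  have hαU : 0 < α * U := by positivity
  have hβU : 0 < β * U := by positivity
  have hprod : (1 - ε) * ((α * U) * (β * U)) ≤
      ((lam - 1) * U / M - 1 - 4 * R) * (z * (lam - 1) * U / M - 1 - 4 * R) := by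
    have e1 : (lam - 1) * U / M = α * U := by rw [hα]; ring
    have e2 : z * (lam - 1) * U / M = β * U := by rw [hβ]; ring
    rw [e1, e2]
    have e3 : (1 - ε / 2) * (α * U) ≤ α * U - 1 - 4 * R := by linarith
    have e4 : (1 - ε / 2) * (β * U) ≤ β * U - 1 - 4 * R := by linarith
    have e5 : 0 ≤ (1 - ε / 2) * (β * U) := mul_nonneg (by linarith) hβU.le
    have e6 : 0 ≤ α * U - 1 - 4 * R := by
      have : 0 ≤ (1 - ε / 2) * (α * U) := mul_nonneg (by linarith) hαU.le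
      linarith
    refine le_trans ?_ (mul_le_mul e3 e4 e5 e6)
    have e7 : 0 < (α * U) * (β * U) := by positivity
    nlinarith [sq_nonneg ε]
  have hterm : ∀ k ∈ Ioc ⌊lam * U⌋₊ ⌊Y⌋₊, (1 - ε) * ((α * U) * (β * U)) * (m - 1) *
      (lw (1 : ZMod m) k / k) ≤ lw (1 : ZMod 1) k * ((FF U lam z M s₁ t₁ m k).card : ℝ) := by
    intro k hk
    rw [mem_Ioc, Nat.floor_lt (by positivity), Nat.le_floor_iff hY0.le] at hk
    have hkU : U < k := by nlinarith [hk.1]
    have hk0 : (0 : ℝ) < k := by linarith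
    by_cases h : k.Prime ∧ (k : ZMod m) = 1
    · have hl1 : lw (1 : ZMod 1) k = Real.log k := by rw [lw_one, if_pos h.1]
      have hl2 : lw (1 : ZMod m) k = Real.log k := by rw [lw, if_pos h]
      have hl0 : 0 ≤ Real.log k := Real.log_natCast_nonneg k
      have hkM : ¬ (k : ℤ) ∣ M := by
        intro h
        have h1 := Int.le_of_dvd hM h
        have h2 : (k : ℝ) ≤ M := by exact_mod_cast h1
        linarith
      have h1 := FF_big U lam z hU0 M s₁ t₁ hM m hodd k h.1 hkM h.2 hk.1 H hH0 (by linarith) R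
        (hRp k hk0 hk.2) (by
          have e1 : (lam - 1) * U / M = α * U := by rw [hα]; ring
          rw [e1]
          have : ε / 2 * (α * U) ≤ α * U := by nlinarith
          linarith) (by
          have e1 : z * (lam - 1) * U / M = β * U := by rw [hβ]; ring
          rw [e1]
          have : ε / 2 * (β * U) ≤ β * U := by nlinarith
          linarith)
      rw [hl1, hl2]
      have h2 : (1 - ε) * ((α * U) * (β * U)) / k ≤
          ((lam - 1) * U / M - 1 - 4 * R) * (z * (lam - 1) * U / M - 1 - 4 * R) / k :=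
        div_le_div_of_nonneg_right hprod hk0.le
      have h3 := mul_le_mul_of_nonneg_left h2 (show (0 : ℝ) ≤ m - 1 by linarith)
      have h4 := mul_le_mul_of_nonneg_left (h3.trans h1) hl0
      calc (1 - ε) * ((α * U) * (β * U)) * (m - 1) * (Real.log k / k)
          = Real.log k * ((m - 1) * ((1 - ε) * ((α * U) * (β * U)) / k)) := by ring
        _ ≤ _ := h4
    · have hl2 : lw (1 : ZMod m) k = 0 := by rw [lw, if_neg h]
      rw [hl2]
      have := mul_nonneg (lw_nonneg (1 : ZMod 1) k)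
        (Nat.cast_nonneg (α := ℝ) (FF U lam z M s₁ t₁ m k).card)
      simpa using this
  refine le_trans ?_ (sum_le_sum hterm)
  rw [← mul_sum]
  have h1 := hC₁ (lam * U) Y (by nlinarith) hlamY
  have h2 : Real.log Y - Real.log (lam * U) = 5 / (6 * m) * Real.log U - Real.log lam := by
    rw [hlogY, Real.log_mul (by linarith) hU0.ne']
    ring
  rw [h2] at h1
  have h3 := mul_le_mul_of_nonneg_left h1
    (show 0 ≤ (1 - ε) * ((α * U) * (β * U)) * (m - 1) from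
      mul_nonneg (by positivity) (by linarith))
  refine le_trans (le_of_eq ?_) h3
  ring

end Pool.Agent.J4H71.CF
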