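import Pool.Agent.J4H71.CF.Upp
import Pool.Agent.J4H71.CF.Count

/-!
# Many pairs, and the multiplicity of the discriminants
-/

set_option autoImplicit false

namespace Pool.Agent.J4H71.CF

open Finset Filter Topology

/-- the residues of the roots of unity -/
noncomputable def Rp (m p : ℕ) : Finset ℕ := by
  classical
  exact (range p).filter (fun r => (r : ZMod p) ^ m = 1)

theorem card_Rp_le (m p : ℕ) (hm : 1 ≤ m) (hp : p.Prime) : (Rp m p).card ≤ m := by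
  classical
  have : Fact p.Prime := ⟨hp⟩
  have h1 : (Rp m p).card = ((Rp m p).image (fun r : ℕ => (r : ZMod p))).card := by
    rw [card_image_of_injOn]
    intro a ha b hb hab
    rw [mem_coe, Rp, mem_filter, mem_range] at ha hb
    have h2 : ((a : ℕ) : ZMod p) = b := hab
    have h3 := (ZMod.natCast_eq_natCast_iff' a b p).1 h2
    rwa [Nat.mod_eq_of_lt ha.1, Nat.mod_eq_of_lt hb.1] at h3
  rw [h1]
  refine card_roots_le p m hm 1 _ fun x hx => ?_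
  obtain ⟨r, hr, rfl⟩ := mem_image.1 hx
  rw [Rp, mem_filter] at hr
  exact hr.2

/-- the code of a pair -/
noncomputable def code (V Y : ℝ) (m : ℕ) (w : ℤ × ℤ) : Finset (Σ _ : ℕ, ℕ) := by
  classical
  exact (Pe V Y m w).image (fun p => ⟨p, ((w.2 : ZMod p) * (w.1 : ZMod p)⁻¹).val⟩)

/-- **the multiplicity of the discriminants** -/
theorem mult_le (V Y U lam z : ℝ) (hV : 1 ≤ V) (hU : 1 ≤ U) (hlam : 1 < lam) (hz : lam < z)
    (M s₁ t₁ : ℤ) (m : ℕ) (hm : 1 ≤ m) (G : Finset (ℤ × ℤ))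
    (hG : ∀ w ∈ G, w ∈ ST U lam z M s₁ t₁ ∧ IsCoprime w.1 w.2 ∧
      Real.log (lam ^ 2 * z * U ^ 2) < ∑ p ∈ Pe V Y m w, Real.log p)
    (d : ℤ × ℤ → ℤ) (X : ℝ) (k₀ : ℕ) (hd0 : ∀ w ∈ G, d w ≠ 0) (hdX : ∀ w ∈ G, |(d w : ℝ)| ≤ X)
    (hdvd : ∀ w ∈ G, ∀ p ∈ Pe V Y m w, (p : ℤ) ∣ d w) (hX : X < V ^ (k₀ + 1)) :
    G.card ≤ 2 ^ (m * k₀) * (G.image d).card := by
  classical
  refine card_le_mul_card_image G _ fun b hb => ?_
  obtain ⟨w₀, hw₀, rfl⟩ := mem_image.1 hb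
  have hb0 : (d w₀).natAbs ≠ 0 := Int.natAbs_ne_zero.2 (hd0 w₀ hw₀)
  have hbB : (((d w₀).natAbs : ℕ) : ℝ) ≤ X := by
    have := hdX w₀ hw₀
    rwa [← Int.cast_abs, Int.abs_eq_natAbs] at this
  have hT := card_primes_le (d w₀).natAbs hb0 V X k₀ hV hbB hX
  set T := (d w₀).natAbs.primeFactors.filter (fun p : ℕ => V < p) with hTdef
  set R : Finset (Σ _ : ℕ, ℕ) := T.sigma (fun p => Rp m p) with hR
  have hRcard : R.card ≤ m * k₀ := by
    rw [hR, card_sigma]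
    calc ∑ p ∈ T, (Rp m p).card ≤ ∑ _p ∈ T, m := by
          refine sum_le_sum fun p hp => card_Rp_le m p hm ?_
          rw [hTdef, mem_filter] at hp
          exact Nat.prime_of_mem_primeFactors hp.1
      _ = T.card * m := by rw [sum_const, smul_eq_mul]
      _ ≤ k₀ * m := Nat.mul_le_mul_right _ hT
      _ = m * k₀ := mul_comm _ _
  have hpow : R.powerset.card ≤ 2 ^ (m * k₀) := by
    rw [card_powerset]
    exact Nat.pow_le_pow_right (by norm_num) hRcard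
  refine le_trans (card_le_card_of_injOn (code V Y m) ?_ ?_) hpow
  · intro w hw
    rw [mem_coe, mem_filter] at hw
    rw [mem_coe, mem_powerset]
    intro c hc
    rw [code, mem_image] at hc
    obtain ⟨p, hp, rfl⟩ := hc
    have hp' := mem_Pf.1 (mem_Pe.1 hp).1
    have : Fact p.Prime := ⟨hp'.2.1⟩
    have hpd := hdvd w hw.1 p hp
    rw [hw.2] at hpd
    rw [hR, mem_sigma, hTdef, mem_filter]
    refine ⟨⟨Nat.mem_primeFactors.2 ⟨hp'.2.1, Int.natCast_dvd.1 hpd, hb0⟩, ?_⟩, ?_⟩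
    · have := (mem_Ioc.1 hp'.1).1
      exact (Nat.floor_lt (by linarith)).1 this
    · rw [Rp, mem_filter, mem_range]
      refine ⟨ZMod.val_lt _, ?_⟩
      rw [ZMod.natCast_val, ZMod.cast_id', id]
      have h2 : (w.1 : ZMod p) ≠ 0 := by
        rw [Ne, ZMod.intCast_zmod_eq_zero_iff_dvd]
        exact hp'.2.2.1
      have h3 : ((w.2 ^ m - w.1 ^ m : ℤ) : ZMod p) = 0 := by
        rw [ZMod.intCast_zmod_eq_zero_iff_dvd]
        exact hp'.2.2.2
      push_cast at h3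
      rw [mul_pow, inv_pow, sub_eq_zero.1 h3]
      exact mul_inv_cancel₀ (pow_ne_zero _ h2)
  · intro w hw w' hw' hcode
    rw [mem_coe, mem_filter] at hw hw'
    obtain ⟨a1, a2, a3⟩ := hG w hw.1
    obtain ⟨b1, b2, b3⟩ := hG w' hw'.1
    have hall : ∀ p ∈ Pe V Y m w, p.Prime ∧ (p : ℤ) ∣ w.1 * w'.2 - w'.1 * w.2 := by
      intro p hp
      have hp' := mem_Pf.1 (mem_Pe.1 hp).1
      have : Fact p.Prime := ⟨hp'.2.1⟩
      refine ⟨hp'.2.1, ?_⟩
      have h1 : (⟨p, ((w.2 : ZMod p) * (w.1 : ZMod p)⁻¹).val⟩ : Σ _ : ℕ, ℕ) ∈ code V Y m w := by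
        rw [code]
        exact mem_image_of_mem (fun p : ℕ => (⟨p, ((w.2 : ZMod p) * (w.1 : ZMod p)⁻¹).val⟩ :
          Σ _ : ℕ, ℕ)) hp
      rw [hcode, code, mem_image] at h1
      obtain ⟨p', hp'', he⟩ := h1
      obtain ⟨rfl, he2⟩ := Sigma.mk.inj_iff.1 he
      have he3 := eq_of_heq he2
      have hq := mem_Pf.1 (mem_Pe.1 hp'').1
      exact ratio_eq p' w w' hp'.2.2.1 hq.2.2.1 (ZMod.val_injective p' he3.symm)
    have g1 := (mem_ST.1 a1).1.1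
    have g2 := (mem_ST.1 b1).1.1
    have g3 : (0 : ℝ) < w.1 := by linarith
    have g4 : (0 : ℝ) < w'.1 := by linarith
    by_contra hne
    have hcross : w.1 * w'.2 - w'.1 * w.2 ≠ 0 := fun h =>
      hne (eq_of_cross (by exact_mod_cast g3) (by exact_mod_cast g4) a2 b2 (by linarith))
    have h2 := sum_log_le _ _ hcross hall
    have h3 := cross_lt hU hlam hz a1 b1
    have h4 : Real.log |((w.1 * w'.2 - w'.1 * w.2 : ℤ) : ℝ)| ≤
        Real.log (lam ^ 2 * z * U ^ 2) :=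
      Real.log_le_log (abs_pos.2 (by exact_mod_cast hcross)) h3.le
    linarith

/-- the sum of `log p / p ^ 2` is bounded -/
theorem exists_K : ∃ K : ℝ, 0 ≤ K ∧ ∀ F : Finset ℕ, ∑ k ∈ F, lw (1 : ZMod 1) k / (k : ℝ) ^ 2 ≤ K := by
  have hs : Summable (fun k : ℕ => 2 * (1 / (k : ℝ) ^ (3 / 2 : ℝ))) :=
    (Real.summable_one_div_nat_rpow.2 (by norm_num)).mul_left 2
  refine ⟨∑' k : ℕ, 2 * (1 / (k : ℝ) ^ (3 / 2 : ℝ)), tsum_nonneg fun k => by positivity,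
    fun F => ?_⟩
  refine le_trans (sum_le_sum fun k _ => ?_) (hs.sum_le_tsum F (fun k _ => by positivity))
  rcases Nat.eq_zero_or_pos k with rfl | hk
  · simp
  · have hk0 : (0 : ℝ) < k := by exact_mod_cast hk
    have h1 : lw (1 : ZMod 1) k ≤ 2 * Real.sqrt k := by
      have e1 : lw (1 : ZMod 1) k ≤ Real.log k := by
        rw [lw_one]
        split_ifs
        · exact le_rfl
        · exact Real.log_natCast_nonneg k
      have e2 := Real.log_le_sub_one_of_pos (Real.sqrt_pos.2 hk0)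
      rw [Real.log_sqrt hk0.le] at e2
      linarith
    have h2 : Real.sqrt k / (k : ℝ) ^ 2 = 1 / (k : ℝ) ^ (3 / 2 : ℝ) := by
      rw [Real.sqrt_eq_rpow, div_eq_div_iff (by positivity) (by positivity), one_mul,
        ← Real.rpow_add hk0, ← Real.rpow_natCast]
      norm_num
    calc lw (1 : ZMod 1) k / (k : ℝ) ^ 2 ≤ 2 * Real.sqrt k / (k : ℝ) ^ 2 :=
          div_le_div_of_nonneg_right h1 (by positivity)
      _ = 2 * (1 / (k : ℝ) ^ (3 / 2 : ℝ)) := by rw [mul_div_assoc, h2]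

/-- the squares contribute little -/
theorem nonexact (m : ℕ) (hm : 3 ≤ m) (M s₁ t₁ : ℤ) (hM : 0 < M) (lam z : ℝ) (hlam : 1 < lam)
    (hz : lam < z) : ∃ C V₀ : ℝ, ∀ V : ℝ, V₀ ≤ V → ∀ F : Finset (ℤ × ℤ),
      (∀ w ∈ F, w ∈ ST (V ^ (6 * m)) lam z M s₁ t₁ ∧ IsCoprime w.1 w.2) →
      ∑ w ∈ F, ∑ p ∈ Pf V (V ^ (6 * m + 5)) m w, Real.log p ≤
        ∑ w ∈ F, ∑ p ∈ Pe V (V ^ (6 * m + 5)) m w, Real.log p + C * (V ^ (6 * m)) ^ 2 := by
  classical
  obtain ⟨K, hK0, hK⟩ := exists_K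
  have hMR : (0 : ℝ) < M := by exact_mod_cast hM
  have hmR : (3 : ℝ) ≤ m := by exact_mod_cast hm
  have hlam0 : 0 < lam - 1 := by linarith
  have hz0 : 0 < z := by linarith
  set α : ℝ := (lam - 1) / M with hα
  have hα0 : 0 < α := by positivity
  refine ⟨(α + 2) * m * (z * (lam - 1) * K + 4 * (lam * z)) + 2 * m,
    max (max (m : ℝ) 2) (lam * z), fun V hV F hF => ?_⟩
  rw [max_le_iff, max_le_iff] at hV
  obtain ⟨⟨hV1, hV2⟩, hV3⟩ := hV
  have hV0 : 0 < V := by linarith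
  have hV1' : 1 ≤ V := by linarith
  set U : ℝ := V ^ (6 * m) with hU
  have hVU : V ≤ U := le_self_pow₀ hV1' (by omega)
  have hU0 : 0 < U := by positivity
  have hU1 : 1 ≤ U := by linarith
  set Y : ℝ := V ^ (6 * m + 5) with hY
  have hYU : Y = U * V ^ 5 := by rw [hY, hU, pow_add]
  have hlamY : lam * z * U ≤ Y := by
    rw [hYU]
    have : V ≤ V ^ 5 := le_self_pow₀ hV1' (by norm_num)
    nlinarith
  have hYU2 : Y ≤ U ^ 2 := by
    rw [hY, hU, ← pow_mul]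
    exact pow_le_pow_right₀ hV1' (by omega)
  have hlzU : 0 < lam * z * U := by positivity
  -- the exchange
  set NE : ℕ → Finset (ℤ × ℤ) := fun p => F.filter
    (fun w => ¬ (p : ℤ) ∣ w.1 ∧ (p : ℤ) ^ 2 ∣ w.2 ^ m - w.1 ^ m) with hNE
  have hex : ∑ w ∈ F, ∑ p ∈ Pf V Y m w, Real.log p ≤ ∑ w ∈ F, ∑ p ∈ Pe V Y m w, Real.log p +
      ∑ k ∈ Ioc ⌊V⌋₊ ⌊Y⌋₊, lw (1 : ZMod 1) k * ((NE k).card : ℝ) := by
    have h1 : ∀ k : ℕ, lw (1 : ZMod 1) k * ((NE k).card : ℝ) =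
        ∑ w ∈ F, if (¬ (k : ℤ) ∣ w.1 ∧ (k : ℤ) ^ 2 ∣ w.2 ^ m - w.1 ^ m) then
          lw (1 : ZMod 1) k else 0 := by
      intro k
      rw [← sum_filter, sum_const, nsmul_eq_mul, mul_comm]
    rw [sum_congr rfl fun k _ => h1 k, sum_comm (s := Ioc ⌊V⌋₊ ⌊Y⌋₊), ← sum_add_distrib]
    refine sum_le_sum fun w _ => ?_
    have h2 := sum_filter_add_sum_filter_not (Pf V Y m w)
      (fun p : ℕ => ¬ (p : ℤ) ^ 2 ∣ w.2 ^ m - w.1 ^ m) (fun p => Real.log (p : ℝ))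
    rw [← h2]
    refine add_le_add (le_of_eq ?_) ?_
    · rw [Pe]
    · rw [← sum_filter]
      have h3 : (Pf V Y m w).filter (fun p : ℕ => ¬ ¬ (p : ℤ) ^ 2 ∣ w.2 ^ m - w.1 ^ m) ⊆
          (Ioc ⌊V⌋₊ ⌊Y⌋₊).filter
            (fun k : ℕ => ¬ (k : ℤ) ∣ w.1 ∧ (k : ℤ) ^ 2 ∣ w.2 ^ m - w.1 ^ m) := by
        intro p hp
        rw [mem_filter, mem_Pf] at hp
        rw [mem_filter]
        exact ⟨hp.1.1, hp.1.2.2.1, not_not.1 hp.2⟩
      refine le_trans (sum_le_sum (g := fun p => lw (1 : ZMod 1) p) fun p hp => ?_)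
        (sum_le_sum_of_subset_of_nonneg h3 fun p _ _ => lw_nonneg _ _)
      rw [mem_filter, mem_Pf] at hp
      rw [lw_one, if_pos hp.1.2.1]
  refine hex.trans ?_
  have hsplit : ∑ k ∈ Ioc ⌊V⌋₊ ⌊Y⌋₊, lw (1 : ZMod 1) k * ((NE k).card : ℝ) ≤
      ∑ k ∈ Ioc ⌊V⌋₊ ⌊lam * z * U⌋₊, lw (1 : ZMod 1) k * ((NE k).card : ℝ) +
      ∑ k ∈ Ioc ⌊lam * z * U⌋₊ ⌊Y⌋₊, lw (1 : ZMod 1) k * ((NE k).card : ℝ) := by
    rw [Finset.sum_Ioc_consecutive _ (Nat.floor_le_floor _) (Nat.floor_le_floor hlamY)]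
    have hz1 : 1 < lam * z := by nlinarith
    nlinarith
  have hA : ∀ k ∈ Ioc ⌊V⌋₊ ⌊lam * z * U⌋₊, lw (1 : ZMod 1) k * ((NE k).card : ℝ) ≤
      (α * U + 2) * m * (z * (lam - 1) * U * (lw (1 : ZMod 1) k / (k : ℝ) ^ 2) +
        2 * lw (1 : ZMod 1) k) := by
    intro k hk
    rw [mem_Ioc, Nat.floor_lt hV0.le] at hk
    by_cases hp : k.Prime
    · have hkm : ¬ k ∣ m := by
        intro h
        have h1 := Nat.le_of_dvd (by omega) h
        have h2 : (k : ℝ) ≤ m := by exact_mod_cast h1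
        linarith [hk.1]
      have h1 := sq_upper U lam z hU1 hlam hz M s₁ t₁ hM m (by omega) k hp hkm (NE k) (by
        intro w hw
        rw [hNE, mem_filter] at hw
        exact ⟨(hF w hw.1).1, hw.2⟩)
      have h2 := mul_le_mul_of_nonneg_left h1 (lw_nonneg (1 : ZMod 1) k)
      refine h2.trans (le_of_eq ?_)
      rw [hα]
      ring
    · rw [lw_one, if_neg hp]
      simp
  have hB : ∀ k ∈ Ioc ⌊lam * z * U⌋₊ ⌊Y⌋₊, lw (1 : ZMod 1) k * ((NE k).card : ℝ) ≤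
      m * lw (1 : ZMod 1) k := by
    intro k hk
    rw [mem_Ioc, Nat.floor_lt hlzU.le] at hk
    by_cases hp : k.Prime
    · have hz1 : 1 < lam * z := by nlinarith
      have hkm : ¬ k ∣ m := by
        intro h
        have h1 := Nat.le_of_dvd (by omega) h
        have h2 : (k : ℝ) ≤ m := by exact_mod_cast h1
        nlinarith [hk.1]
      have h1 := sq_upper_big U lam z hU1 hlam hz M s₁ t₁ m (by omega) k hp hkm hk.1 (NE k) (by
        intro w hw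
        rw [hNE, mem_filter] at hw
        exact ⟨(hF w hw.1).1, (hF w hw.1).2, hw.2⟩)
      have h2 : ((NE k).card : ℝ) ≤ m := by exact_mod_cast h1
      have h3 := mul_le_mul_of_nonneg_left h2 (lw_nonneg (1 : ZMod 1) k)
      linarith
    · rw [lw_one, if_neg hp]
      simp
  have hA' := sum_le_sum hA
  have hB' := sum_le_sum hB
  rw [← mul_sum, sum_add_distrib, ← mul_sum, ← mul_sum] at hA'
  rw [← mul_sum] at hB'
  have h1 := sum_lw_le (lam * z * U) hlzU.le ⌊V⌋₊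
  have h2 := sum_lw_le Y (by positivity) ⌊lam * z * U⌋₊
  have h3 := hK (Ioc ⌊V⌋₊ ⌊lam * z * U⌋₊)
  have h4 : (α * U + 2) * m * (z * (lam - 1) * U *
      ∑ k ∈ Ioc ⌊V⌋₊ ⌊lam * z * U⌋₊, lw (1 : ZMod 1) k / (k : ℝ) ^ 2 +
        2 * ∑ k ∈ Ioc ⌊V⌋₊ ⌊lam * z * U⌋₊, lw (1 : ZMod 1) k) ≤
      (α * U + 2 * U) * m * (z * (lam - 1) * U * K + 2 * (2 * (lam * z * U))) := by
    refine mul_le_mul ?_ ?_ ?_ (by positivity)
    · apply mul_le_mul_of_nonneg_right _ (by positivity)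
      linarith
    · refine add_le_add (mul_le_mul_of_nonneg_left h3 (by positivity)) ?_
      linarith
    · exact add_nonneg (mul_nonneg (by positivity) (sum_nonneg fun k _ =>
        div_nonneg (lw_nonneg _ _) (by positivity))) (mul_nonneg (by norm_num)
          (sum_nonneg fun k _ => lw_nonneg _ _))
  have h5 : (m : ℝ) * ∑ k ∈ Ioc ⌊lam * z * U⌋₊ ⌊Y⌋₊, lw (1 : ZMod 1) k ≤ m * (2 * U ^ 2) := by
    apply mul_le_mul_of_nonneg_left _ (by positivity)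
    linarith
  have h6 : (α * U + 2 * U) * m * (z * (lam - 1) * U * K + 2 * (2 * (lam * z * U))) =
      (α + 2) * m * (z * (lam - 1) * K + 4 * (lam * z)) * U ^ 2 := by ring
  rw [h6] at h4
  linarith

end Pool.Agent.J4H71.CF
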