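import Pool.Agent.J4H71.CF.Core

/-!
# The additional primes for the `n`-rank
-/

set_option autoImplicit false

namespace Pool.Agent.J4H71.CF

open NumberField Pool.Agent.W289.CG Pool.Agent.N53.CL nonZeroDivisors

theorem both_pre {n k : ℕ} (hn : 2 ≤ n) (D : Dat n k) (m R : ℕ) (hm : 2 ≤ m) (S T : Finset ℕ)
    (hS : ∀ p ∈ S, p.Prime ∧ ¬ (p : ℤ) ∣ D.c * |D.bad|)
    (hT : ∀ q ∈ T, q.Prime ∧ ¬ (q : ℤ) ∣ D.c * |D.bad|) (hST : Disjoint S T)
    (hTm : ∀ q ∈ T, ¬ q ∣ m) :
    ∃ S' T' : Finset ℕ, S ⊆ S' ∧ T ⊆ T' ∧ (∀ p ∈ S', p.Prime ∧ ¬ (p : ℤ) ∣ D.c * |D.bad|) ∧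
      (∀ q ∈ T', q.Prime ∧ ¬ (q : ℤ) ∣ D.c * |D.bad|) ∧ Disjoint S' T' ∧ (∀ q ∈ T', ¬ q ∣ m) ∧
      ∀ (K : Type) [Field K] [NumberField K], Module.finrank ℚ K = n →
        (∀ p ∈ S', (∃ P : Fin n → Ideal (𝓞 K), Function.Injective P ∧ (∀ i, (P i).IsPrime) ∧
          ∏ i, P i = Ideal.span {(p : 𝓞 K)}) ∧ ∃ _ : Fact p.Prime, Nonempty (K →+* ℚ_[p])) →
        (∀ q ∈ T', ∃ P : Ideal (𝓞 K), P.IsPrime ∧ P ^ n = Ideal.span {(q : 𝓞 K)}) →
        ∃ f : Multiplicative (Fin R → ZMod n) →* ClassGroup (𝓞 K), Function.Injective f := by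
  classical
  set Z : ℤ := D.c * |D.bad| with hZ
  have hZ0 : 0 < Z := mul_pos D.hc (abs_pos.2 (bad_ne D))
  have hd : ∀ q : ℕ, Z.natAbs < q → ¬ (q : ℤ) ∣ Z := fun q hq => not_dvd_of_lt hZ0.ne' hq
  set B : ℕ := Z.natAbs + m + n + (S ∪ T).sup id with hB
  have hBS : ∀ x ∈ S ∪ T, x ≤ B := by
    intro x hx
    have : x ≤ (S ∪ T).sup id := Finset.le_sup (f := id) hx
    omega
  obtain ⟨p, q, hp, hq, hqp, hkey⟩ := exists_primes n (R + n) B (by omega)
  have : NeZero (4 * n) := ⟨by omega⟩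
  obtain ⟨p₀, hp₀B, hp₀, hp₀n⟩ := Nat.forall_exists_prime_gt_and_eq_mod (q := 4 * n) (a := -1)
    (isUnit_one.neg) (B + ∏ i, q i)
  have hqle : ∀ i, q i ≤ ∏ i, q i := fun i => Nat.le_of_dvd
    (Finset.prod_pos fun j _ => (hq j).1.pos) (Finset.dvd_prod_of_mem _ (Finset.mem_univ i))
  have hp₀d : 4 * n ∣ p₀ + 1 := by
    have h1 : ((p₀ + 1 : ℕ) : ZMod (4 * n)) = 0 := by
      push_cast
      rw [hp₀n]
      ring
    exact (ZMod.natCast_eq_zero_iff _ _).1 h1
  set S' : Finset ℕ := S ∪ insert p₀ (Finset.univ.image p) with hS'def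
  set T' : Finset ℕ := T ∪ Finset.univ.image q with hT'def
  have hS' : ∀ p ∈ S', p.Prime ∧ ¬ (p : ℤ) ∣ Z := by
    intro x hx
    simp only [hS'def, Finset.mem_union, Finset.mem_insert, Finset.mem_image, Finset.mem_univ,
      true_and] at hx
    rcases hx with h | rfl | ⟨i, rfl⟩
    · exact hS x h
    · exact ⟨hp₀, hd _ (by omega)⟩
    · exact ⟨(hp i).1, hd _ (by have := (hp i).2; omega)⟩
  have hT' : ∀ p ∈ T', p.Prime ∧ ¬ (p : ℤ) ∣ Z := by
    intro x hx
    simp only [hT'def, Finset.mem_union, Finset.mem_image, Finset.mem_univ, true_and] at hx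
    rcases hx with h | ⟨i, rfl⟩
    · exact hT x h
    · exact ⟨(hq i).1, hd _ (by have := (hq i).2; omega)⟩
  have hTm' : ∀ q ∈ T', ¬ q ∣ m := by
    intro x hx
    simp only [hT'def, Finset.mem_union, Finset.mem_image, Finset.mem_univ, true_and] at hx
    rcases hx with h | ⟨i, rfl⟩
    · exact hTm x h
    · intro h
      have := Nat.le_of_dvd (by omega) h
      have := (hq i).2
      omega
  have hST' : Disjoint S' T' := by
    rw [Finset.disjoint_left]
    intro x hx hx'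
    simp only [hS'def, Finset.mem_union, Finset.mem_insert, Finset.mem_image, Finset.mem_univ,
      true_and] at hx
    simp only [hT'def, Finset.mem_union, Finset.mem_image, Finset.mem_univ, true_and] at hx'
    rcases hx' with h' | ⟨j, hj⟩
    · have h3 := hBS x (Finset.mem_union_right _ h')
      rcases hx with h | h | ⟨i, h⟩
      · exact Finset.disjoint_left.1 hST h h'
      · omega
      · have := (hp i).2
        omega
    · rcases hx with h | h | ⟨i, h⟩
      · have h3 := hBS x (Finset.mem_union_left _ h)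
        have := (hq j).2
        omega
      · have := hqle j
        omega
      · exact hqp j i (by rw [hj, h])
  refine ⟨S', T', Finset.subset_union_left, Finset.subset_union_left, hS', hT', hST', hTm',
    fun K _ _ hfr hspl hram => ?_⟩
  have hq0 : ∀ i, ((q i : ℕ) : K) ≠ 0 := fun i => by exact_mod_cast (hq i).1.ne_zero
  have h8 := InfinitePlace.card_add_two_mul_card_eq_rank K
  have h7 := rank_eq K
  refine Pool.Agent.W930.CG.cls Pool.Agent.W240.CG.grp Pool.Agent.W125.CG.uni K (R + n) n R hn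
    (by omega) (fun i => Units.mk0 _ (hq0 i)) ?_ ?_ ?_
  · intro i
    obtain ⟨P, -, hP⟩ := hram (q i) (Finset.mem_union_right _
      (Finset.mem_image_of_mem _ (Finset.mem_univ i)))
    exact exists_frac n (q i) (by omega) (hq i).1.ne_zero P hP _ rfl
  · intro ℓ hℓ hℓn e y hy i
    obtain ⟨-, hfact, ⟨φ⟩⟩ := hspl (p i) (Finset.mem_union_right _ (Finset.mem_insert_of_mem
      (Finset.mem_image_of_mem _ (Finset.mem_univ i))))
    have hℓ0 : (ℓ : ℤ) ≠ 0 := by exact_mod_cast hℓ.ne_zero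
    set e' : Fin (R + n) → ℕ := fun i => (e i % ℓ).toNat with he'
    have hmod : ∀ i, ((e' i : ℕ) : ℤ) = e i % ℓ := fun i => by
      rw [he']
      exact Int.toNat_of_nonneg (Int.emod_nonneg _ hℓ0)
    have hee : ∀ i, (ℓ : ℤ) ∣ e i - (e' i : ℤ) := fun i => by
      rw [hmod]
      exact Int.dvd_self_sub_emod
    have hqpi : ∀ j, ((q j : ℕ) : ZMod (p i)) ≠ 0 := by
      intro j h
      rw [ZMod.natCast_eq_zero_iff] at h
      exact hqp j i ((Nat.prime_dvd_prime_iff_eq (hp i).1 (hq j).1).1 h).symm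
    obtain ⟨y', hy'⟩ := Pool.Agent.W349.CG.red K (p i) ℓ (R + n) 0 (fun j => -(q j : ℤ)) φ 0 0 hℓ
      (by simp) (by simp)
      (by
        intro j h
        apply hqpi j
        push_cast at h
        exact neg_eq_zero.1 h.symm) e e' (y : K) hee
      (by
        have hy2 : ∏ j, ((q j : ℕ) : K) ^ e j = (y : K) ^ ℓ ∨
            ∏ j, ((q j : ℕ) : K) ^ e j = - (y : K) ^ ℓ := by
          rcases hy with h | h
          · left
            have := congrArg (Units.val) h
            simpa using this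
          · right
            have := congrArg (Units.val) h
            simpa using this
        simpa using hy2)
    have h9 := hkey i ℓ hℓ hℓn e' y' (by simpa using hy')
    have h10 : (ℓ : ℤ) ∣ (e' i : ℤ) := by exact_mod_cast h9
    have := (hee i).add h10
    simpa using this
  · intro ℓ hℓ hℓn
    obtain ⟨-, hfact, ⟨φ⟩⟩ := hspl p₀ (Finset.mem_union_right _ (Finset.mem_insert_self _ _))
    have hle : ℓ ≤ n := Nat.le_of_dvd (by omega) hℓn
    have hp3 : 3 < p₀ := by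
      have := Nat.le_of_dvd (by omega) hp₀d
      omega
    have hq1 : p₀ - 1 + 2 = p₀ + 1 := by omega
    refine ⟨fun hℓ2 => ?_, fun hℓ2 => ?_⟩
    · rintro ⟨ζ, hζ⟩
      have h1 := Pool.Agent.W349.CG.mu p₀ ℓ (fun h => by
        have := Nat.le_of_dvd hℓ.pos h
        omega) ⟨φ ζ, hζ.map_of_injective φ.injective⟩
      have h2 : ℓ ∣ p₀ + 1 := (hℓn.trans (Dvd.intro_left _ rfl)).trans hp₀d
      rw [← hq1] at h2
      have h3 : ℓ ∣ 2 := (Nat.dvd_add_right h1).1 h2
      exact hℓ2 ((Nat.prime_dvd_prime_iff_eq hℓ Nat.prime_two).1 h3)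
    · rintro ⟨ζ, hζ⟩
      have h1 := Pool.Agent.W349.CG.mu p₀ 4 (fun h => by
        have h4 := Nat.le_of_dvd (by norm_num) h
        have h5 : p₀ = 4 := by omega
        rw [h5] at hp₀
        exact absurd hp₀ (by norm_num)) ⟨φ ζ, hζ.map_of_injective φ.injective⟩
      have h2 : 4 ∣ p₀ + 1 := (Dvd.intro _ rfl).trans hp₀d
      rw [← hq1] at h2
      have h3 : 4 ∣ 2 := (Nat.dvd_add_right h1).1 h2
      norm_num at h3

end Pool.Agent.J4H71.CF
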