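import Pool.Agent.Cov.PNT

/-!
# Many primes of an arithmetic progression in the intervals `(α U, β U]`
-/

set_option autoImplicit false

namespace Pool.Agent.J4H71.CF

open Finset Filter Topology ArithmeticFunction

theorem primes_interval (q : ℕ) (hq : 0 < q) (a : ZMod q) (ha : IsUnit a) (α β : ℝ)
    (hα : 0 < α) (hαβ : α < β) :
    ∃ δ : ℝ, 0 < δ ∧ ∃ U₀ : ℝ, ∀ U : ℝ, U₀ ≤ U → δ * (U / Real.log U) ≤
      (((Ioc ⌊α * U⌋₊ ⌊β * U⌋₊).filter (fun p : ℕ => p.Prime ∧ (p : ZMod q) = a)).card : ℝ) := by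
  classical
  have : NeZero q := ⟨hq.ne'⟩
  have hβ : 0 < β := hα.trans hαβ
  set G : ℝ → ℝ := fun x => ∑ k ∈ Icc 1 ⌊x⌋₊, vonMangoldt.residueClass a k with hG
  have h := Pool.Agent.Cov.PNT.pnt_residueClass ha
  have hφ : (0 : ℝ) < (q.totient : ℝ)⁻¹ := by
    have := Nat.totient_pos.2 hq
    positivity
  set φ := (q.totient : ℝ)⁻¹ with hφd
  have hlim : ∀ γ : ℝ, 0 < γ → Tendsto (fun U : ℝ => G (γ * U) / U) atTop (𝓝 (γ * φ)) := by
    intro γ hγ
    have h1 : Tendsto (fun U : ℝ => γ * U) atTop atTop := tendsto_id.const_mul_atTop hγ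
    have h2 := (h.comp h1).const_mul γ
    refine h2.congr' ?_
    filter_upwards [eventually_gt_atTop 0] with U hU
    simp only [Function.comp, hG]
    field_simp
  have h1 := (hlim β hβ).sub (hlim α hα)
  have h2 := h1.eventually_const_lt (show (β - α) * φ / 2 < β * φ - α * φ by nlinarith)
  obtain ⟨C, hC⟩ := Chebyshev.psi_sub_theta_le_mul_sqrt
  set μ := (β - α) * φ / 4 with hμ
  have hμ0 : 0 < μ := by
    have : 0 < (β - α) * φ := mul_pos (by linarith) hφ
    linarith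
  have h3 := Real.tendsto_sqrt_atTop.eventually_ge_atTop (|C| * Real.sqrt β / μ)
  obtain ⟨U₀, hU₀⟩ := eventually_atTop.1 (((h2.and h3).and (eventually_ge_atTop β)).and
    (eventually_gt_atTop 1))
  refine ⟨μ / 2, by linarith, U₀, fun U hU => ?_⟩
  obtain ⟨⟨⟨h4, h5⟩, h6⟩, h7⟩ := hU₀ U hU
  have hU0 : 0 < U := by linarith
  have hlog : 0 < Real.log U := Real.log_pos h7
  rw [← sub_div, lt_div_iff₀ hU0] at h4
  have hle : ⌊α * U⌋₊ ≤ ⌊β * U⌋₊ := Nat.floor_le_floor (by nlinarith)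
  -- the difference of the sums
  have hdiff : G (β * U) - G (α * U) =
      ∑ k ∈ Ioc ⌊α * U⌋₊ ⌊β * U⌋₊, vonMangoldt.residueClass a k := by
    simp only [hG]
    have hIcc : ∀ n : ℕ, Icc 1 n = Ioc 0 n := fun n => by
      ext k
      simp only [mem_Icc, mem_Ioc]
      omega
    rw [hIcc, hIcc, sub_eq_iff_eq_add, add_comm, Finset.sum_Ioc_consecutive _ (Nat.zero_le _) hle]
  -- the termwise inequality
  set P : ℕ → Prop := fun p => p.Prime ∧ (p : ZMod q) = a with hP
  have hrest : ∀ k : ℕ, 0 ≤ (vonMangoldt k - if k.Prime then Real.log k else 0 : ℝ) := by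
    intro k
    split_ifs with hp
    · rw [vonMangoldt_apply_prime hp]; simp
    · simp [vonMangoldt_nonneg]
  have key : ∑ k ∈ Ioc ⌊α * U⌋₊ ⌊β * U⌋₊, vonMangoldt.residueClass a k ≤
      ∑ k ∈ Ioc ⌊α * U⌋₊ ⌊β * U⌋₊, (if P k then Real.log k else 0) +
      (Chebyshev.psi (β * U) - Chebyshev.theta (β * U)) := by
    have e1 : Chebyshev.psi (β * U) - Chebyshev.theta (β * U) =
        ∑ k ∈ Ioc 0 ⌊β * U⌋₊, (vonMangoldt k - if k.Prime then Real.log k else 0) := by
      unfold Chebyshev.psi Chebyshev.theta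
      rw [sum_sub_distrib, ← sum_filter]
    have e2 : ∑ k ∈ Ioc ⌊α * U⌋₊ ⌊β * U⌋₊, (vonMangoldt k - if k.Prime then Real.log k else 0 : ℝ) ≤
        ∑ k ∈ Ioc 0 ⌊β * U⌋₊, (vonMangoldt k - if k.Prime then Real.log k else 0) := by
      refine sum_le_sum_of_subset_of_nonneg (Ioc_subset_Ioc_left (Nat.zero_le _)) ?_
      intro k _ _
      exact hrest k
    rw [e1]
    refine le_trans ?_ (add_le_add_right e2 _)
    rw [← sum_add_distrib]
    refine sum_le_sum fun k _ => ?_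
    have hr := hrest k
    by_cases hk : (k : ZMod q) = a
    · have e0 : vonMangoldt.residueClass a k = vonMangoldt k :=
        Set.indicator_of_mem (s := {n : ℕ | (n : ZMod q) = a}) hk _
      rw [e0]
      by_cases hp : k.Prime
      · rw [if_pos ⟨hp, hk⟩, if_pos hp]; linarith
      · rw [if_neg (fun h => hp h.1), if_neg hp]; linarith
    · have e0 : vonMangoldt.residueClass a k = 0 :=
        Set.indicator_of_notMem (s := {n : ℕ | (n : ZMod q) = a}) hk _
      rw [e0, if_neg (fun h => hk h.2)]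
      linarith
  have hβU : 0 ≤ β * U := by positivity
  have hlog2 : Real.log (β * U) ≤ 2 * Real.log U := by
    rw [Real.log_mul hβ.ne' hU0.ne']
    have := Real.log_le_log hβ h6
    linarith
  have key2 : ∑ k ∈ Ioc ⌊α * U⌋₊ ⌊β * U⌋₊, (if P k then Real.log k else 0) ≤
      (((Ioc ⌊α * U⌋₊ ⌊β * U⌋₊).filter P).card : ℝ) * (2 * Real.log U) := by
    rw [← sum_filter, ← nsmul_eq_mul, ← sum_const]
    refine sum_le_sum fun k hk => ?_
    rw [mem_filter, mem_Ioc] at hk
    have hk0 : (0 : ℝ) < k := by exact_mod_cast hk.2.1.pos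
    have hk1 : (k : ℝ) ≤ β * U := (Nat.le_floor_iff hβU).1 hk.1.2
    exact (Real.log_le_log hk0 hk1).trans hlog2
  have h8 := hC (β * U)
  have h9 : C * Real.sqrt (β * U) ≤ μ * U := by
    have hsq : Real.sqrt U * Real.sqrt U = U := Real.mul_self_sqrt hU0.le
    have hs0 : 0 ≤ Real.sqrt U := Real.sqrt_nonneg _
    rw [Real.sqrt_mul hβ.le]
    rw [div_le_iff₀ hμ0] at h5
    calc C * (Real.sqrt β * Real.sqrt U) ≤ |C| * (Real.sqrt β * Real.sqrt U) :=
          mul_le_mul_of_nonneg_right (le_abs_self C) (by positivity)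
      _ = (|C| * Real.sqrt β) * Real.sqrt U := by ring
      _ ≤ (Real.sqrt U * μ) * Real.sqrt U := mul_le_mul_of_nonneg_right h5 hs0
      _ = μ * (Real.sqrt U * Real.sqrt U) := by ring
      _ = μ * U := by rw [hsq]
  rw [mul_div_assoc', div_le_iff₀ hlog]
  have h10 : (β - α) * φ / 2 = 2 * μ := by rw [hμ]; ring
  rw [h10] at h4
  nlinarith

end Pool.Agent.J4H71.CF
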