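import Pool.Agent.J4H71.CF.Loc

/-!
# Roots of unity modulo a prime
-/

set_option autoImplicit false

namespace Pool.Agent.J4H71.CF

open Finset Polynomial

/-- the roots of unity modulo `p ≡ 1` mod `m` -/
theorem exists_roots (m p : ℕ) (hm : 1 ≤ m) (hp : p.Prime) (h : (p : ZMod m) = 1) :
    ∃ Rt : Finset ℕ, Rt.card = m ∧ 1 ∈ Rt ∧ ∀ r ∈ Rt, r < p ∧ (p : ℤ) ∣ (r : ℤ) ^ m - 1 := by
  classical
  have : Fact p.Prime := ⟨hp⟩
  have hmp : m ∣ p - 1 := by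
    have h1 : ((p - 1 : ℕ) : ZMod m) = 0 := by
      rw [Nat.cast_sub hp.one_lt.le, h, Nat.cast_one, sub_self]
    exact (ZMod.natCast_eq_zero_iff _ _).1 h1
  obtain ⟨g, hg⟩ := IsCyclic.exists_generator (α := (ZMod p)ˣ)
  have hord : orderOf g = p - 1 := by
    rw [orderOf_eq_card_of_forall_mem_zpowers hg, Nat.card_eq_fintype_card, ZMod.card_units]
  obtain ⟨k, hk⟩ := hmp
  have hp1 : 0 < p - 1 := by have := hp.two_le; omega
  have hk0 : k ≠ 0 := by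
    rintro rfl
    simp at hk
    omega
  set ζ : (ZMod p)ˣ := g ^ k with hζ
  have hζo : orderOf ζ = m := by
    rw [hζ, orderOf_pow_of_dvd hk0 (by rw [hord, hk]; exact Dvd.intro_left _ rfl), hord, hk]
    exact Nat.mul_div_cancel _ (Nat.pos_of_ne_zero hk0)
  refine ⟨(range m).image (fun i => ((ζ ^ i : (ZMod p)ˣ) : ZMod p).val), ?_, ?_, ?_⟩
  · rw [card_image_of_injOn, card_range]
    intro i hi j hj hij
    rw [mem_coe, mem_range] at hi hj
    have h1 := ZMod.val_injective p hij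
    have h2 := Units.ext h1
    exact pow_injOn_Iio_orderOf (x := ζ) (by rw [hζo]; exact hi) (by rw [hζo]; exact hj) h2
  · rw [mem_image]
    refine ⟨0, by rw [mem_range]; omega, ?_⟩
    rw [pow_zero, Units.val_one, ZMod.val_one]
  · intro r hr
    rw [mem_image] at hr
    obtain ⟨i, -, rfl⟩ := hr
    refine ⟨ZMod.val_lt _, ?_⟩
    rw [← ZMod.intCast_zmod_eq_zero_iff_dvd]
    push_cast
    rw [ZMod.natCast_val, ZMod.cast_id', id]
    have h1 : ζ ^ m = 1 := by rw [← hζo]; exact pow_orderOf_eq_one ζ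
    have h2 : (ζ ^ i) ^ m = 1 := by rw [← pow_mul, mul_comm, pow_mul, h1, one_pow]
    have h3 := congrArg (Units.val) h2
    rw [Units.val_pow_eq_pow_val, Units.val_pow_eq_pow_val, Units.val_one] at h3
    rw [h3, sub_self]

/-- at most `m` solutions of `X ^ m = c` in a field -/
theorem card_roots_le (p : ℕ) [Fact p.Prime] (m : ℕ) (hm : 1 ≤ m) (c : ZMod p)
    (F : Finset (ZMod p)) (hF : ∀ x ∈ F, x ^ m = c) : F.card ≤ m := by
  classical
  have h0 : (X ^ m - C c : (ZMod p)[X]) ≠ 0 := X_pow_sub_C_ne_zero hm c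
  have h1 : F ⊆ (X ^ m - C c : (ZMod p)[X]).roots.toFinset := by
    intro x hx
    rw [Multiset.mem_toFinset, mem_roots h0, IsRoot.def, eval_sub, eval_pow, eval_X, eval_C,
      hF x hx, sub_self]
  calc F.card ≤ (X ^ m - C c : (ZMod p)[X]).roots.toFinset.card := card_le_card h1
    _ ≤ Multiset.card (X ^ m - C c : (ZMod p)[X]).roots := Multiset.toFinset_card_le _
    _ ≤ (X ^ m - C c : (ZMod p)[X]).natDegree := card_roots' _
    _ = m := natDegree_X_pow_sub_C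

/-- uniqueness of lifts -/
theorem lift_unique {p m : ℕ} (hp : p.Prime) (hm : ¬ p ∣ m) (a b : ℤ) (ha : ¬ (p : ℤ) ∣ a)
    (hab : (p : ℤ) ∣ a - b) (h : (p : ℤ) ^ 2 ∣ a ^ m - b ^ m) : (p : ℤ) ^ 2 ∣ a - b := by
  have hpp : Prime (p : ℤ) := Nat.prime_iff_prime_int.1 hp
  have h1 := geom_sum₂_mul a b m
  have h2 : ¬ (p : ℤ) ∣ ∑ i ∈ range m, a ^ i * b ^ (m - 1 - i) :=
    not_dvd_geom_sum₂ hpp hab ha (by exact_mod_cast hm)
  rw [← h1] at h
  have hcop : IsCoprime ((p : ℤ) ^ 2) (∑ i ∈ range m, a ^ i * b ^ (m - 1 - i)) :=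
    ((Irreducible.coprime_iff_not_dvd hpp.irreducible).2 h2).pow_left
  exact hcop.dvd_of_dvd_mul_left h

/-- the pairs with `p ∣ t ^ m - s ^ m` -/
noncomputable def FF (U lam z : ℝ) (M s₁ t₁ : ℤ) (m p : ℕ) : Finset (ℤ × ℤ) := by
  classical
  exact (SS U lam M s₁ ×ˢ TT U lam z M t₁).filter
    (fun w => ¬ (p : ℤ) ∣ w.1 ∧ (p : ℤ) ∣ w.2 ^ m - w.1 ^ m)

theorem mem_FF {U lam z : ℝ} {M s₁ t₁ : ℤ} {m p : ℕ} {w : ℤ × ℤ} :
    w ∈ FF U lam z M s₁ t₁ m p ↔ (w.1 ∈ SS U lam M s₁ ∧ w.2 ∈ TT U lam z M t₁) ∧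
      ¬ (p : ℤ) ∣ w.1 ∧ (p : ℤ) ∣ w.2 ^ m - w.1 ^ m := by
  classical
  rw [FF, mem_filter, mem_product]

theorem sum_NN_le (U lam z : ℝ) (M s₁ t₁ : ℤ) (m p : ℕ) (hp : p.Prime) (Rt : Finset ℕ)
    (hRt : ∀ r ∈ Rt, r < p ∧ (p : ℤ) ∣ (r : ℤ) ^ m - 1) :
    ∑ r ∈ Rt, (NN U lam z M s₁ t₁ p r).card ≤ (FF U lam z M s₁ t₁ m p).card := by
  classical
  have hpp : Prime (p : ℤ) := Nat.prime_iff_prime_int.1 hp
  rw [← card_biUnion]
  · refine card_le_card fun w hw => ?_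
    rw [mem_biUnion] at hw
    obtain ⟨r, hr, hw⟩ := hw
    rw [mem_NN] at hw
    rw [mem_FF]
    refine ⟨hw.1, hw.2.1, ?_⟩
    have h1 : (p : ℤ) ∣ w.2 - r * w.1 := (hw.2.2.symm).dvd
    have h2 : (p : ℤ) ∣ w.2 ^ m - (r * w.1) ^ m := h1.trans (sub_dvd_pow_sub_pow _ _ m)
    have h3 : w.2 ^ m - w.1 ^ m = (w.2 ^ m - (r * w.1) ^ m) + ((r : ℤ) ^ m - 1) * w.1 ^ m := by
      ring
    rw [h3]
    exact h2.add ((hRt r hr).2.mul_right _)
  · intro r hr r' hr' hne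
    rw [Function.onFun, disjoint_left]
    intro w hw hw'
    rw [mem_NN] at hw hw'
    have h1 : (p : ℤ) ∣ w.2 - r * w.1 := (hw.2.2.symm).dvd
    have h2 : (p : ℤ) ∣ w.2 - r' * w.1 := (hw'.2.2.symm).dvd
    have h3 : (p : ℤ) ∣ ((r' : ℤ) - r) * w.1 := by
      have := h1.sub h2
      have e : w.2 - r * w.1 - (w.2 - r' * w.1) = ((r' : ℤ) - r) * w.1 := by ring
      rwa [e] at this
    rcases hpp.dvd_or_dvd h3 with h4 | h4
    · have h5 := Int.eq_zero_of_abs_lt_dvd h4 (by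
        have e1 := (hRt r hr).1
        have e2 := (hRt r' hr').1
        rw [abs_lt]
        constructor <;> omega)
      exact hne (by omega)
    · exact hw.2.1 h4

end Pool.Agent.J4H71.CF
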