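import Pool.Agent.J4H71.CF.Mass

/-!
# Upper bounds
-/

set_option autoImplicit false

namespace Pool.Agent.J4H71.CF

open Finset Filter Topology

/-- the prime divisors of `t ^ m - s ^ m` in `(V, Y]` -/
noncomputable def Pf (V Y : ℝ) (m : ℕ) (w : ℤ × ℤ) : Finset ℕ := by
  classical
  exact (Ioc ⌊V⌋₊ ⌊Y⌋₊).filter
    (fun p => p.Prime ∧ ¬ (p : ℤ) ∣ w.1 ∧ (p : ℤ) ∣ w.2 ^ m - w.1 ^ m)

theorem mem_Pf {V Y : ℝ} {m : ℕ} {w : ℤ × ℤ} {p : ℕ} : p ∈ Pf V Y m w ↔ p ∈ Ioc ⌊V⌋₊ ⌊Y⌋₊ ∧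
    p.Prime ∧ ¬ (p : ℤ) ∣ w.1 ∧ (p : ℤ) ∣ w.2 ^ m - w.1 ^ m := by
  classical
  rw [Pf, mem_filter]

/-- the primes in `(V, Y]` which divide `t ^ m - s ^ m` exactly once -/
noncomputable def Pe (V Y : ℝ) (m : ℕ) (w : ℤ × ℤ) : Finset ℕ := by
  classical
  exact (Pf V Y m w).filter (fun p => ¬ (p : ℤ) ^ 2 ∣ w.2 ^ m - w.1 ^ m)

theorem mem_Pe {V Y : ℝ} {m : ℕ} {w : ℤ × ℤ} {p : ℕ} : p ∈ Pe V Y m w ↔ p ∈ Pf V Y m w ∧
    ¬ (p : ℤ) ^ 2 ∣ w.2 ^ m - w.1 ^ m := by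
  classical
  rw [Pe, mem_filter]

/-- the pairs -/
noncomputable def ST (U lam z : ℝ) (M s₁ t₁ : ℤ) : Finset (ℤ × ℤ) :=
  SS U lam M s₁ ×ˢ TT U lam z M t₁

theorem exchange (V Y U lam z : ℝ) (M s₁ t₁ : ℤ) (m : ℕ) :
    ∑ k ∈ Ioc ⌊V⌋₊ ⌊Y⌋₊, lw (1 : ZMod 1) k * ((FF U lam z M s₁ t₁ m k).card : ℝ) =
      ∑ w ∈ ST U lam z M s₁ t₁, ∑ p ∈ Pf V Y m w, Real.log p := by
  classical
  have h1 : ∀ k : ℕ, lw (1 : ZMod 1) k * ((FF U lam z M s₁ t₁ m k).card : ℝ) =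
      ∑ w ∈ ST U lam z M s₁ t₁, if (¬ (k : ℤ) ∣ w.1 ∧ (k : ℤ) ∣ w.2 ^ m - w.1 ^ m) then
        lw (1 : ZMod 1) k else 0 := by
    intro k
    rw [← sum_filter, sum_const, nsmul_eq_mul, mul_comm]
    congr 2
  rw [sum_congr rfl fun k _ => h1 k, sum_comm]
  refine sum_congr rfl fun w _ => ?_
  rw [Pf, sum_filter]
  refine sum_congr rfl fun k _ => ?_
  rw [lw_one]
  by_cases hp : k.Prime
  · simp [hp]
  · simp [hp]

/-- a product of distinct primes dividing `n` -/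
theorem sum_log_le (P : Finset ℕ) (n : ℤ) (hn : n ≠ 0) (h : ∀ p ∈ P, p.Prime ∧ (p : ℤ) ∣ n) :
    ∑ p ∈ P, Real.log p ≤ Real.log |(n : ℝ)| := by
  have h1 : ∏ p ∈ P, p ∣ n.natAbs :=
    Finset.prod_primes_dvd _ (fun p hp => (h p hp).1.prime)
      (fun p hp => Int.natCast_dvd.1 (h p hp).2)
  have h2 := Nat.le_of_dvd (Int.natAbs_pos.2 hn) h1
  have h3 : (0 : ℝ) < ∏ p ∈ P, (p : ℝ) :=
    prod_pos fun p hp => by exact_mod_cast (h p hp).1.pos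
  rw [← Real.log_prod (fun p hp => by exact_mod_cast (h p hp).1.ne_zero)]
  refine Real.log_le_log h3 ?_
  rw [← Int.cast_abs, Int.abs_eq_natAbs, ← Nat.cast_prod]
  exact_mod_cast h2

theorem mem_ST {U lam z : ℝ} {M s₁ t₁ : ℤ} {w : ℤ × ℤ} : w ∈ ST U lam z M s₁ t₁ ↔
    (U < w.1 ∧ (w.1 : ℝ) ≤ lam * U ∧ w.1 ≡ s₁ [ZMOD M]) ∧
    z * U < w.2 ∧ (w.2 : ℝ) ≤ lam * z * U ∧ w.2 ≡ t₁ [ZMOD M] := by
  rw [ST, mem_product, SS, TT, mem_cl, mem_cl]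

theorem Wf_le (V Y U lam z : ℝ) (hU : 1 ≤ U) (hlam : 1 < lam) (hz : lam < z) (M s₁ t₁ : ℤ) (m : ℕ)
    (hm : 1 ≤ m) (w : ℤ × ℤ) (hw : w ∈ ST U lam z M s₁ t₁) :
    ∑ p ∈ Pf V Y m w, Real.log p ≤ m * Real.log (lam * z * U) := by
  rw [mem_ST] at hw
  obtain ⟨⟨h1, h2, -⟩, h3, h4, -⟩ := hw
  have hs0 : (0 : ℝ) < w.1 := by linarith
  have hst : (w.1 : ℝ) < w.2 := by nlinarith
  have ht0 : (0 : ℝ) < w.2 := by linarith
  have h5 : (w.1 : ℝ) ^ m < (w.2 : ℝ) ^ m := pow_lt_pow_left₀ hst hs0.le (by omega)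
  have h6 : (0 : ℝ) < ((w.2 ^ m - w.1 ^ m : ℤ) : ℝ) := by
    push_cast
    linarith
  have h7 : w.2 ^ m - w.1 ^ m ≠ 0 := by
    intro h
    rw [h] at h6
    simp at h6
  refine (sum_log_le _ _ h7 fun p hp => ?_).trans ?_
  · rw [mem_Pf] at hp
    exact ⟨hp.2.1, hp.2.2.2⟩
  · rw [abs_of_pos h6, ← Real.log_pow]
    refine Real.log_le_log h6 ?_
    push_cast
    have h8 : (w.2 : ℝ) ^ m ≤ (lam * z * U) ^ m := pow_le_pow_left₀ ht0.le h4 m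
    have h9 : (0 : ℝ) < (w.1 : ℝ) ^ m := by positivity
    linarith

theorem cl_crt_upper (α β : ℝ) (hαβ : α ≤ β) (M p v w : ℤ) (hM : 0 < M) (hp : 0 < p)
    (h : IsCoprime M p) :
    (((cl α β M v).filter (fun x => x ≡ w [ZMOD p])).card : ℝ) ≤ (β - α) / (M * p) + 2 := by
  classical
  obtain ⟨u, hu⟩ := exists_crt h v w
  have h1 := cl_upper α β hαβ (M * p) u (mul_pos hM hp)
  push_cast at h1
  refine le_trans ?_ h1
  have hself := hu u (Int.ModEq.refl u)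
  have h2 : (cl α β M v).filter (fun x => x ≡ w [ZMOD p]) ⊆ cl α β (M * p) u := by
    intro x hx
    rw [mem_filter, mem_cl] at hx
    rw [mem_cl]
    refine ⟨hx.1.1, hx.1.2.1, ?_⟩
    have e1 : x ≡ u [ZMOD M] := hx.1.2.2.trans hself.1.symm
    have e2 : x ≡ u [ZMOD p] := hx.2.trans hself.2.symm
    rw [Int.modEq_iff_dvd] at e1 e2 ⊢
    exact h.mul_dvd e1 e2
  exact_mod_cast card_le_card h2

/-- few pairs are not coprime -/
theorem noncop (U lam z : ℝ) (hU : 1 ≤ U) (hlam : 1 < lam) (hz : lam < z) (M s₁ t₁ : ℤ)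
    (hM : 0 < M) (y₀ : ℕ) (hy₀ : 1 ≤ y₀)
    (hcl : ∀ p : ℕ, p.Prime → (p : ℤ) ∣ M → (p : ℤ) ∣ s₁ → ¬ (p : ℤ) ∣ t₁)
    (hMy : ∀ p : ℕ, p.Prime → p ≤ y₀ → (p : ℤ) ∣ M) (F : Finset (ℤ × ℤ))
    (hF : ∀ w ∈ F, w ∈ ST U lam z M s₁ t₁ ∧ ¬ IsCoprime w.1 w.2) :
    (F.card : ℝ) ≤ ((lam - 1) * U / M) * (z * (lam - 1) * U / M) / y₀ +
      2 * ((lam - 1) * U / M + z * (lam - 1) * U / M) * (1 + Real.log (lam * U)) +
      4 * (lam * U) := by
  classical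
  have hMR : (0 : ℝ) < M := by exact_mod_cast hM
  have hlam0 : 0 < lam - 1 := by linarith
  have hz0 : 0 < z := by linarith
  have hlU : 1 ≤ lam * U := by nlinarith
  set A : ℝ := (lam - 1) * U / M with hA
  set B : ℝ := z * (lam - 1) * U / M with hB
  have hA0 : 0 < A := by positivity
  have hB0 : 0 < B := by positivity
  set I := (Ioc y₀ ⌊lam * U⌋₊).filter (fun p : ℕ => p.Prime ∧ ¬ (p : ℤ) ∣ M) with hI
  have hcover : F ⊆ I.biUnion (fun p => ((SS U lam M s₁).filter (fun x => x ≡ 0 [ZMOD p])) ×ˢ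
      ((TT U lam z M t₁).filter (fun x => x ≡ 0 [ZMOD p]))) := by
    intro w hw
    obtain ⟨h1, h2⟩ := hF w hw
    obtain ⟨p, hp, hps, hpt⟩ : ∃ p : ℕ, p.Prime ∧ (p : ℤ) ∣ w.1 ∧ (p : ℤ) ∣ w.2 := by
      rw [Int.isCoprime_iff_gcd_eq_one] at h2
      obtain ⟨p, hp, hpd⟩ := Nat.exists_prime_and_dvd h2
      have g1 : (p : ℤ) ∣ (Int.gcd w.1 w.2 : ℤ) := Int.natCast_dvd_natCast.2 hpd
      exact ⟨p, hp, g1.trans (Int.gcd_dvd_left ..), g1.trans (Int.gcd_dvd_right ..)⟩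
    have h1' := mem_ST.1 h1
    have hpM : ¬ (p : ℤ) ∣ M := by
      intro hpM
      have e1 : (p : ℤ) ∣ s₁ := by
        have := hpM.trans h1'.1.2.2.dvd
        have h3 := this.add hps
        simpa using h3
      have e2 : (p : ℤ) ∣ t₁ := by
        have := hpM.trans h1'.2.2.2.dvd
        have h3 := this.add hpt
        simpa using h3
      exact hcl p hp hpM e1 e2
    have hpy : y₀ < p := by
      by_contra hc
      exact hpM (hMy p hp (by omega))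
    have hw0 : (0 : ℝ) < w.1 := by linarith [h1'.1.1]
    have hw0' : 0 < w.1 := by exact_mod_cast hw0
    have hpU : p ≤ ⌊lam * U⌋₊ := by
      apply Nat.le_floor
      have e1 := Int.le_of_dvd hw0' hps
      have e2 : (p : ℝ) ≤ w.1 := by exact_mod_cast e1
      exact e2.trans h1'.1.2.1
    rw [ST, mem_product] at h1
    rw [mem_biUnion]
    refine ⟨p, ?_, ?_⟩
    · rw [hI, mem_filter, mem_Ioc]
      exact ⟨⟨hpy, hpU⟩, hp, hpM⟩
    · rw [mem_product, mem_filter, mem_filter, Int.modEq_zero_iff_dvd, Int.modEq_zero_iff_dvd]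
      exact ⟨⟨h1.1, hps⟩, h1.2, hpt⟩
  have hterm : ∀ p ∈ I, (((((SS U lam M s₁).filter (fun x => x ≡ 0 [ZMOD p])) ×ˢ
      ((TT U lam z M t₁).filter (fun x => x ≡ 0 [ZMOD p]))).card : ℕ) : ℝ) ≤
      A * B * ((p : ℝ) ^ 2)⁻¹ + 2 * (A + B) * (p : ℝ)⁻¹ + 4 := by
    intro p hp
    rw [hI, mem_filter, mem_Ioc] at hp
    have hpp : Prime (p : ℤ) := Nat.prime_iff_prime_int.1 hp.2.1
    have hp0 : (0 : ℤ) < p := by exact_mod_cast hp.2.1.pos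
    have hpR : (0 : ℝ) < p := by exact_mod_cast hp.2.1.pos
    have hcop : IsCoprime M (p : ℤ) :=
      ((Irreducible.coprime_iff_not_dvd hpp.irreducible).2 hp.2.2).symm
    have e1 := cl_crt_upper U (lam * U) (by nlinarith) M p s₁ 0 hM hp0 hcop
    have e2 := cl_crt_upper (z * U) (lam * z * U) (by nlinarith [mul_pos hz0 (by linarith : 0 < U)])
      M p t₁ 0 hM hp0 hcop
    rw [card_product]
    push_cast at e1 e2 ⊢
    have e3 : (((SS U lam M s₁).filter (fun x => x ≡ 0 [ZMOD p])).card : ℝ) ≤ A / p + 2 := by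
      refine e1.trans (le_of_eq ?_)
      rw [hA]
      field_simp
    have e4 : (((TT U lam z M t₁).filter (fun x => x ≡ 0 [ZMOD p])).card : ℝ) ≤ B / p + 2 := by
      refine e2.trans (le_of_eq ?_)
      rw [hB]
      field_simp
    refine (mul_le_mul e3 e4 (Nat.cast_nonneg _) (by positivity)).trans (le_of_eq ?_)
    field_simp
    ring
  have h1 : (F.card : ℝ) ≤ ∑ p ∈ I, (A * B * ((p : ℝ) ^ 2)⁻¹ + 2 * (A + B) * (p : ℝ)⁻¹ + 4) := by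
    have g1 := (card_le_card hcover).trans card_biUnion_le
    refine le_trans ?_ (sum_le_sum hterm)
    exact_mod_cast g1
  have h2 : ∑ p ∈ I, (A * B * ((p : ℝ) ^ 2)⁻¹ + 2 * (A + B) * (p : ℝ)⁻¹ + 4) ≤
      ∑ p ∈ Ioc y₀ ⌊lam * U⌋₊, (A * B * ((p : ℝ) ^ 2)⁻¹ + 2 * (A + B) * (p : ℝ)⁻¹ + 4) :=
    sum_le_sum_of_subset_of_nonneg (filter_subset _ _) fun p _ _ => by positivity
  replace h2 := h1.trans h2
  rw [sum_add_distrib, sum_add_distrib, ← mul_sum, ← mul_sum, sum_const, nsmul_eq_mul] at h2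
  have h3 : ∑ p ∈ Ioc y₀ ⌊lam * U⌋₊, ((p : ℝ) ^ 2)⁻¹ ≤ (y₀ : ℝ)⁻¹ := by
    rcases le_total y₀ ⌊lam * U⌋₊ with h | h
    · refine (sum_Ioc_inv_sq_le_sub (by omega) h).trans ?_
      have : (0 : ℝ) ≤ ((⌊lam * U⌋₊ : ℕ) : ℝ)⁻¹ := by positivity
      linarith
    · rw [Ioc_eq_empty (by omega), sum_empty]
      positivity
  have h4 : ∑ p ∈ Ioc y₀ ⌊lam * U⌋₊, (p : ℝ)⁻¹ ≤ 1 + Real.log (lam * U) := by
    have e1 : ∑ p ∈ Ioc y₀ ⌊lam * U⌋₊, (p : ℝ)⁻¹ ≤ ((harmonic ⌊lam * U⌋₊ : ℚ) : ℝ) := by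
      rw [harmonic_eq_sum_Icc]
      push_cast
      refine sum_le_sum_of_subset_of_nonneg ?_ fun p _ _ => by positivity
      intro p hp
      rw [mem_Ioc] at hp
      rw [mem_Icc]
      omega
    have e2 := harmonic_le_one_add_log ⌊lam * U⌋₊
    have e3 : Real.log ((⌊lam * U⌋₊ : ℕ) : ℝ) ≤ Real.log (lam * U) := by
      refine Real.log_le_log ?_ (Nat.floor_le (by linarith))
      have : 1 ≤ ⌊lam * U⌋₊ := Nat.le_floor (by simpa using hlU)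
      exact_mod_cast this
    linarith
  have h5 : ((Ioc y₀ ⌊lam * U⌋₊).card : ℝ) ≤ lam * U := by
    rw [Nat.card_Ioc]
    have e1 : ((⌊lam * U⌋₊ - y₀ : ℕ) : ℝ) ≤ (⌊lam * U⌋₊ : ℕ) := by
      exact_mod_cast Nat.sub_le _ _
    exact e1.trans (Nat.floor_le (by linarith))
  have h6 : A * B * ∑ p ∈ Ioc y₀ ⌊lam * U⌋₊, ((p : ℝ) ^ 2)⁻¹ ≤ A * B / y₀ := by
    rw [div_eq_mul_inv]
    exact mul_le_mul_of_nonneg_left h3 (by positivity)
  have h7 : 2 * (A + B) * ∑ p ∈ Ioc y₀ ⌊lam * U⌋₊, (p : ℝ)⁻¹ ≤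
      2 * (A + B) * (1 + Real.log (lam * U)) := mul_le_mul_of_nonneg_left h4 (by positivity)
  linarith

/-- the pairs with `p ^ 2 ∣ t ^ m - s ^ m`: all primes -/
theorem sq_upper (U lam z : ℝ) (hU : 1 ≤ U) (hlam : 1 < lam) (hz : lam < z) (M s₁ t₁ : ℤ)
    (hM : 0 < M) (m : ℕ) (hm : 1 ≤ m) (p : ℕ) (hp : p.Prime) (hpm : ¬ p ∣ m)
    (F : Finset (ℤ × ℤ)) (hF : ∀ w ∈ F, w ∈ ST U lam z M s₁ t₁ ∧ ¬ (p : ℤ) ∣ w.1 ∧
      (p : ℤ) ^ 2 ∣ w.2 ^ m - w.1 ^ m) :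
    (F.card : ℝ) ≤ ((lam - 1) * U / M + 2) * (m * (z * (lam - 1) * U / (p : ℝ) ^ 2 + 2)) := by
  classical
  have : Fact p.Prime := ⟨hp⟩
  have hpp : Prime (p : ℤ) := Nat.prime_iff_prime_int.1 hp
  have hp0 : (0 : ℤ) < p := by exact_mod_cast hp.pos
  have hMR : (0 : ℝ) < M := by exact_mod_cast hM
  have hlam0 : 0 < lam - 1 := by linarith
  have hz0 : 0 < z := by linarith
  have hpR : (0 : ℝ) < p := by exact_mod_cast hp.pos
  set b : ℝ := z * (lam - 1) * U / (p : ℝ) ^ 2 + 2 with hb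
  have hb0 : 0 ≤ b := by positivity
  -- for fixed `s`
  have hfix : ∀ s : ℤ, ¬ (p : ℤ) ∣ s →
      ((((TT U lam z M t₁).filter (fun t => (p : ℤ) ^ 2 ∣ t ^ m - s ^ m)).card : ℕ) : ℝ) ≤
        m * b := by
    intro s hs
    set X := (TT U lam z M t₁).filter (fun t => (p : ℤ) ^ 2 ∣ t ^ m - s ^ m) with hX
    have hdvd : ∀ t ∈ X, (p : ℤ) ∣ t ^ m - s ^ m := fun t ht => by
      rw [hX, mem_filter] at ht
      exact (dvd_pow_self _ two_ne_zero).trans ht.2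
    have h1 : X.card ≤ ⌊b⌋₊ * (X.image (fun t : ℤ => (t : ZMod p))).card := by
      refine card_le_mul_card_image X _ fun c hc => ?_
      obtain ⟨t₀, ht₀, rfl⟩ := mem_image.1 hc
      apply Nat.le_floor
      have hpt₀ : ¬ (p : ℤ) ∣ t₀ := by
        intro h
        have e1 : (p : ℤ) ∣ s ^ m := by
          have := (dvd_pow h (by omega : m ≠ 0)).sub (hdvd t₀ ht₀)
          simpa using this
        exact hs (hpp.dvd_of_dvd_pow e1)
      have hsub : X.filter (fun t : ℤ => (t : ZMod p) = (t₀ : ZMod p)) ⊆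
          cl (z * U) (lam * z * U) ((p : ℤ) ^ 2) t₀ := by
        intro t ht
        rw [mem_filter] at ht
        obtain ⟨ht, htt⟩ := ht
        have ht' := ht
        rw [hX, mem_filter, TT, mem_cl] at ht'
        rw [hX, mem_filter] at ht₀
        rw [mem_cl]
        refine ⟨ht'.1.1, ht'.1.2.1, ?_⟩
        rw [Int.modEq_iff_dvd]
        have e1 : (p : ℤ) ∣ t₀ - t := by
          rw [← ZMod.intCast_zmod_eq_zero_iff_dvd]
          push_cast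
          rw [htt, sub_self]
        refine lift_unique hp hpm t₀ t hpt₀ e1 ?_
        have e2 := ht₀.2.sub ht'.2
        have e3 : t₀ ^ m - s ^ m - (t ^ m - s ^ m) = t₀ ^ m - t ^ m := by ring
        rwa [e3] at e2
      have e4 := cl_upper (z * U) (lam * z * U)
        (by nlinarith [mul_pos hz0 (by linarith : 0 < U)]) ((p : ℤ) ^ 2) t₀ (by positivity)
      have e5 : ((X.filter (fun t : ℤ => (t : ZMod p) = (t₀ : ZMod p))).card : ℝ) ≤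
          ((cl (z * U) (lam * z * U) ((p : ℤ) ^ 2) t₀).card : ℝ) := by
        exact_mod_cast card_le_card hsub
      refine e5.trans (e4.trans (le_of_eq ?_))
      rw [hb]
      push_cast
      ring
    have h2 : (X.image (fun t : ℤ => (t : ZMod p))).card ≤ m := by
      refine card_roots_le p m hm ((s : ZMod p) ^ m) _ fun x hx => ?_
      obtain ⟨t, ht, rfl⟩ := mem_image.1 hx
      have := hdvd t ht
      rw [← ZMod.intCast_zmod_eq_zero_iff_dvd] at this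
      push_cast at this
      exact sub_eq_zero.1 this
    have h3 : (X.card : ℝ) ≤ (⌊b⌋₊ : ℝ) * ((X.image (fun t : ℤ => (t : ZMod p))).card : ℝ) := by
      exact_mod_cast h1
    have h4 : ((X.image (fun t : ℤ => (t : ZMod p))).card : ℝ) ≤ m := by exact_mod_cast h2
    calc (X.card : ℝ) ≤ (⌊b⌋₊ : ℝ) * ((X.image (fun t : ℤ => (t : ZMod p))).card : ℝ) := h3
      _ ≤ b * m := mul_le_mul (Nat.floor_le hb0) h4 (Nat.cast_nonneg _) hb0
      _ = m * b := mul_comm _ _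
  set S' := (SS U lam M s₁).filter (fun s => ¬ (p : ℤ) ∣ s) with hS'
  have h1 : F.card ≤ ∑ s ∈ S',
      ((TT U lam z M t₁).filter (fun t => (p : ℤ) ^ 2 ∣ t ^ m - s ^ m)).card := by
    rw [← card_sigma]
    refine card_le_card_of_injOn (fun w => ⟨w.1, w.2⟩) ?_ ?_
    · intro w hw
      obtain ⟨e1, e2, e3⟩ := hF w hw
      rw [ST, mem_product] at e1
      rw [mem_coe, mem_sigma, hS', mem_filter, mem_filter]
      exact ⟨⟨e1.1, e2⟩, e1.2, e3⟩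
    · rintro ⟨a, b⟩ _ ⟨c, d⟩ _ h
      simpa using h
  have h2 : ∑ s ∈ S', ((((TT U lam z M t₁).filter
      (fun t => (p : ℤ) ^ 2 ∣ t ^ m - s ^ m)).card : ℕ) : ℝ) ≤ ∑ s ∈ S', m * b :=
    sum_le_sum fun s hs => hfix s (by rw [hS', mem_filter] at hs; exact hs.2)
  rw [sum_const, nsmul_eq_mul] at h2
  have h3 : (S'.card : ℝ) ≤ (lam - 1) * U / M + 2 := by
    have e1 : (S'.card : ℝ) ≤ ((SS U lam M s₁).card : ℝ) := by
      exact_mod_cast card_le_card (filter_subset _ _)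
    have e2 := cl_upper U (lam * U) (by nlinarith) M s₁ hM
    refine e1.trans (e2.trans (le_of_eq ?_))
    ring
  have h4 : (F.card : ℝ) ≤ ∑ s ∈ S', ((((TT U lam z M t₁).filter
      (fun t => (p : ℤ) ^ 2 ∣ t ^ m - s ^ m)).card : ℕ) : ℝ) := by exact_mod_cast h1
  exact h4.trans (h2.trans (mul_le_mul_of_nonneg_right h3 (by positivity)))

/-- the same ratio modulo `p` -/
theorem ratio_eq (p : ℕ) [Fact p.Prime] (w w' : ℤ × ℤ) (h : ¬ (p : ℤ) ∣ w.1)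
    (h' : ¬ (p : ℤ) ∣ w'.1)
    (he : (w.2 : ZMod p) * (w.1 : ZMod p)⁻¹ = (w'.2 : ZMod p) * (w'.1 : ZMod p)⁻¹) :
    (p : ℤ) ∣ w.1 * w'.2 - w'.1 * w.2 := by
  have h1 : (w.1 : ZMod p) ≠ 0 := by
    rwa [Ne, ZMod.intCast_zmod_eq_zero_iff_dvd]
  have h2 : (w'.1 : ZMod p) ≠ 0 := by
    rwa [Ne, ZMod.intCast_zmod_eq_zero_iff_dvd]
  rw [← ZMod.intCast_zmod_eq_zero_iff_dvd]
  push_cast
  rw [← div_eq_mul_inv, ← div_eq_mul_inv, div_eq_div_iff h1 h2] at he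
  linear_combination -he

theorem eq_of_cross {w w' : ℤ × ℤ} (hw : 0 < w.1) (hw' : 0 < w'.1) (hc : IsCoprime w.1 w.2)
    (hc' : IsCoprime w'.1 w'.2) (h : w.1 * w'.2 = w'.1 * w.2) : w = w' := by
  have h1 : w.1 ∣ w'.1 := hc.dvd_of_dvd_mul_right (h ▸ Dvd.intro _ rfl)
  have h2 : w'.1 ∣ w.1 := hc'.dvd_of_dvd_mul_right (h.symm ▸ Dvd.intro _ rfl)
  have h3 : w.1 = w'.1 := Int.dvd_antisymm hw.le hw'.le h1 h2
  refine Prod.ext h3 ?_
  rw [h3] at h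
  exact (mul_left_cancel₀ hw'.ne' h).symm

theorem cross_lt {U lam z : ℝ} (hU : 1 ≤ U) (hlam : 1 < lam) (hz : lam < z) {M s₁ t₁ : ℤ}
    {w w' : ℤ × ℤ} (hw : w ∈ ST U lam z M s₁ t₁) (hw' : w' ∈ ST U lam z M s₁ t₁) :
    |((w.1 * w'.2 - w'.1 * w.2 : ℤ) : ℝ)| < lam ^ 2 * z * U ^ 2 := by
  rw [mem_ST] at hw hw'
  obtain ⟨⟨a1, a2, -⟩, a3, a4, -⟩ := hw
  obtain ⟨⟨b1, b2, -⟩, b3, b4, -⟩ := hw'
  have hz0 : 0 < z * U := mul_pos (by linarith) (by linarith)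
  have h1 : (w.1 : ℝ) * w'.2 ≤ (lam * U) * (lam * z * U) :=
    mul_le_mul a2 b4 (by linarith) (by nlinarith)
  have h2 : (w'.1 : ℝ) * w.2 ≤ (lam * U) * (lam * z * U) :=
    mul_le_mul b2 a4 (by linarith) (by nlinarith)
  have h3 : 0 < (w.1 : ℝ) * w'.2 := mul_pos (by linarith) (by linarith)
  have h4 : 0 < (w'.1 : ℝ) * w.2 := mul_pos (by linarith) (by linarith)
  have h5 : (lam * U) * (lam * z * U) = lam ^ 2 * z * U ^ 2 := by ring
  rw [h5] at h1 h2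
  push_cast
  rw [abs_lt]
  constructor <;> linarith

/-- the pairs with `p ^ 2 ∣ t ^ m - s ^ m`: large primes -/
theorem sq_upper_big (U lam z : ℝ) (hU : 1 ≤ U) (hlam : 1 < lam) (hz : lam < z) (M s₁ t₁ : ℤ)
    (m : ℕ) (hm : 1 ≤ m) (p : ℕ) (hp : p.Prime) (hpm : ¬ p ∣ m)
    (hpU : lam * z * U < p) (F : Finset (ℤ × ℤ)) (hF : ∀ w ∈ F, w ∈ ST U lam z M s₁ t₁ ∧
      IsCoprime w.1 w.2 ∧ ¬ (p : ℤ) ∣ w.1 ∧ (p : ℤ) ^ 2 ∣ w.2 ^ m - w.1 ^ m) :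
    F.card ≤ m := by
  classical
  have : Fact p.Prime := ⟨hp⟩
  have hpp : Prime (p : ℤ) := Nat.prime_iff_prime_int.1 hp
  have h1 : F.card ≤ 1 * (F.image
      (fun w : ℤ × ℤ => (w.2 : ZMod p) * (w.1 : ZMod p)⁻¹)).card := by
    refine card_le_mul_card_image F 1 fun c hc => ?_
    rw [card_le_one]
    intro w hw w' hw'
    rw [mem_filter] at hw hw'
    obtain ⟨a1, a2, a3, a4⟩ := hF w hw.1
    obtain ⟨b1, b2, b3, b4⟩ := hF w' hw'.1
    have e1 := ratio_eq p w w' a3 b3 (hw.2.trans hw'.2.symm)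
    have hw't : ¬ (p : ℤ) ∣ w'.2 := by
      intro h
      have e1 : (p : ℤ) ∣ w'.1 ^ m := by
        have := (dvd_pow h (by omega : m ≠ 0)).sub ((dvd_pow_self _ two_ne_zero).trans b4)
        simpa using this
      exact b3 (hpp.dvd_of_dvd_pow e1)
    have e2 : (p : ℤ) ^ 2 ∣ w.1 * w'.2 - w'.1 * w.2 := by
      refine lift_unique hp hpm _ _ ?_ e1 ?_
      · intro h
        rcases hpp.dvd_or_dvd h with h | h
        · exact a3 h
        · exact hw't h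
      · have e3 : (w.1 * w'.2) ^ m - (w'.1 * w.2) ^ m =
            w.1 ^ m * (w'.2 ^ m - w'.1 ^ m) - w'.1 ^ m * (w.2 ^ m - w.1 ^ m) := by ring
        rw [e3]
        exact (b4.mul_left _).sub (a4.mul_left _)
    have e4 := cross_lt hU hlam hz a1 b1
    have e5 : lam ^ 2 * z * U ^ 2 < (p : ℝ) ^ 2 := by
      have hz1 : 1 < z := by linarith
      have f1 : 0 < lam * z * U := by positivity
      have f2 : (lam * z * U) ^ 2 < (p : ℝ) ^ 2 := pow_lt_pow_left₀ hpU f1.le two_ne_zero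
      have f3 : lam ^ 2 * z * U ^ 2 ≤ (lam * z * U) ^ 2 := by
        have : (lam * z * U) ^ 2 = lam ^ 2 * z * U ^ 2 * z := by ring
        rw [this]
        have : 0 < lam ^ 2 * z * U ^ 2 := by positivity
        nlinarith
      linarith
    have e6 : |w.1 * w'.2 - w'.1 * w.2| < (p : ℤ) ^ 2 := by
      have := e4.trans e5
      exact_mod_cast this
    have e7 := Int.eq_zero_of_abs_lt_dvd e2 e6
    have g1 := (mem_ST.1 a1).1.1
    have g2 := (mem_ST.1 b1).1.1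
    have g3 : (0 : ℝ) < w.1 := by linarith
    have g4 : (0 : ℝ) < w'.1 := by linarith
    exact eq_of_cross (by exact_mod_cast g3) (by exact_mod_cast g4) a2 b2 (by linarith)
  refine h1.trans ?_
  rw [one_mul]
  refine card_roots_le p m hm 1 _ fun x hx => ?_
  obtain ⟨w, hw, rfl⟩ := mem_image.1 hx
  obtain ⟨a1, a2, a3, a4⟩ := hF w hw
  have h2 : (w.1 : ZMod p) ≠ 0 := by
    rwa [Ne, ZMod.intCast_zmod_eq_zero_iff_dvd]
  have h3 : ((w.2 ^ m - w.1 ^ m : ℤ) : ZMod p) = 0 := by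
    rw [ZMod.intCast_zmod_eq_zero_iff_dvd]
    exact (dvd_pow_self _ two_ne_zero).trans a4
  push_cast at h3
  rw [mul_pow, inv_pow, sub_eq_zero.1 h3]
  exact mul_inv_cancel₀ (pow_ne_zero _ h2)

end Pool.Agent.J4H71.CF
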